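import Pool.Agent.MP_914aa3_co.Cl.Stm

set_option autoImplicit false

namespace Pool.Agent.MP_914aa3_co.Cl

theorem g12R_B {P Q : Finset ℤ} {e l3 r3 : ℤ} (h : G12 P e l3 r3) (m : MR P Q r3 (r3 + 1))
    (h1 : e + 3 ≤ l3) (a : l3 < r3) (he : e % 2 = 0) (hr : r3 % 2 = 0) : G12 Q e l3 (r3 - 2) := by
  rcases h with c | c | c | c | c
  · exact Or.inl ⟨m.sub c.1 (by omega), m.sub c.2 (by omega)⟩
  · have : r3 ≠ e + 4 := fun d => c.1 (d ▸ m.b)
    exact Or.inr (Or.inl ⟨m.sub c.1 (by omega), m.sub c.2 (by omega)⟩)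
  · have : r3 ≠ e + 4 := fun d => c.2 (d ▸ m.b)
    exact Or.inr (Or.inr (Or.inl ⟨(m.same (by omega)).2 c.1, m.sub c.2 (by omega)⟩))
  · by_cases d : r3 = e + 4
    · exact Or.inr (Or.inr (Or.inr (Or.inr ⟨by omega, Or.inr (m.out (by omega) (by omega))⟩)))
    · exact Or.inr (Or.inr (Or.inr (Or.inl (by omega))))
  · omega

theorem g12L_B {P Q : Finset ℤ} {e l3 r3 q : ℤ} (h : G12 P e l3 r3) (m : ML P Q l3 q)
    (hq : q - 1 ∉ P) (h1 : e + 2 ≤ q) (a : l3 < r3) (he : e % 2 = 0) (hl : l3 % 2 = 1)
    (ht : (r3 - l3) % 4 = 1) : G12 Q e (l3 + 2) r3 := by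
  have := m.lt
  have := m.par
  by_cases c1 : q = e + 2
  · by_cases c2 : l3 = e + 3
    · refine Or.inr (Or.inr (Or.inr (Or.inr ⟨?_, Or.inr (m.out (by omega) (by omega))⟩)))
      have b3 : e + 3 ∈ P := c2 ▸ m.b
      have b4 : e + 4 ∈ P := by simpa [c2, add_assoc] using m.a
      rcases h with c | c | c | c | c
      exacts [(c.2 b3).elim, (c.1 b4).elim, (c.2 b4).elim, by omega, by omega]
    · exact Or.inr (Or.inl ⟨m.out (by omega) (by omega), m.out (by omega) (by omega)⟩)
  · rcases h with c | c | c | c | c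
    · exact Or.inl ⟨m.sub c.1 (by omega), m.sub c.2 (by omega)⟩
    · refine Or.inr (Or.inl ⟨m.sub c.1 fun d => c.2 ?_, m.sub c.2 (by omega)⟩)
      by_cases c2 : l3 = e + 5
      · exact c2 ▸ m.b
      · exact (m.path _ (by omega) (by omega)).2 (by omega)
    · have : q - 1 ≠ e + 3 := fun d => hq (d ▸ c.1)
      exact Or.inr (Or.inr (Or.inl ⟨(m.same (by omega)).2 c.1, m.sub c.2 (by omega)⟩))
    · omega
    · omega

theorem bS : BS := by
  intro P l2 r2 l3 r3 h hn p1 p2 hm a2 gap p3 p4 ho hg
  have w3 : l3 ≤ r3 + 1 := h.wf (l3, r3) (by simp)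
  have z3 := zt l3 r3
  have b2 : l2 < r2 := by omega
  refine ⟨fun Q m => ?_, fun u hu => ?_⟩
  · obtain ⟨q, ⟨-, m, c⟩ | ⟨-, m, -⟩ | ⟨-, m, c⟩ | ⟨a, m, -⟩⟩ := h.cases2 m
    · omega
    · have := m.lt
      have := m.par
      have z2 := zt l2 (r2 - 2)
      have o2 : Op1 Q l2 (r2 - 2) := fun _ _ =>
        ⟨fun _ => by omega, fun _ => m.out (by omega) (by omega)⟩
      have o3 : Op1 Q l3 r3 := fun c _ => ⟨fun _ => by omega, fun _ => m.sub (ho c) (by omega)⟩
      have mk : l2 - 2 ∈ Q := (m.same (by omega)).2 hm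
      rcases m.tri hn with hq | ⟨hq, h2⟩
      · refine Or.inl ⟨_, Good.up (l := l2) (r := r2 - 2)
          ⟨h.plainR0 b2 m hq, m.nl hn, open2 o2 o3⟩ (by simp) (by omega) (by omega)
          (Or.inl ⟨p1, mk⟩), ?_⟩
        simp only [zs_cons, zs_nil]
        exact vlf_up (by omega) rfl (by omega)
      · by_cases h3 : q + 3 ∈ P
        · have far : l3 < r3 → q < l3 := fun a => m.before (by omega)
            (h.mem_run (l := l3) (r := r3) (by simp) a le_rfl a.le)
            (h.mem_run (l := l3) (r := r3) (by simp) a (by omega) (by omega))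
          have ne : r2 ≠ l2 + 3 := fun d => by
            have k : r2 + 2 ∈ P ∧ r2 + 3 ∉ P ∧ r2 + 4 ∈ P := by
              by_cases e : q = r2 + 1
              · subst e
                exact ⟨by simpa [add_assoc] using hq, by simpa [add_assoc] using h2,
                  by simpa [add_assoc] using h3⟩
              · refine ⟨(m.path _ (by omega) (by omega)).2 (by omega),
                  fun f => by have := (m.path _ (by omega) (by omega)).1 f; omega, ?_⟩
                by_cases e' : q = r2 + 3
                · subst e'; simpa [add_assoc] using hq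
                · exact (m.path _ (by omega) (by omega)).2 (by omega)
            rcases hg d with c | c | c | c | c
            · exact c.1 k.1
            · exact c.1 k.2.2
            · exact c.2 k.2.2
            · exact k.2.1 (h.mem_run (l := l3) (r := r3) (by simp) c.2.2 (by omega) (by omega))
            · exact c.2.elim (· k.1) (· k.2.2)
          obtain ⟨Q', m', s⟩ := Str.backR (L1 := []) h b2 m hq h2
          refine Or.inr ⟨Q', _, m'.move (by omega), Good.b s (m'.nl (m.nl hn)) p1 (by omega)
            ((m'.same (by omega)).2 mk) (by omega) (by omega) p3 p4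
            (fun a => m'.sub (m.sub (ho a) (by omega)) (by have := far a; omega)) fun _ => ?_,
            vle_eq rfl rfl rfl (by omega)⟩
          by_cases e : q = r2 + 1
          · refine Or.inr (Or.inl ⟨m'.out (by omega) (by omega),
              m'.sub (m.sub ?_ (by omega)) (by omega)⟩)
            rwa [show r2 - 2 + 5 = q + 2 by omega]
          · exact Or.inl ⟨m'.sub (m.out (by omega) (by omega)) (by omega),
              m'.sub (m.out (by omega) (by omega)) (by omega)⟩
        · have z1 := zt q (q + 1)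
          have o1 : Op1 Q q (q + 1) := fun _ _ => ⟨fun _ => by omega,
            fun _ => m.sub (by simpa [add_assoc] using h3) (by omega)⟩
          refine Or.inl ⟨_, Good.up (l := l2) (r := r2 - 2)
            ⟨h.pairR0 b2 m hq h2, m.nl hn, open3 o1 o2 o3⟩ (by simp) (by omega) (by omega)
            (Or.inl ⟨p1, mk⟩), ?_⟩
          simp only [zs_cons, zs_nil]
          exact vlf_up (by omega) rfl (by omega)
    · omega
    · obtain rfl := m.one (ho a)
      have z3' := zt l3 (r3 - 2)
      exact Or.inl ⟨_, Good.b (Str.plainR (L1 := [(l2, r2)]) h a m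
        (by simpa [add_assoc] using ho a)) (m.nl hn) p1 p2 ((m.same (by omega)).2 hm) a2 gap p3
        (by omega) (fun _ => m.out (by omega) (by omega))
        fun d => g12R_B (hg d) m gap a p2 p4, vlf_star rfl rfl rfl (by omega)⟩
  · rcases VL_int hu with ⟨-, t, -⟩ | ⟨t, rfl⟩
    · omega
    · have a : l3 < r3 := by omega
      obtain ⟨q, Q, m, hq⟩ := h.jumpL' (l := l3) (r := r3) hn (by simp) a
      have := m.lt
      have := m.par
      have := m.before (x := r2) (by omega)
        (h.mem_run (l := l2) (r := r2) (by simp) b2 b2.le le_rfl)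
        (h.mem_run (l := l2) (r := r2) (by simp) b2 (by omega) (by omega))
      have z3' := zt (l3 + 2) r3
      exact ⟨Q, _, m.move (by omega), Good.b (Str.plainL (L1 := [(l2, r2)]) h a m hq) (m.nl hn) p1
        p2 ((m.same (by omega)).2 hm) a2 (by omega) (by omega) p4
        (fun _ => m.sub (ho a) (by omega))
        fun d => g12L_B (hg d) m hq (by omega) a p2 p3 (by omega), vle_eq rfl rfl rfl (by omega)⟩

end Pool.Agent.MP_914aa3_co.Cl
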