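import Pool.Agent.MP_914aa3_co.Cl.Stm

set_option autoImplicit false

namespace Pool.Agent.MP_914aa3_co.Cl

theorem mono_FD {z k y y' : ℤ} (h : nlt z k y 0) (c : y ≤ y') : nlt z k y' 0 := by
  unfold nlt at *
  omega

theorem dS : DS := by
  intro P L h
  refine ⟨fun Q m => Or.inl ?_, fun u hu => ?_⟩
  · obtain ⟨l, r, q, hm, hl, ⟨m, c⟩ | ⟨m, c⟩⟩ := h.str.cases m
    · have o := h.op l r hm hl
      obtain ⟨L1, L2, rfl⟩ := List.append_of_mem hm
      have z1 := zt l r
      have z2 := zt l (r - 2)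
      by_cases hq : q + 1 ∈ P
      · have e : l % 2 = 0 := by
          by_contra e
          have o' := (o (by omega)).2 (by omega)
          obtain rfl := m.one o'
          exact o' (by simpa [add_assoc] using hq)
        obtain ⟨M, s, hz⟩ := h.str.anyR h.nl hl m
        refine crude_lf s (m.nl h.nl) (nlt_z ?_ (by simp))
        simp only [zs_app, zs_cons]
        omega
      · refine ⟨_, Good.d (h.oR hl (by omega) m hq), ?_⟩
        simp only [zs_app, zs_cons, ts_app, ts_cons]
        by_cases e : l % 2 = 0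
        · exact vlf_z (by omega)
        · exact vlf_star (by omega) rfl rfl (by omega)
    · have o := h.op l r hm hl
      obtain ⟨L1, L2, rfl⟩ := List.append_of_mem hm
      have z1 := zt l r
      have z2 := zt (l + 2) r
      by_cases hq : q - 1 ∈ P
      · have e : r % 2 = 0 := by
          by_contra e
          have o' := (o (by omega)).1 (by omega)
          obtain rfl := m.one o'
          exact o' (by simpa [sub_sub] using hq)
        obtain ⟨M, s, hz⟩ := h.str.anyL h.nl hl m
        refine crude_lf s (m.nl h.nl) (nlt_z ?_ (by simp))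
        simp only [zs_app, zs_cons]
        omega
      · refine ⟨_, Good.d (h.oL hl (by omega) m hq), ?_⟩
        simp only [zs_app, zs_cons, ts_app, ts_cons]
        by_cases e : r % 2 = 0
        · exact vlf_z (by omega)
        · exact vlf_star (by omega) rfl rfl (by omega)
  · rcases VL_int hu with ⟨t, hz, rfl⟩ | ⟨t, rfl⟩
    · by_cases c : ∃ l r, (l, r) ∈ L ∧ l < r ∧ l % 2 ≠ r % 2
      · obtain ⟨l, r, hm, hl, hp⟩ := c
        obtain ⟨Q, M, m, d, e1, -⟩ := tempo h hm hl hp
        exact ⟨Q, _, m, Good.d d, vle_z (by omega)⟩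
      · obtain ⟨l, r, hm, hl, h1, h2⟩ := ex_pos h.str.wf hz
        obtain ⟨Q, M, m, s, n, e1, e2, e3⟩ := spend h.str h.nl hm hl h1 h2
        exact ⟨Q, _, m, Good.d ⟨s, n, fun a b hab hlt hp => (c ⟨a, b, e3 a b hab hp, hlt, hp⟩).elim⟩,
          vle_eq (by omega) rfl rfl (by omega)⟩
    · obtain ⟨l, r, hm, hl, hp⟩ := ex_mixed h.str (by omega)
      obtain ⟨Q, M, m, d, e1, e2⟩ := tempo h hm hl hp
      exact ⟨Q, _, m, Good.d d, vle_eq (by omega) rfl rfl (by omega)⟩

theorem dcS : DcS := by
  intro P L l r z k h hn hm hl hp hv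
  refine ⟨fun Q m => Or.inl ?_, fun u hu => ?_⟩
  · obtain ⟨a, b, q, hab, hlt, ⟨m, c⟩ | ⟨m, c⟩⟩ := h.cases m
    · obtain ⟨L1, L2, rfl⟩ := List.append_of_mem hab
      have z1 := zt a b
      have z2 := zt a (b - 2)
      obtain ⟨M, s, hz⟩ := h.anyR hn hlt m
      refine crude_lf s (m.nl hn) (mono_FD hv ?_)
      simp only [zs_app, zs_cons]
      omega
    · obtain ⟨L1, L2, rfl⟩ := List.append_of_mem hab
      have z1 := zt a b
      have z2 := zt (a + 2) b
      obtain ⟨M, s, hz⟩ := h.anyL hn hlt m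
      refine crude_lf s (m.nl hn) (mono_FD hv ?_)
      simp only [zs_app, zs_cons]
      omega
  · obtain ⟨Q, M, m, s, n, e⟩ := tempo' h hn hm hl hp
    obtain ⟨w, g, c⟩ := crude_le s n (v := u) (e ▸ VL_le hu hv)
    exact ⟨Q, w, m, g, c⟩

end Pool.Agent.MP_914aa3_co.Cl
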