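import Pool.Agent.MP_914aa3_co.Cl.Stm

set_option autoImplicit false

namespace Pool.Agent.MP_914aa3_co.Cl

theorem e1S : E1S := by
  intro P l2 r2 l3 r3 h a2 a3 p1 p2 p3 p4 gap k2 k3
  have o2 : r2 + 2 ∉ P := (h.op l2 r2 (by simp) a2 (by omega)).2 p2
  have o3 : r3 + 2 ∉ P := (h.op l3 r3 (by simp) a3 (by omega)).2 p4
  have z2 := zt l2 r2
  have z3 := zt l3 r3
  refine ⟨fun Q m => ?_, fun u hu => ?_⟩
  · obtain ⟨q, ⟨-, m, c⟩ | ⟨-, m, c⟩ | ⟨-, m, c⟩ | ⟨-, m, c⟩⟩ := h.str.cases2 m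
    · omega
    · obtain rfl := m.one o2
      have d : Dm Q [(l2, r2 - 2), (l3, r3)] :=
        Dm.oR (L1 := []) h a2 p2 m (by simpa [add_assoc] using o2)
      have k : l3 - 2 ∈ Q := by
        by_cases e : l3 = r2 + 3
        · rw [show l3 - 2 = r2 + 1 by omega]
          exact m.land
        · exact (m.same (by omega)).2 (k3.resolve_left e)
      by_cases e : l2 < r2 - 2
      · exact Or.inl ⟨_, Good.e1 d e a3 p1 (by omega) p3 p4 (by omega)
          ((m.same (by omega)).2 k2) (Or.inr k), vlf_dn rfl rfl (by omega) (by omega)⟩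
      · refine Or.inl ⟨_, Good.up (l := l3) (r := r3) d (by simp) a3 (by omega) (Or.inl ⟨p3, k⟩), ?_⟩
        have z2' := zt l2 (r2 - 2)
        simp only [zs_cons, ts_cons, zs_nil, ts_nil]
        exact vlf_dn (by omega) rfl (by omega) (by omega)
    · omega
    · obtain rfl := m.one o3
      have d : Dm Q [(l2, r2), (l3, r3 - 2)] :=
        Dm.oR (L1 := [(l2, r2)]) h a3 p4 m (by simpa [add_assoc] using o3)
      have k : l2 - 2 ∈ Q := (m.same (by omega)).2 k2
      by_cases e : l3 < r3 - 2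
      · exact Or.inl ⟨_, Good.e1 d a2 e p1 p2 p3 (by omega) gap k
          (k3.imp_right fun c => (m.same (by omega)).2 c), vlf_dn rfl rfl (by omega) (by omega)⟩
      · refine Or.inl ⟨_, Good.up (l := l2) (r := r2) d (by simp) a2 (by omega) (Or.inl ⟨p1, k⟩), ?_⟩
        have z3' := zt l3 (r3 - 2)
        simp only [zs_cons, ts_cons, zs_nil, ts_nil]
        exact vlf_dn (by omega) rfl (by omega) (by omega)
  · obtain rfl : u = ⟨0, 0, 0, 0⟩ := (VL_up (by omega) hu).resolve_right (by omega)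
    by_cases e : ((r2 - l2 + 1) / 2 + (r3 - l3 + 1) / 2) % 2 = 0
    · obtain ⟨Q, m⟩ := h.str.oneL (l := l2) (r := r2) (by simp) a2
      have h1 : l2 - 1 - 1 ∈ P := by simpa [sub_sub] using k2
      have h2 : l2 - 1 - 2 ∉ P := ((m.tri h.nl).resolve_left (not_not.2 h1)).2
      have s : Str Q [(l2 - 1 - 1, l2 - 1), (l2 + 2, r2), (l3, r3)] :=
        Str.pairL (L1 := []) h.str a2 m h1 h2
      refine ⟨Q, _, m.move (by omega), Good.d ⟨s, m.nl h.nl, open3
        (fun _ _ => ⟨fun _ => by omega, fun _ => m.out (by omega) (by omega)⟩)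
        (fun _ _ => ⟨fun _ => by omega, fun _ => m.sub o2 (by omega)⟩)
        (fun _ _ => ⟨fun _ => by omega, fun _ => m.sub o3 (by omega)⟩)⟩, ?_⟩
      have z1 := zt (l2 - 1 - 1) (l2 - 1)
      have z2' := zt (l2 + 2) r2
      simp only [zs_cons, ts_cons, zs_nil, ts_nil]
      exact vle_eq (by omega) rfl rfl (by omega)
    · obtain ⟨Q, M, m, d, e1, e2⟩ := tempo h (l := l2) (r := r2) (by simp) a2 (by omega)
      simp only [zs_cons, ts_cons, zs_nil, ts_nil] at e1 e2
      exact ⟨Q, _, m, Good.d d, vle_eq (by omega) rfl rfl (by omega)⟩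

end Pool.Agent.MP_914aa3_co.Cl
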