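import Pool.Agent.MP_914aa3_co.Cl.Stm

set_option autoImplicit false

namespace Pool.Agent.MP_914aa3_co.Cl

theorem e6S : E6S := by
  intro P g l1 r2 l3 r3 h hg h1 h2 ho h3 h4
  have a1 := h.a1
  have a2 := h.a2
  have gap := h.gap
  have par := h.par
  have w3 : l3 ≤ r3 + 1 := h.str.wf (l3, r3) (by simp)
  have a : l3 < r3 := by omega
  have o := ho a (by omega)
  have z3 := zt l3 r3
  refine ⟨fun Q m => ?_, fun u hu => ?_⟩
  · obtain ⟨q, ⟨m, c⟩ | ⟨m, c⟩ | ⟨m, c⟩ | ⟨m, c⟩ | ⟨-, m, c⟩ | ⟨-, m, c⟩⟩ := h.cases m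
    · omega
    · obtain ⟨-, s, n⟩ := h.mgR m
      refine Or.inl (crude_lf s n (nlt_z ?_ (by simp)))
      have z1 := zt l1 (g - 3)
      have z2 := zt g r2
      simp only [zs_cons, zs_nil]
      omega
    · obtain ⟨-, s, n⟩ := h.mgL m
      refine Or.inl (crude_lf s n (nlt_z ?_ (by simp)))
      have z1 := zt l1 g
      have z2 := zt (g + 3) r2
      simp only [zs_cons, zs_nil]
      omega
    · omega
    · obtain rfl := m.one o
      have b := h.p3L a m (by simpa [sub_sub] using o)
      have k : r2 + 2 ∈ Q := by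
        by_cases d : l3 = r2 + 3
        · have := m.land
          rwa [show l3 - 1 = r2 + 2 by omega] at this
        · exact (m.same (by omega)).2 (h4.resolve_left d)
      by_cases d : l3 + 2 < r3
      · obtain ⟨q', Q', m', hq⟩ := b.j3R d
        have := m'.lt
        exact Or.inr ⟨Q', _, m'.move (by omega), Good.e6 (b.p3R d m' hq) hg h1 h2
          (fun _ _ => m'.sub (m.out (by omega) (by omega)) (by omega)) (by omega)
          (Or.inr ((m'.same (by omega)).2 k)), vle_eq rfl rfl rfl (by omega)⟩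
      · obtain ⟨Q', m'⟩ := b.str.oneR (l := g + 1) (r := r2) (by simp) a2
        have k1 : r2 + 1 + 1 ∈ Q := by simpa [add_assoc] using k
        have k2 : r2 + 1 + 2 ∉ Q := by
          rcases m'.tri1 b.nl with e | e | e
          exacts [(e k1).elim, e.2, by omega]
        have s := Str.pairR (L1 := [(l1, g - 1)]) b.str a2 m' k1 k2
        have s' : Str Q' [(l1, g - 1), (g + 1, r2 - 2), (r2 + 1, r2 + 1 + 1)] :=
          (Str.dropM (L1 := [(r2 + 1, r2 + 1 + 1), (l1, g - 1), (g + 1, r2 - 2)]) (L2 := []) s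
            (by omega)).perm (List.perm_append_comm (l₁ := [(r2 + 1, r2 + 1 + 1)]))
        have b' : Base0 Q' g l1 (r2 - 2) (r2 + 1) (r2 + 1 + 1) :=
          ⟨s', m'.nl1 b.nl, by omega, by omega, fun _ _ => by omega, fun _ _ => by omega⟩
        have o' : r2 + 1 - 2 ∉ Q' := m'.out (by omega) (by omega)
        have z4 := zt (r2 + 1) (r2 + 1 + 1)
        by_cases e : g + 1 < r2 - 2
        · have z5 := gzt ((g - l1) / 2) ((r2 - 2 - g) / 2)
          exact Or.inr ⟨Q', _, m'.move (by omega), Good.l6 (b'.base a1 e) hg (by omega) (by omega)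
            (fun _ _ => o'), vle_eq (by omega) rfl rfl (by omega)⟩
        · refine Or.inr ⟨Q', _, m'.move (by omega), Good.d ⟨s', b'.toNL (by omega),
            open3 (fun _ _ => ⟨fun _ => by omega, fun _ => m'.out (by omega) (by omega)⟩)
              (.triv (by omega)) fun _ _ => ⟨fun _ => o', fun _ => by omega⟩⟩, ?_⟩
          have z1 := zt l1 (g - 1)
          have z2 := zt (g + 1) (r2 - 2)
          simp only [zs_cons, ts_cons, zs_nil, ts_nil]
          exact vle_eq (by omega) rfl rfl (by omega)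
    · omega
  · rcases VL_int hu with ⟨-, t, rfl⟩ | ⟨t, -⟩
    · obtain ⟨q, Q, m, hq⟩ := h.j1L
      have := m.lt
      have z5 := gzt ((g - (l1 + 2)) / 2) ((r2 - g) / 2)
      exact ⟨Q, _, m.move (by omega), Good.l6 ((h.p1L m hq).base (by omega) a2) hg (by omega)
        (by omega) (fun _ _ => m.sub o (by omega)), vle_z (by omega)⟩
    · omega

end Pool.Agent.MP_914aa3_co.Cl
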