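import Pool.Agent.MP_914aa3_co.Cl.Stm

set_option autoImplicit false

namespace Pool.Agent.MP_914aa3_co.Cl

theorem l1S : L1S := by
  intro P g l1 r2 l3 r3 h hg h1 h2 ho
  have a1 := h.a1
  have a2 := h.a2
  have gap := h.gap
  have par := h.par
  have w3 : l3 ≤ r3 + 1 := h.str.wf (l3, r3) (by simp)
  have z3 := zt l3 r3
  refine ⟨fun Q m => ?_, fun u hu => ?_⟩
  · obtain ⟨q, ⟨m, c⟩ | ⟨m, c⟩ | ⟨m, c⟩ | ⟨m, c⟩ | ⟨a, m, c⟩ | ⟨a, m, c⟩⟩ := h.cases m
    · omega
    · omega
    · omega
    · omega
    · have := m.lt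
      have z3' := zt (l3 + 2) r3
      by_cases hq : q - 1 ∈ P
      · -- stop: only possible when r3 is even; the even player captures back
        have r : r3 % 2 = 0 := by
          by_contra r
          have o := ho a (by omega)
          obtain rfl := m.one o
          exact o (by simpa [sub_sub] using hq)
        obtain ⟨-, Q', m', b⟩ := h.s3L a m hq
        have := m.par
        exact Or.inr ⟨Q', _, m'.move (by omega), Good.l1 b hg h1 h2 (fun _ _ => by omega),
          vle_z (by omega)⟩
      · refine Or.inl ⟨_, Good.l1 (h.p3L a m hq) hg h1 h2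
          (fun _ _ => m.out (by omega) (by omega)), ?_⟩
        by_cases r : r3 % 2 = 0
        · exact vlf_z (by omega)
        · exact vlf_star (by omega) rfl rfl (by omega)
    · have z3' := zt l3 (r3 - 2)
      exact Or.inl ⟨_, Good.l1 (h.o3R a (by omega) m).2 hg h1 h2 (fun _ _ => by omega),
        vlf_z (by omega)⟩
  · rcases VL_int hu with ⟨t, -, rfl⟩ | ⟨t, rfl⟩
    · obtain ⟨q, Q, m, hq⟩ := h.j1L
      have := m.lt
      have b := h.p1L m hq
      have o : O3 Q l3 r3 := fun c d => m.sub (ho c d) (by omega)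
      by_cases c : l1 + 2 < g - 1
      · exact ⟨Q, _, m.move (by omega), Good.l1 (b.base c a2) hg (by omega) h2 o,
          vle_eq (by omega) rfl rfl (by omega)⟩
      · refine ⟨Q, _, m.move (by omega), Good.d ⟨b.str, b.toNL (by omega),
          open3 (.triv (by omega)) (.triv (by omega))
            fun c d => ⟨fun _ => o c (by omega), fun _ => by omega⟩⟩, ?_⟩
        have z1 := zt (l1 + 2) (g - 1)
        have z2 := zt (g + 1) r2
        simp only [zs_cons, ts_cons, zs_nil, ts_nil]
        exact vle_eq (by omega) rfl rfl (by omega)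
    · have a : l3 < r3 ∧ r3 % 2 = 1 := by omega
      obtain ⟨q, Q, m, hq⟩ := h.j3R a.1
      have := m.lt
      have z3' := zt l3 (r3 - 2)
      exact ⟨Q, _, m.move (by omega), Good.l1 (h.p3R a.1 m hq) hg h1 h2
        (fun _ _ => m.sub (ho a.1 a.2) (by omega)), vle_eq (by omega) rfl rfl (by omega)⟩

end Pool.Agent.MP_914aa3_co.Cl
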