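import Pool.Agent.MP_914aa3_co.Cl.Stm

set_option autoImplicit false

namespace Pool.Agent.MP_914aa3_co.Cl

theorem l2aS : L2aS := by
  intro P g l1 r2 l3 r3 h hg h1 h2 h3 h4
  have a1 := h.a1
  have a2 := h.a2
  have gap := h.gap
  have par := h.par
  have w3 : l3 ≤ r3 + 1 := h.str.wf (l3, r3) (by simp)
  have z3 := zt l3 r3
  have f := fzk ((g - l1) / 2) ((r2 - g) / 2)
  refine ⟨fun Q m => ?_, fun u hu => ?_⟩
  · obtain ⟨q, ⟨m, c⟩ | ⟨m, c⟩ | ⟨m, c⟩ | ⟨m, c⟩ | ⟨a, m, c⟩ | ⟨a, m, c⟩⟩ := h.cases m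
    · omega
    · omega
    · omega
    · obtain rfl := m.one h4
      have b := h.p2R m (by simpa [add_assoc] using h4)
      by_cases d : g + 1 < r2 - 2
      · have f' := fzk ((g - l1) / 2) ((r2 - 2 - g) / 2)
        refine Or.inl ⟨_, Good.l2 (b.base a1 d) hg h1 (by omega)
          (fun _ => m.out (by omega) (by omega)) (fun _ => by omega), vlf_lt ?_⟩
        by_cases e : (g - l1) / 2 < (r2 - g) / 2
        · exact nlt_k (by omega) (by omega)
        · exact nlt_z (by omega) (by omega)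
      · refine Or.inl ⟨_, Good.d ⟨b.str, b.toNL (by omega),
          open3 (.triv (by omega)) (.triv (by omega)) (.triv (by omega))⟩, ?_⟩
        have z1 := zt l1 (g - 1)
        have z2 := zt (g + 1) (r2 - 2)
        simp only [zs_cons, ts_cons, zs_nil, ts_nil]
        exact vlf_lt (nlt_z (by omega) (by omega))
    · omega
    · omega
  · by_cases c : l1 + 2 < g - 1
    · obtain ⟨q, Q, m, hq⟩ := h.j1L
      have := m.lt
      have b := h.p1L m hq
      have f' := fzk ((g - (l1 + 2)) / 2) ((r2 - g) / 2)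
      refine ⟨Q, _, m.move (by omega), Good.l2 (b.base c a2) hg (by omega) h2
        (fun _ => m.sub h4 (by omega)) (fun _ => by omega), ?_⟩
      rcases VL_num hu with ⟨-, k, -, rfl⟩ | ⟨-, k, rfl⟩ | ⟨-, k, -⟩ | ⟨-, k, -⟩ | ⟨k, -⟩
      · by_cases e : (r2 - g) / 2 < (g - (l1 + 2)) / 2
        · exact vle_eq (by omega) (by omega) rfl (by omega)
        · exact vle_lt (nlt_k (by omega) (by omega))
      · exact vle_lt (nlt_k (by omega) (by omega))
      all_goals omega
    · have hu' : u = ⟨zr l3 r3, 0, 0, 0⟩ := by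
        rcases VL_num hu with ⟨-, k, -⟩ | ⟨-, k, rfl⟩ | ⟨-, k, -⟩ | ⟨-, k, -⟩ | ⟨k, -⟩
        · omega
        · exact Val.ext' (by dsimp only; omega) rfl rfl rfl
        all_goals omega
      subst hu'
      by_cases e : (r2 - g) / 2 % 2 = 0
      · obtain ⟨q, Q, m, hq⟩ := h.j1L
        have := m.lt
        have b := h.p1L m hq
        refine ⟨Q, _, m.move (by omega), Good.d ⟨b.str, b.toNL (by omega),
          open3 (.triv (by omega))
            (fun _ _ => ⟨fun _ => by omega, fun _ => m.sub h4 (by omega)⟩) (.triv (by omega))⟩, ?_⟩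
        have z1 := zt (l1 + 2) (g - 1)
        have z2 := zt (g + 1) r2
        simp only [zs_cons, ts_cons, zs_nil, ts_nil]
        exact vle_eq (by omega) rfl rfl (by omega)
      · obtain ⟨Q, m⟩ := h.exL
        obtain ⟨-, s, n⟩ := h.mgL m
        refine ⟨Q, _, m.move (by omega), Good.d ⟨s, n,
          open3 (fun _ _ => ⟨fun _ => by omega, fun _ => m.out (by omega) (by omega)⟩)
            (fun _ _ => ⟨fun _ => by omega, fun _ => m.sub h4 (by omega)⟩) (.triv (by omega))⟩, ?_⟩
        have z1 := zt l1 g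
        have z2 := zt (g + 3) r2
        simp only [zs_cons, ts_cons, zs_nil, ts_nil]
        exact vle_eq (by omega) rfl rfl (by omega)

end Pool.Agent.MP_914aa3_co.Cl
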