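import Pool.Agent.MP_914aa3_co.Cl.Stm

set_option autoImplicit false

namespace Pool.Agent.MP_914aa3_co.Cl

namespace L2b

variable {P Q Q' : Finset ℤ} {e q l3 r3 x a b : ℤ}

theorem lt_f : nlt (fz a b + 0) (fk a b) (fz a (b - 1) + 0) (fk a (b - 1)) := by
  have f1 := fzk a b
  have f2 := fzk a (b - 1)
  by_cases c : b ≤ a
  · exact nlt_z (by omega) (by omega)
  · exact nlt_k (by omega) (by omega)

theorem lt_a (ha : 1 ≤ a) : nlt (fz a 1 + 0) (fk a 1) a 0 := by
  have f1 := fzk a 1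
  exact nlt_z (by omega) (by omega)

/-- after a plain jump from the end `e + 2` -/
theorem g_plain (m : MR P Q (e + 2) q) (hq : q + 1 ∉ P) : G12 Q e l3 r3 := by
  have := m.lt
  have := m.par
  by_cases c : q = e + 3
  · subst c
    exact Or.inr (Or.inr (Or.inl ⟨m.land, m.sub (by simpa [add_assoc] using hq) (by omega)⟩))
  · exact Or.inl ⟨m.out (by omega) (by omega), m.out (by omega) (by omega)⟩

/-- after a stop and the recapture -/
theorem g_back (m : MR P Q (e + 2) q) (h2 : q + 2 ∉ P) (m' : ML Q Q' q (q - 1)) :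
    G12 Q' e l3 r3 := by
  have := m.lt
  have := m.par
  by_cases c : q = e + 3
  · subst c
    exact Or.inr (Or.inl ⟨m'.out (by omega) (by omega),
      m'.sub (m.sub (by simpa [add_assoc] using h2) (by omega)) (by omega)⟩)
  · exact Or.inl ⟨m'.sub (m.out (by omega) (by omega)) (by omega),
      m'.sub (m.out (by omega) (by omega)) (by omega)⟩

/-- after the single jump at the right end of the third run -/
theorem g_r3 (m : MR P Q r3 (r3 + 1)) (gap : e + 3 ≤ l3) (hl : l3 < r3) (hp : (r3 - e) % 2 = 0)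
    (h : G12 P e l3 r3) : G12 Q e l3 (r3 - 2) := by
  have hb := m.b
  rcases h with h | h | h | h | h
  · exact Or.inl ⟨m.sub h.1 (by omega), m.sub h.2 (by omega)⟩
  · have : r3 ≠ e + 4 := fun c => h.1 (c ▸ hb)
    exact Or.inr (Or.inl ⟨m.sub h.1 (by omega), m.sub h.2 (by omega)⟩)
  · have : r3 ≠ e + 4 := fun c => h.2 (c ▸ hb)
    exact Or.inr (Or.inr (Or.inl ⟨(m.same (by omega)).2 h.1, m.sub h.2 (by omega)⟩))
  · by_cases c : r3 = e + 4
    · exact Or.inr (Or.inr (Or.inr (Or.inr ⟨by omega, Or.inr (m.out (by omega) (by omega))⟩)))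
    · exact Or.inr (Or.inr (Or.inr (Or.inl (by omega))))
  · omega

/-- after the longest jump at the left end of the third run -/
theorem g_l3 (m : ML P Q l3 q) (hq : q - 1 ∉ P) (h0 : e + 2 ≤ q) (hl : l3 < r3)
    (hp : (l3 - e) % 2 = 1) (hr : (r3 - e) % 2 = 0) (ht : (r3 - l3 + 1) / 2 % 2 = 1)
    (h : G12 P e l3 r3) : G12 Q e (l3 + 2) r3 := by
  have h1 := m.lt
  have h2 := m.par
  have ha := m.a
  have hb := m.b
  by_cases c1 : q = e + 2
  · by_cases c2 : l3 = e + 3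
    · have i3 : e + 3 ∈ P := c2 ▸ hb
      have i4 : e + 4 ∈ P := by
        have : e + 4 = l3 + 1 := by omega
        exact this ▸ ha
      have : r3 ≤ e + 6 := by
        rcases h with h | h | h | h | h
        exacts [(h.2 i3).elim, (h.1 i4).elim, (h.2 i4).elim, h.2.1, by omega]
      exact Or.inr (Or.inr (Or.inr (Or.inr ⟨by omega, Or.inr (m.out (by omega) (by omega))⟩)))
    · exact Or.inr (Or.inl ⟨m.out (by omega) (by omega), m.out (by omega) (by omega)⟩)
  by_cases c3 : q = e + 4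
  · have o3 : e + 3 ∉ P := by
      have : e + 3 = q - 1 := by omega
      exact this ▸ hq
    have i5 : e + 5 ∈ P := by
      by_cases c : l3 = e + 5
      · exact c ▸ hb
      · exact (m.path _ (by omega) (by omega)).2 (by omega)
    rcases h with h | h | h | h | h
    · exact Or.inl ⟨m.sub h.1 (by omega), m.sub h.2 (by omega)⟩
    · exact (h.2 i5).elim
    · exact (o3 h.1).elim
    · omega
    · omega
  rcases h with h | h | h | h | h
  · exact Or.inl ⟨m.sub h.1 (by omega), m.sub h.2 (by omega)⟩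
  · exact Or.inr (Or.inl ⟨m.sub h.1 (by omega), m.sub h.2 (by omega)⟩)
  · exact Or.inr (Or.inr (Or.inl ⟨(m.same (by omega)).2 h.1, m.sub h.2 (by omega)⟩))
  · omega
  · omega

/-- a jump to the left far to the left of `e` -/
theorem g_far (m : ML P Q x q) (hx : x < e) (h : G12 P e l3 r3) : G12 Q e l3 r3 := by
  have h1 := m.lt
  rcases h with h | h | h | h | ⟨h, h' | h'⟩
  · exact Or.inl ⟨m.sub h.1 (by omega), m.sub h.2 (by omega)⟩
  · exact Or.inr (Or.inl ⟨m.sub h.1 (by omega), m.sub h.2 (by omega)⟩)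
  · exact Or.inr (Or.inr (Or.inl ⟨(m.same (by omega)).2 h.1, m.sub h.2 (by omega)⟩))
  · exact Or.inr (Or.inr (Or.inr (Or.inl h)))
  · exact Or.inr (Or.inr (Or.inr (Or.inr ⟨h, Or.inl (m.sub h' (by omega))⟩)))
  · exact Or.inr (Or.inr (Or.inr (Or.inr ⟨h, Or.inr (m.sub h' (by omega))⟩)))

variable {g l1 r2 : ℤ}

theorem z3 (h2 : (l3 - r2) % 2 = 1) (h : r2 % 2 = 0) (h3 : r3 % 2 = 0) :
    zr l3 r3 = 0 ∧ tr l3 r3 = (r3 - l3 + 1) / 2 := by
  have := zt l3 r3
  omega

theorem o2 (h : Base P g l1 r2 l3 r3) (hg : g % 2 = 0) (h1 : l1 % 2 = 1) (h2 : r2 % 2 = 0)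
    (h3 : r3 % 2 = 0) (m : MR P Q r2 q) {t : ℤ} :
    (∃ w, Good Q w ∧ vlf ⟨fz ((g - l1) / 2) ((r2 - g) / 2) + 0, fk ((g - l1) / 2) ((r2 - g) / 2),
      0, t⟩ w) ∨ ∃ Q' w, Move 0 Q Q' ∧ Good Q' w ∧
      vle ⟨fz ((g - l1) / 2) ((r2 - g) / 2) + 0, fk ((g - l1) / 2) ((r2 - g) / 2), 0, t⟩ w := by
  have a1 := h.a1
  have a2 := h.a2
  have z := (z3 h.par h2 h3).1
  have := m.lt
  have := m.par
  have m2 : MR P Q (r2 - 2 + 2) q := by simpa using m
  by_cases d : g + 1 < r2 - 2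
  · have ea : (r2 - 2 - g) / 2 = (r2 - g) / 2 - 1 := by omega
    by_cases hq : q + 1 ∈ P
    · obtain ⟨o, Q', m', b⟩ := h.s2R m hq
      refine Or.inr ⟨Q', _, m'.move (by omega), Good.l2 (b.base a1 d) hg h1 (by omega)
        (fun _ => by omega) (fun _ _ _ => g_back m2 o m'), vle_lt ?_⟩
      rw [z, ea]
      exact lt_f
    · refine Or.inl ⟨_, Good.l2 ((h.p2R m hq).base a1 d) hg h1 (by omega)
        (fun _ => by omega) (fun _ _ _ => g_plain m2 hq), vlf_lt ?_⟩
      rw [z, ea]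
      exact lt_f
  · have eb : (r2 - g) / 2 = 1 := by omega
    have n : NL Q := (m.nl1 h.nl).nl (Or.inr (Or.inr (Or.inr (Or.inl
      (m.out (by omega) (by omega))))))
    have z1 : zr l1 (g - 1) = (g - l1) / 2 := by have := zt l1 (g - 1); omega
    have z2 : zr (g + 1) (r2 - 2) = 0 := by have := zt (g + 1) (r2 - 2); omega
    have s : ∃ M, Str Q M ∧ zs M = (g - l1) / 2 := by
      rcases m.tri1 h.nl with o | o | o
      · refine ⟨_, (h.p2R m o).str, ?_⟩
        simp only [zs_cons, zs_nil]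
        omega
      · refine ⟨_, Str.pairR (L1 := [(l1, g - 1)]) h.str a2 m o.1 o.2, ?_⟩
        have z4 : zr q (q + 1) = 0 := by have := zt q (q + 1); omega
        simp only [List.cons_append, List.nil_append, zs_cons, zs_nil]
        omega
      · omega
    obtain ⟨M, s, e⟩ := s
    refine Or.inl (crude_lf s n ?_)
    rw [e]
    dsimp only
    rw [eb]
    exact lt_a (by omega)

theorem m_int (h : Base P g l1 r2 l3 r3) (hg : g % 2 = 0) (h1 : l1 % 2 = 1) (h2 : r2 % 2 = 0)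
    (h3 : r3 % 2 = 0) (t : tr l3 r3 % 2 = 0) (c : (r2 - g) / 2 < (g - l1) / 2) :
    ∃ Q w, Move 0 P Q ∧ Good Q w ∧ vle ⟨(g - l1) / 2 - (r2 - g) / 2 + 0 - 1, 0, 0, 0⟩ w := by
  have a1 := h.a1
  have a2 := h.a2
  have z := (z3 h.par h2 h3).1
  obtain ⟨q, Q, m, hq⟩ := h.j1L
  have b := h.p1L m hq
  refine ⟨Q, _, m.move (by omega), Good.l2 (b.base (by omega) a2) hg (by omega) h2
    (fun _ => by omega) (fun _ _ _ => by omega), ?_⟩
  have f' := fzk ((g - (l1 + 2)) / 2) ((r2 - g) / 2)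
  by_cases d : (r2 - g) / 2 + 1 < (g - l1) / 2
  · exact vle_eq (by omega) (by omega) rfl (by omega)
  · exact vle_lt (nlt_k (by omega) (by omega))

theorem m_fr (h : Base P g l1 r2 l3 r3) (hg : g % 2 = 0) (h1 : l1 % 2 = 1) (h2 : r2 % 2 = 0)
    (h3 : r3 % 2 = 0) (hG : l1 = g - 3 → r2 = g + 4 → G12 P r2 l3 r3) (t : tr l3 r3 % 2 = 0)
    (c : (g - l1) / 2 ≤ (r2 - g) / 2) :
    ∃ Q w, Move 0 P Q ∧ Good Q w ∧ vle ⟨0 + 0, 0, 0, 0⟩ w := by
  have a1 := h.a1
  have a2 := h.a2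
  have gap := h.gap
  have par := h.par
  have z := (z3 h.par h2 h3).1
  by_cases d : l1 + 2 < g - 1
  · obtain ⟨q, Q, m, hq⟩ := h.j1L
    have b := (h.p1L m hq).base d a2
    by_cases d' : l1 + 2 = g - 3 ∧ r2 = g + 4
    · rw [d'.1, d'.2] at b
      exact ⟨Q, _, m.move (by omega), Good.l2w b hg h3, vle_eq (by omega) rfl rfl (by omega)⟩
    · refine ⟨Q, _, m.move (by omega), Good.l2 b hg (by omega) h2
        (fun _ => by omega) (fun _ c c' => (d' ⟨c, c'⟩).elim), ?_⟩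
      have f' := fzk ((g - (l1 + 2)) / 2) ((r2 - g) / 2)
      exact vle_lt (nlt_k (by omega) (by omega))
  · by_cases d' : r2 = g + 2
    · obtain ⟨Q, m⟩ := h.exL
      obtain ⟨-, s, n⟩ := h.mgL m
      refine ⟨Q, _, m.move (by omega), Good.d ⟨s, n, open3
        (fun _ _ => ⟨fun _ => by omega, fun _ => m.out (by omega) (by omega)⟩)
        (.triv (by omega))
        fun c _ => ⟨fun _ => by omega, fun _ => m.sub (h.o3 h3 c) (by omega)⟩⟩, ?_⟩
      have z1 : zr l1 g = 0 ∧ tr l1 g = 2 := by have := zt l1 g; omega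
      have z2 : zr (g + 3) r2 = 0 ∧ tr (g + 3) r2 = 0 := by have := zt (g + 3) r2; omega
      simp only [zs_cons, ts_cons, zs_nil, ts_nil]
      exact vle_eq (by omega) rfl rfl (by omega)
    · obtain ⟨q, Q, m, hq⟩ := h.j1L
      have := m.lt
      have b := h.p1L m hq
      have i : g + 1 - 2 ∈ Q := (m.same (by omega)).2 (h.in1 (by omega) (by omega))
      exact ⟨Q, _, m.move (by omega), Good.b (b.str.drop (by omega)) (b.toNL (by omega))
        (by omega) h2 i (by omega) gap (by omega) h3 (b.o3 h3)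
        (fun c => g_far m (by omega) (hG (by omega) (by omega))),
        vle_eq (by omega) rfl rfl (by omega)⟩

end L2b

open L2b in
theorem l2bS : L2bS := by
  intro P g l1 r2 l3 r3 h hg h1 h2 h3 hG
  have gap := h.gap
  have par := h.par
  have z := z3 par h2 h3
  refine ⟨fun Q m => ?_, fun u hu => ?_⟩
  · obtain ⟨q, ⟨m, c⟩ | ⟨m, c⟩ | ⟨m, c⟩ | ⟨m, c⟩ | ⟨a, m, c⟩ | ⟨a, m, c⟩⟩ := h.cases m
    · omega
    · omega
    · omega
    · rw [z.1]
      exact o2 h hg h1 h2 h3 m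
    · omega
    · obtain ⟨rfl, b⟩ := h.o3R a h3 m
      have z' := z3 (r3 := r3 - 2) par h2 (by omega)
      exact Or.inl ⟨_, Good.l2 b hg h1 h2 (fun _ => by omega)
        (fun _ c d => g_r3 m gap a (by omega) (hG c d)), vlf_star (by omega) rfl rfl (by omega)⟩
  · by_cases t : tr l3 r3 % 2 = 0
    · rw [z.1] at hu
      rcases fzk ((g - l1) / 2) ((r2 - g) / 2) with ⟨c, e1, e2⟩ | ⟨c, e1, e2⟩
      · rw [e1, e2] at hu
        rcases VL_int hu with ⟨-, -, rfl⟩ | ⟨t', -⟩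
        exacts [m_int h hg h1 h2 h3 t c, by omega]
      · rw [e1, e2] at hu
        rcases VL_num hu with ⟨-, k, -⟩ | ⟨-, -, rfl⟩ | ⟨-, k, -⟩ | ⟨-, k, -⟩ | ⟨t', -⟩
        exacts [by omega, m_fr h hg h1 h2 h3 hG t c, by omega, by omega, by omega]
    · rcases VL_num hu with ⟨t', -⟩ | ⟨t', -⟩ | ⟨t', -⟩ | ⟨t', -⟩ | ⟨-, rfl⟩
      iterate 4 exact (t t').elim
      have w3 : l3 ≤ r3 + 1 := h.str.wf (l3, r3) (by simp)
      have a : l3 < r3 := by omega
      obtain ⟨q, Q, m, hq⟩ := h.j3L a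
      have z' := z3 (l3 := l3 + 2) (r2 := r2) (by omega) h2 h3
      exact ⟨Q, _, m.move (by omega), Good.l2 (h.p3L a m hq) hg h1 h2 (fun _ => by omega)
        (fun _ c d => g_l3 m hq (h.b3L m) a par (by omega) (by omega) (hG c d)),
        vle_eq (by omega) rfl rfl (by omega)⟩

end Pool.Agent.MP_914aa3_co.Cl
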