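import Pool.Agent.MP_914aa3_co.Cl.Stm

set_option autoImplicit false

namespace Pool.Agent.MP_914aa3_co.Cl

theorem l2pS : L2pS := by
  intro P g l1 r2 l3 r3 h hg h1 h2 ho
  have a1 := h.a1
  have a2 := h.a2
  have gap := h.gap
  have par := h.par
  have w3 : l3 ≤ r3 + 1 := h.str.wf (l3, r3) (by simp)
  have z3 := zt l3 r3
  have f0 := fzk ((r2 - g) / 2) ((g - l1) / 2)
  refine ⟨fun Q m => ?_, fun u hu => ?_⟩
  · obtain ⟨q, ⟨m, c⟩ | ⟨m, c⟩ | ⟨m, c⟩ | ⟨m, c⟩ | ⟨a, m, c⟩ | ⟨a, m, c⟩⟩ := h.cases m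
    · obtain ⟨rfl, b⟩ := h.o1L h1 m
      have o : O3 Q l3 r3 := fun c d => m.sub (ho c d) (by omega)
      by_cases d : l1 + 2 < g - 1
      · have f1 := fzk ((r2 - g) / 2) ((g - (l1 + 2)) / 2)
        refine Or.inl ⟨_, Good.l2' (b.base d a2) hg (by omega) h2 o, vlf_lt ?_⟩
        by_cases e : (g - l1) / 2 ≤ (r2 - g) / 2
        · exact nlt_z (by omega) (by omega)
        · exact nlt_k (by omega) (by omega)
      · refine Or.inl ⟨_, Good.d ⟨b.str, b.toNL (by omega),
          open3 (.triv (by omega)) (.triv (by omega))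
            fun c d => ⟨fun _ => o c (by omega), fun _ => by omega⟩⟩, ?_⟩
        have z1 := zt (l1 + 2) (g - 1)
        have z2 := zt (g + 1) r2
        simp only [zs_cons, ts_cons, zs_nil, ts_nil]
        exact vlf_lt (nlt_z (by omega) (by omega))
    · omega
    · omega
    · omega
    · have := m.lt
      have z3' := zt (l3 + 2) r3
      by_cases hq : q - 1 ∈ P
      · have r : r3 % 2 = 0 := by
          by_contra r
          have o := ho a (by omega)
          obtain rfl := m.one o
          exact o (by simpa [sub_sub] using hq)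
        obtain ⟨-, Q', m', b⟩ := h.s3L a m hq
        have := m.par
        exact Or.inr ⟨Q', _, m'.move (by omega), Good.l2' b hg h1 h2 (fun _ _ => by omega),
          vle_lt (nlt_z (by omega) (by omega))⟩
      · refine Or.inl ⟨_, Good.l2' (h.p3L a m hq) hg h1 h2
          (fun _ _ => m.out (by omega) (by omega)), ?_⟩
        by_cases r : r3 % 2 = 0
        · exact vlf_lt (nlt_z (by omega) (by omega))
        · exact vlf_star (by omega) rfl rfl (by omega)
    · have z3' := zt l3 (r3 - 2)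
      exact Or.inl ⟨_, Good.l2' (h.o3R a (by omega) m).2 hg h1 h2 (fun _ _ => by omega),
        vlf_lt (nlt_z (by omega) (by omega))⟩
  · by_cases a : l3 < r3 ∧ r3 % 2 = 1
    · obtain ⟨q, Q, m, hq⟩ := h.j3R a.1
      have := m.lt
      have z3' := zt l3 (r3 - 2)
      refine ⟨Q, _, m.move (by omega), Good.l2' (h.p3R a.1 m hq) hg h1 h2
        (fun _ _ => m.sub (ho a.1 a.2) (by omega)), ?_⟩
      rcases VL_num hu with ⟨-, k, -, rfl⟩ | ⟨-, k, rfl⟩ | ⟨-, k, -⟩ | ⟨-, k, -⟩ | ⟨t, rfl⟩
      · exact vle_z (by omega)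
      · exact vle_lt (nlt_k (by omega) (by omega))
      · omega
      · omega
      · exact vle_eq (by omega) rfl rfl (by omega)
    · have o : ∀ Q, Op1 Q l3 r3 := fun Q => .triv (by omega)
      by_cases c : g + 1 < r2 - 2
      · obtain ⟨q, Q, m, hq⟩ := h.j2R
        have f1 := fzk ((r2 - 2 - g) / 2) ((g - l1) / 2)
        refine ⟨Q, _, m.move (by omega), Good.l2' ((h.p2R m hq).base a1 c) hg h1 (by omega)
          (fun c d => (a ⟨c, d⟩).elim), ?_⟩
        rcases VL_num hu with ⟨-, k, -, rfl⟩ | ⟨-, k, rfl⟩ | ⟨-, k, -⟩ | ⟨-, k, -⟩ | ⟨t, -⟩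
        · by_cases e : (g - l1) / 2 < (r2 - 2 - g) / 2
          · exact vle_eq (by omega) (by omega) rfl (by omega)
          · exact vle_lt (nlt_k (by omega) (by omega))
        · exact vle_lt (nlt_k (by omega) (by omega))
        · omega
        · omega
        · omega
      · obtain rfl : u = ⟨fz ((r2 - g) / 2) ((g - l1) / 2) + zr l3 r3, 0, 0, 0⟩ := by
          rcases VL_num hu with ⟨-, k, -⟩ | ⟨-, -, e⟩ | ⟨-, k, -⟩ | ⟨-, k, -⟩ | ⟨t, -⟩
          exacts [by omega, e, by omega, by omega, by omega]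
        by_cases e : (g - l1) / 2 % 2 = 0
        · obtain ⟨q, Q, m, hq⟩ := h.j2R
          have b := h.p2R m hq
          refine ⟨Q, _, m.move (by omega), Good.d ⟨b.str, b.toNL (by omega),
            open3 (fun c _ => ⟨fun d => b.o1 d c, fun _ => by omega⟩) (.triv (by omega)) (o Q)⟩, ?_⟩
          have z1 := zt l1 (g - 1)
          have z2 := zt (g + 1) (r2 - 2)
          simp only [zs_cons, ts_cons, zs_nil, ts_nil]
          exact vle_eq (by omega) rfl rfl (by omega)
        · obtain ⟨Q, m⟩ := h.exR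
          obtain ⟨-, s, n⟩ := h.mgR m
          refine ⟨Q, _, m.move (by omega), Good.d ⟨s, n,
            open3 (fun _ _ => ⟨fun d => m.sub (h.o1 d a1) (by omega), fun _ => by omega⟩)
              (fun _ _ => ⟨fun _ => m.out (by omega) (by omega), fun _ => by omega⟩) (o Q)⟩, ?_⟩
          have z1 := zt l1 (g - 3)
          have z2 := zt g r2
          simp only [zs_cons, ts_cons, zs_nil, ts_nil]
          exact vle_eq (by omega) rfl rfl (by omega)

end Pool.Agent.MP_914aa3_co.Cl
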