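import Pool.Agent.MP_914aa3_co.Cl.Stm

set_option autoImplicit false

namespace Pool.Agent.MP_914aa3_co.Cl

theorem l3_vlf {z y t t' : ℤ} (h : z < y ∨ (z = y ∧ (t + t') % 2 = 1)) :
    vlf ⟨z, 0, 0, t⟩ ⟨y, 0, 0, t'⟩ :=
  h.elim vlf_z fun c => vlf_star c.1 rfl rfl c.2

theorem l3S : L3S := by
  intro P g l1 r2 l3 r3 h hg h1 h2 ho hx
  have a1 := h.a1
  have a2 := h.a2
  have gap := h.gap
  have par := h.par
  have w3 : l3 ≤ r3 + 1 := h.str.wf (l3, r3) (by simp)
  have z3 := zt l3 r3
  have g0 := gzt ((g - l1) / 2) ((r2 - g) / 2)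
  refine ⟨fun Q m => ?_, fun u hu => ?_⟩
  · obtain ⟨q, ⟨m, c⟩ | ⟨m, c⟩ | ⟨m, c⟩ | ⟨m, c⟩ | ⟨a, m, c⟩ | ⟨a, m, c⟩⟩ := h.cases m
    · obtain ⟨rfl, b⟩ := h.o1L h1 m
      have o : r2 + 2 ∉ Q := m.sub ho (by omega)
      by_cases d : l1 + 2 < g - 1
      · have g1 := gzt ((g - (l1 + 2)) / 2) ((r2 - g) / 2)
        by_cases e : g - (l1 + 2) = r2 - g ∧ (g - (l1 + 2)) % 4 = 2 ∧ r3 % 2 = 0
        · exact Or.inl ⟨_, Good.w3 (b.base d a2) hg e.1 e.2.1 e.2.2,
            vlf_lt (nlt_k (by omega) (by omega))⟩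
        · exact Or.inl ⟨_, Good.l3 (b.base d a2) hg (by omega) h2 o (fun _ _ _ _ => by omega),
            l3_vlf (by omega)⟩
      · refine Or.inl ⟨_, Good.d ⟨b.str, b.toNL (by omega), open3 (.triv (by omega))
          (fun _ _ => ⟨fun _ => by omega, fun _ => o⟩)
          fun x _ => ⟨fun _ => by omega, fun y => b.o3 y x⟩⟩, ?_⟩
        have z1 := zt (l1 + 2) (g - 1)
        have z2 := zt (g + 1) r2
        simp only [zs_cons, ts_cons, zs_nil, ts_nil]
        exact l3_vlf (by omega)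
    · omega
    · omega
    · obtain rfl := m.one ho
      have b := h.p2R m (by simpa [add_assoc] using ho)
      by_cases d : g + 1 < r2 - 2
      · have g1 := gzt ((g - l1) / 2) ((r2 - 2 - g) / 2)
        by_cases e : g - l1 = r2 - 2 - g ∧ (g - l1) % 4 = 2 ∧ r3 % 2 = 0
        · exact Or.inl ⟨_, Good.w3 (b.base a1 d) hg e.1 e.2.1 e.2.2,
            vlf_lt (nlt_k (by omega) (by omega))⟩
        · exact Or.inl ⟨_, Good.l3 (b.base a1 d) hg h1 (by omega) (m.out (by omega) (by omega))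
            (fun _ _ _ _ => by omega), l3_vlf (by omega)⟩
      · refine Or.inl ⟨_, Good.d ⟨b.str, b.toNL (by omega), open3
          (fun x _ => ⟨fun y => b.o1 y x, fun _ => by omega⟩) (.triv (by omega))
          fun x _ => ⟨fun _ => by omega, fun y => b.o3 y x⟩⟩, ?_⟩
        have z1 := zt l1 (g - 1)
        have z2 := zt (g + 1) (r2 - 2)
        simp only [zs_cons, ts_cons, zs_nil, ts_nil]
        exact l3_vlf (by omega)
    · omega
    · have z3' := zt l3 (r3 - 2)
      have r : r3 % 2 = 0 := by omega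
      obtain ⟨rfl, b⟩ := h.o3R a r m
      exact Or.inl ⟨_, Good.l3 b hg h1 h2 (m.sub ho (by omega))
        (fun x y _ _ => m.sub (hx x y r a) (by omega)), vlf_star (by omega) rfl rfl (by omega)⟩
  · rcases VL_int hu with ⟨t, z, rfl⟩ | ⟨t, rfl⟩
    · have a : l3 < r3 ∧ r3 % 2 = 1 := by omega
      obtain ⟨q, Q, m, hq⟩ := h.j3R a.1
      have := m.lt
      have z3' := zt l3 (r3 - 2)
      exact ⟨Q, _, m.move (by omega), Good.l3 (h.p3R a.1 m hq) hg h1 h2 (m.sub ho (by omega))
        (fun _ _ _ _ => by omega), vle_eq (by omega) rfl rfl (by omega)⟩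
    · by_cases d : g - l1 = r2 - g ∧ (g - l1) % 4 = 2
      · have a : l3 < r3 ∧ r3 % 2 = 0 := by omega
        have o := hx d.1 d.2 a.2 a.1
        obtain ⟨q, Q, m, hq⟩ := h.j3L a.1
        have := m.lt
        have := m.par
        have z3' := zt (l3 + 2) r3
        have n : r2 + 2 ≠ q := by
          intro n
          by_cases e : l3 = r2 + 3
          · exact o (e ▸ m.b)
          · exact o ((m.path _ (by omega) (by omega)).2 (by omega))
        exact ⟨Q, _, m.move (by omega), Good.l3 (h.p3L a.1 m hq) hg h1 h2 (m.sub ho n)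
          (fun _ _ _ _ => m.sub o (by omega)), vle_eq (by omega) rfl rfl (by omega)⟩
      · by_cases e : r2 - g ≤ g - l1
        · obtain ⟨Q, m⟩ := h.exR
          obtain ⟨-, s, n⟩ := h.mgR m
          refine ⟨Q, _, m.move (by omega), Good.d ⟨s, n, open3
            (fun _ _ => ⟨fun y => m.sub (h.o1 y a1) (by omega), fun _ => by omega⟩)
            (.triv (by omega))
            fun x _ => ⟨fun _ => by omega, fun y => m.sub (h.o3 y x) (by omega)⟩⟩, ?_⟩
          have z1 := zt l1 (g - 3)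
          have z2 := zt g r2
          simp only [zs_cons, ts_cons, zs_nil, ts_nil]
          exact vle_eq (by omega) rfl rfl (by omega)
        · obtain ⟨Q, m⟩ := h.exL
          obtain ⟨-, s, n⟩ := h.mgL m
          refine ⟨Q, _, m.move (by omega), Good.d ⟨s, n, open3 (.triv (by omega))
            (fun _ _ => ⟨fun _ => by omega, fun _ => m.sub ho (by omega)⟩)
            fun x _ => ⟨fun _ => by omega, fun y => m.sub (h.o3 y x) (by omega)⟩⟩, ?_⟩
          have z1 := zt l1 g
          have z2 := zt (g + 3) r2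
          simp only [zs_cons, ts_cons, zs_nil, ts_nil]
          exact vle_eq (by omega) rfl rfl (by omega)

end Pool.Agent.MP_914aa3_co.Cl
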