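import Pool.Agent.MP_914aa3_co.Cl.Stm

set_option autoImplicit false

namespace Pool.Agent.MP_914aa3_co.Cl

theorem l5S : L5S := by
  intro P g l1 r2 l3 r3 h hg h1 h2 ho
  have a1 := h.a1
  have a2 := h.a2
  have gap := h.gap
  have par := h.par
  have w3 : l3 ≤ r3 + 1 := h.str.wf (l3, r3) (by simp)
  have z3 := zt l3 r3
  have f0 := fzk ((g - l1) / 2) ((r2 - g) / 2)
  refine ⟨fun Q m => ?_, fun u hu => ?_⟩
  · obtain ⟨q, ⟨m, c⟩ | ⟨m, c⟩ | ⟨m, c⟩ | ⟨m, c⟩ | ⟨a, m, c⟩ | ⟨a, m, c⟩⟩ := h.cases m
    · obtain ⟨hq, b⟩ := h.o1L h1 m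
      have o : O3 Q l3 r3 := fun c d => m.sub (ho c d) (by omega)
      by_cases d : l1 + 2 < g - 1
      · refine Or.inl ⟨_, Good.l5 (b.base d a2) hg (by omega) h2 o, ?_⟩
        have f1 := fzk ((g - (l1 + 2)) / 2) ((r2 - g) / 2)
        clear z3
        by_cases e : (r2 - g) / 2 < (g - l1) / 2
        · exact vlf_lt (nlt_z (by omega) (by omega))
        · exact vlf_lt (nlt_k (by omega) (by omega))
      · refine Or.inl (crude_lf b.str (b.toNL (by omega)) ?_)
        have z1 := zt (l1 + 2) (g - 1)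
        have z2 := zt (g + 1) r2
        clear z3
        simp only [zs_cons, zs_nil]
        exact nlt_k (by omega) (by omega)
    · obtain ⟨-, s, n⟩ := h.mgR m
      refine Or.inl (crude_lf s n ?_)
      have z1 := zt l1 (g - 3)
      have z2 := zt g r2
      clear z3
      simp only [zs_cons, zs_nil]
      exact nlt_z (by omega) (by omega)
    · obtain ⟨-, s, n⟩ := h.mgL m
      refine Or.inl (crude_lf s n ?_)
      have z1 := zt l1 g
      have z2 := zt (g + 3) r2
      clear z3
      simp only [zs_cons, zs_nil]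
      by_cases e : (r2 - g) / 2 < (g - l1) / 2
      · exact nlt_z (by omega) (by omega)
      · exact nlt_k (by omega) (by omega)
    · omega
    · have := m.lt
      have z3' := zt (l3 + 2) r3
      by_cases hq : q - 1 ∈ P
      · have r : r3 % 2 = 0 := by
          by_contra r
          have o := ho a (by omega)
          obtain rfl := m.one o
          exact o (by simpa [sub_sub] using hq)
        obtain ⟨-, Q', m', b⟩ := h.s3L a m hq
        have := m.par
        exact Or.inr ⟨Q', _, m'.move (by omega), Good.l5 b hg h1 h2 (fun _ _ => by omega),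
          vle_lt (nlt_z (by omega) (by omega))⟩
      · refine Or.inl ⟨_, Good.l5 (h.p3L a m hq) hg h1 h2
          (fun _ _ => m.out (by omega) (by omega)), ?_⟩
        by_cases r : r3 % 2 = 0
        · exact vlf_lt (nlt_z (by omega) (by omega))
        · exact vlf_star (by omega) rfl rfl (by omega)
    · have z3' := zt l3 (r3 - 2)
      exact Or.inl ⟨_, Good.l5 (h.o3R a (by omega) m).2 hg h1 h2 (fun _ _ => by omega),
        vlf_lt (nlt_z (by omega) (by omega))⟩
  · by_cases a : l3 < r3 ∧ r3 % 2 = 1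
    · obtain ⟨q, Q, m, hq⟩ := h.j3R a.1
      have := m.lt
      have z3' := zt l3 (r3 - 2)
      refine ⟨Q, _, m.move (by omega), Good.l5 (h.p3R a.1 m hq) hg h1 h2
        (fun _ _ => m.sub (ho a.1 a.2) (by omega)), ?_⟩
      rcases VL_num hu with ⟨-, k, z, rfl⟩ | ⟨-, k, rfl⟩ | ⟨-, k, rfl⟩ | ⟨-, k, rfl⟩ | ⟨t, rfl⟩
      · omega
      · omega
      · exact vle_z (by omega)
      · exact vle_lt (nlt_k (by omega) (by omega))
      · exact vle_eq (by omega) rfl rfl (by omega)
    · obtain ⟨q, Q, m, hq⟩ := h.j2R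
      have := m.lt
      have b := h.p2R m hq
      have t0 : tr l3 r3 = 0 := by omega
      have z0 : zr l3 r3 ≤ 0 := by omega
      clear z3
      by_cases d : g + 1 < r2 - 2
      · refine ⟨Q, _, m.move (by omega), Good.l5 (b.base a1 d) hg h1 (by omega)
          (fun c e => (a ⟨c, e⟩).elim), ?_⟩
        have f1 := fzk ((g - l1) / 2) ((r2 - 2 - g) / 2)
        rcases VL_num hu with ⟨-, k, z, rfl⟩ | ⟨-, k, rfl⟩ | ⟨-, k, rfl⟩ | ⟨-, k, rfl⟩ | ⟨t, rfl⟩
        · omega
        · omega
        · exact vle_eq (by omega) (by omega) rfl (by omega)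
        · exact vle_eq (by omega) (by omega) rfl (by omega)
        · omega
      · refine ⟨Q, _, m.move (by omega), Good.d ⟨b.str, b.toNL (by omega),
          open3 (.triv (by omega)) (.triv (by omega)) (.triv (by omega))⟩, ?_⟩
        have z1 := zt l1 (g - 1)
        have z2 := zt (g + 1) (r2 - 2)
        simp only [zs_cons, ts_cons, zs_nil, ts_nil]
        rcases VL_num hu with ⟨-, k, z, rfl⟩ | ⟨-, k, rfl⟩ | ⟨-, k, rfl⟩ | ⟨-, k, rfl⟩ | ⟨t, rfl⟩
        · omega
        · omega
        · exact vle_eq (by omega) rfl rfl (by omega)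
        · omega
        · omega

end Pool.Agent.MP_914aa3_co.Cl
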