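import Pool.Agent.MP_914aa3_co.Cl.Stm

set_option autoImplicit false

namespace Pool.Agent.MP_914aa3_co.Cl

/-- the number part is below the integer value of the third run -/
theorem below_L5p (a b z y : ℤ) (h : z ≤ y ∨ (a < b ∧ z + a - b < y)) :
    nlt (-fz b a + z) (-fk b a) y 0 := by
  rcases fzk b a with ⟨c, e1, e2⟩ | ⟨c, e1, e2⟩
  · exact nlt_z (by omega) (by omega)
  · rcases eq_or_ne z y with d | d
    · exact nlt_k (by omega) (by omega)
    · exact nlt_z (by omega) (by omega)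

/-- shortening the second run raises the number part -/
theorem short_L5p (a b b' z : ℤ) (h : b' = b - 1) :
    nlt (-fz b a + z) (-fk b a) (-fz b' a + z) (-fk b' a) := by
  have f := fzk b' a
  rcases fzk b a with ⟨c, e1, e2⟩ | ⟨c, e1, e2⟩
  · exact nlt_z (by omega) (by omega)
  · exact nlt_k (by omega) (by omega)

/-- the position after a jump from the right end of the second run -/
theorem after_L5p {Q : Finset ℤ} {g l1 r2 l3 r3 : ℤ} (b : Base0 Q g l1 (r2 - 2) l3 r3)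
    (a1 : l1 < g - 1) (a2 : g + 1 < r2) (hg : g % 2 = 1) (h1 : l1 % 2 = 1) (h2 : r2 % 2 = 0) (t : ℤ) :
    ∃ w, Good Q w ∧
      vle ⟨-fz ((r2 - g) / 2) ((g - l1) / 2) + zr l3 r3, -fk ((r2 - g) / 2) ((g - l1) / 2), 0, t⟩ w ∧
      vlf ⟨-fz ((r2 - g) / 2) ((g - l1) / 2) + zr l3 r3, -fk ((r2 - g) / 2) ((g - l1) / 2), 0, t⟩ w := by
  by_cases c : g + 1 < r2 - 2
  · have n := short_L5p ((g - l1) / 2) ((r2 - g) / 2) ((r2 - 2 - g) / 2) (zr l3 r3) (by omega)
    exact ⟨_, Good.l5' (b.base a1 c) hg h1 (by omega), vle_lt n, vlf_lt n⟩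
  · refine crude b.str (b.toNL (by omega)) (below_L5p _ _ _ _ (Or.inl ?_))
    have z1 := zt l1 (g - 1)
    have z2 := zt (g + 1) (r2 - 2)
    simp only [zs_cons, zs_nil]
    omega

/-- the even player shortens the first run -/
theorem left_L5p {P : Finset ℤ} {g l1 r2 l3 r3 z k : ℤ} (h : Base P g l1 r2 l3 r3) (hg : g % 2 = 1)
    (h1 : l1 % 2 = 1) (h2 : r2 % 2 = 0) (t : tr l3 r3 % 2 = 0)
    (hz : z = -fz ((r2 - g) / 2) ((g - l1) / 2 - 1) + zr l3 r3)
    (hk : k = -fk ((r2 - g) / 2) ((g - l1) / 2 - 1)) :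
    ∃ Q w, Move 0 P Q ∧ Good Q w ∧ vle ⟨z, k, 0, 0⟩ w := by
  have a1 := h.a1
  have a2 := h.a2
  have par := h.par
  obtain ⟨q, Q, m, hq⟩ := h.j1L
  have b := h.p1L m hq
  by_cases c : l1 + 2 < g - 1
  · have e : (g - (l1 + 2)) / 2 = (g - l1) / 2 - 1 := by omega
    exact ⟨Q, _, m.move (by omega), Good.l5' (b.base c a2) hg (by omega) h2,
      vle_eq (by rw [e, hz]) (by rw [e, hk]) rfl (by omega)⟩
  · refine ⟨Q, _, m.move (by omega), Good.d ⟨b.str, b.toNL (by omega),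
      open3 (.triv (by omega)) (.triv (by omega))
        fun c d => ⟨fun _ => by omega, fun e => b.o3 e c⟩⟩, ?_⟩
    have z1 := zt (l1 + 2) (g - 1)
    have z2 := zt (g + 1) r2
    have f := fzk ((r2 - g) / 2) ((g - l1) / 2 - 1)
    simp only [zs_cons, ts_cons, zs_nil, ts_nil]
    exact vle_eq (by omega) (by omega) rfl (by omega)

theorem l5pS : L5pS := by
  intro P g l1 r2 l3 r3 h hg h1 h2
  have a1 := h.a1
  have a2 := h.a2
  have gap := h.gap
  have par := h.par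
  have w3 : l3 ≤ r3 + 1 := h.str.wf (l3, r3) (by simp)
  refine ⟨fun Q m => ?_, fun u hu => ?_⟩
  · obtain ⟨q, ⟨m, c⟩ | ⟨m, c⟩ | ⟨m, c⟩ | ⟨m, c⟩ | ⟨a, m, c⟩ | ⟨a, m, c⟩⟩ := h.cases m
    · omega
    · obtain ⟨-, s, n⟩ := h.mgR m
      refine Or.inl (crude_lf s n (below_L5p _ _ _ _ (Or.inl ?_)))
      have z1 := zt l1 (g - 3)
      have z2 := zt g r2
      simp only [zs_cons, zs_nil]
      omega
    · obtain ⟨-, s, n⟩ := h.mgL m
      refine Or.inl (crude_lf s n (below_L5p _ _ _ _ ?_))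
      have z1 := zt l1 g
      have z2 := zt (g + 3) r2
      simp only [zs_cons, zs_nil]
      omega
    · have := m.par
      by_cases hq : q + 1 ∈ P
      · obtain ⟨-, Q', m', b⟩ := h.s2R m hq
        obtain ⟨w, g1, g2, -⟩ := after_L5p b a1 a2 hg h1 h2 (tr l3 r3)
        exact Or.inr ⟨Q', w, m'.move (by omega), g1, g2⟩
      · obtain ⟨w, g1, -, g2⟩ := after_L5p (h.p2R m hq) a1 a2 hg h1 h2 (tr l3 r3)
        exact Or.inl ⟨w, g1, g2⟩
    · omega
    · have z3 := zt l3 r3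
      have z3' := zt l3 (r3 - 2)
      exact Or.inl ⟨_, Good.l5' (h.o3R a (by omega) m).2 hg h1 h2,
        vlf_star (by omega) rfl rfl (by omega)⟩
  · have f := fzk ((r2 - g) / 2) ((g - l1) / 2)
    have f' := fzk ((r2 - g) / 2) ((g - l1) / 2 - 1)
    rcases VL_num hu with ⟨t, c, -, rfl⟩ | ⟨t, c, rfl⟩ | ⟨t, c, rfl⟩ | ⟨t, c, rfl⟩ | ⟨t, rfl⟩
    · exact left_L5p h hg h1 h2 t (by omega) (by omega)
    · omega
    · exact left_L5p h hg h1 h2 t (by omega) (by omega)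
    · exact left_L5p h hg h1 h2 t (by omega) (by omega)
    · clear f f'
      have z3 := zt l3 r3
      have z3' := zt (l3 + 2) r3
      have a : l3 < r3 := by omega
      obtain ⟨q, Q, m, hq⟩ := h.j3L a
      exact ⟨Q, _, m.move (by omega), Good.l5' (h.p3L a m hq) hg h1 h2,
        vle_eq (by omega) rfl rfl (by omega)⟩

end Pool.Agent.MP_914aa3_co.Cl
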