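import Pool.Agent.MP_914aa3_co.Cl.Stm

set_option autoImplicit false

namespace Pool.Agent.MP_914aa3_co.Cl

theorem l6_vlf {z y t t' : ℤ} (h : z < y ∨ (z = y ∧ (t + t') % 2 = 1)) :
    vlf ⟨z, 0, 0, t⟩ ⟨y, 0, 0, t'⟩ :=
  h.elim vlf_z fun c => vlf_star c.1 rfl rfl c.2

theorem l6_vle {z y t t' : ℤ} (h : z < y ∨ (z = y ∧ (t + t') % 2 = 0)) :
    vle ⟨z, 0, 0, t⟩ ⟨y, 0, 0, t'⟩ :=
  h.elim vle_z fun c => vle_eq c.1 rfl rfl c.2

theorem l6S : L6S := by
  intro P g l1 r2 l3 r3 h hg h1 h2 ho
  have a1 := h.a1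
  have a2 := h.a2
  have gap := h.gap
  have par := h.par
  have w3 : l3 ≤ r3 + 1 := h.str.wf (l3, r3) (by simp)
  have z3 := zt l3 r3
  have g0 := gzt ((g - l1) / 2) ((r2 - g) / 2)
  refine ⟨fun Q m => ?_, fun u hu => ?_⟩
  · obtain ⟨q, ⟨m, c⟩ | ⟨m, c⟩ | ⟨m, c⟩ | ⟨m, c⟩ | ⟨a, m, c⟩ | ⟨a, m, c⟩⟩ := h.cases m
    · omega
    · obtain ⟨e, s, n⟩ := h.mgR m
      refine Or.inl ⟨_, Good.d ⟨s, n, open3
        (fun _ _ => ⟨fun _ => by omega, fun _ => m.out (by omega) (by omega)⟩) (.triv (by omega))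
        fun x _ => ⟨fun _ => m.sub (ho x (by omega)) (by omega), fun _ => by omega⟩⟩, ?_⟩
      have z1 := zt l1 (g - 3)
      have z2 := zt g r2
      simp only [zs_cons, ts_cons, zs_nil, ts_nil]
      exact l6_vlf (by omega)
    · obtain ⟨e, s, n⟩ := h.mgL m
      refine Or.inl ⟨_, Good.d ⟨s, n, open3 (.triv (by omega))
        (fun _ _ => ⟨fun _ => m.out (by omega) (by omega), fun _ => by omega⟩)
        fun x _ => ⟨fun _ => m.sub (ho x (by omega)) (by omega), fun _ => by omega⟩⟩, ?_⟩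
      have z1 := zt l1 g
      have z2 := zt (g + 3) r2
      simp only [zs_cons, ts_cons, zs_nil, ts_nil]
      exact l6_vlf (by omega)
    · omega
    · have := m.lt
      have z3' := zt (l3 + 2) r3
      by_cases hq : q - 1 ∈ P
      · have r : r3 % 2 = 0 := by
          by_contra r
          have o := ho a (by omega)
          obtain rfl := m.one o
          exact o (by simpa [sub_sub] using hq)
        obtain ⟨-, Q', m', b⟩ := h.s3L a m hq
        have := m.par
        clear g0
        exact Or.inr ⟨Q', _, m'.move (by omega), Good.l6 b hg h1 h2 (fun _ _ => by omega),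
          vle_z (by omega)⟩
      · clear g0
        refine Or.inl ⟨_, Good.l6 (h.p3L a m hq) hg h1 h2
          (fun _ _ => m.out (by omega) (by omega)), ?_⟩
        by_cases r : r3 % 2 = 0
        · exact vlf_z (by omega)
        · exact vlf_star (by omega) rfl rfl (by omega)
    · have z3' := zt l3 (r3 - 2)
      clear g0
      exact Or.inl ⟨_, Good.l6 (h.o3R a (by omega) m).2 hg h1 h2 (fun _ _ => by omega),
        vlf_z (by omega)⟩
  · rcases VL_int hu with ⟨t, -, rfl⟩ | ⟨t, rfl⟩
    · obtain ⟨q, Q, m, hq⟩ := h.j1L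
      have := m.lt
      have b := h.p1L m hq
      have o : O3 Q l3 r3 := fun c d => m.sub (ho c d) (by omega)
      by_cases c : l1 + 2 < g - 1
      · have g1 := gzt ((g - (l1 + 2)) / 2) ((r2 - g) / 2)
        clear z3
        exact ⟨Q, _, m.move (by omega), Good.l6 (b.base c a2) hg (by omega) h2 o,
          l6_vle (by omega)⟩
      · refine ⟨Q, _, m.move (by omega), Good.d ⟨b.str, b.toNL (by omega),
          open3 (.triv (by omega))
            (fun _ _ => ⟨fun _ => m.out (by omega) (by omega), fun _ => by omega⟩)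
            fun c d => ⟨fun _ => o c (by omega), fun _ => by omega⟩⟩, ?_⟩
        have z1 := zt (l1 + 2) (g - 1)
        have z2 := zt (g + 1) r2
        simp only [zs_cons, ts_cons, zs_nil, ts_nil]
        clear z3
        exact l6_vle (by omega)
    · by_cases a : l3 < r3 ∧ r3 % 2 = 1
      · obtain ⟨q, Q, m, hq⟩ := h.j3R a.1
        have := m.lt
        have z3' := zt l3 (r3 - 2)
        clear g0
        exact ⟨Q, _, m.move (by omega), Good.l6 (h.p3R a.1 m hq) hg h1 h2
          (fun _ _ => m.sub (ho a.1 a.2) (by omega)), vle_eq (by omega) rfl rfl (by omega)⟩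
      · have t3 : tr l3 r3 = 0 := by omega
        clear z3
        by_cases e : r2 - g ≤ g - l1
        · obtain ⟨q, Q, m, hq⟩ := h.j1L
          have g1 := gzt ((g - (l1 + 2)) / 2) ((r2 - g) / 2)
          exact ⟨Q, _, m.move (by omega), Good.l6 ((h.p1L m hq).base (by omega) a2) hg (by omega) h2
            (fun x y => (a ⟨x, y⟩).elim), vle_eq (by omega) rfl rfl (by omega)⟩
        · obtain ⟨q, Q, m, hq⟩ := h.j2R
          have g1 := gzt ((g - l1) / 2) ((r2 - 2 - g) / 2)
          exact ⟨Q, _, m.move (by omega), Good.l6 ((h.p2R m hq).base a1 (by omega)) hg h1 (by omega)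
            (fun x y => (a ⟨x, y⟩).elim), vle_eq (by omega) rfl rfl (by omega)⟩

end Pool.Agent.MP_914aa3_co.Cl
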