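import Pool.Agent.MP_914aa3_co.Cl.Stm

set_option autoImplicit false

namespace Pool.Agent.MP_914aa3_co.Cl

/-- the moves of the odd player at the first two runs -/
theorem n01_odd {P Q : Finset ℤ} {g l3 r3 k : ℤ} (h : Base P g (g - 3) (g + 4) l3 r3)
    (hg : g % 2 = 1) (h3 : r3 % 2 = 1) (hk : k < 0) (m : Move 1 P Q) :
    (∃ w, Good Q w ∧ vlf ⟨0, k, 0, 0⟩ w) ∨ ∃ q, ML P Q l3 q := by
  have par := h.par
  have z3 := zt l3 r3
  obtain ⟨q, ⟨m, c⟩ | ⟨m, c⟩ | ⟨m, c⟩ | ⟨m, c⟩ | ⟨a, m, c⟩ | ⟨a, m, c⟩⟩ := h.cases m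
  · have b := (h.o1L (by omega) m).2
    have z1 := zt (g - 3 + 2) (g - 1)
    have z2 := zt (g + 1) (g + 4)
    refine Or.inl (crude_lf b.str (b.toNL (by omega)) ?_)
    simp only [zs_cons, zs_nil]
    exact nlt_k (by omega) (by omega)
  · obtain ⟨-, s, n⟩ := h.mgR m
    have z1 := zt (g - 3) (g - 3)
    have z2 := zt g (g + 4)
    refine Or.inl (crude_lf s n ?_)
    simp only [zs_cons, zs_nil]
    exact nlt_z (by omega) (by omega)
  · obtain ⟨-, s, n⟩ := h.mgL m
    have z1 := zt (g - 3) g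
    have z2 := zt (g + 3) (g + 4)
    refine Or.inl (crude_lf s n ?_)
    simp only [zs_cons, zs_nil]
    exact nlt_k (by omega) (by omega)
  · omega
  · exact Or.inr ⟨q, m⟩
  · omega

theorem n0S : N0S := by
  intro P g r3 h hg h3 hr
  have a : g + 7 < r3 := by omega
  have o : g + 7 - 2 ∉ P := by
    rw [show g + 7 - 2 = g + 4 + 1 by ring]
    exact h.out2
  refine ⟨fun Q m => ?_, fun u hu => ?_⟩
  · rcases n01_odd h hg h3 (by omega : (-2 : ℤ) < 0) m with c | ⟨q, m⟩
    · exact Or.inl c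
    · obtain rfl := m.one o
      have b := h.p3L a m (by rw [show g + 7 - 1 - 1 = g + 7 - 2 by ring]; exact o)
      rw [show g + 7 + 2 = g + 9 by ring] at b
      have c := m.land
      rw [show g + 7 - 1 = g + 6 by ring] at c
      exact Or.inl ⟨_, Good.n1 b hg h3 (m.out (by omega) (by omega)) c hr,
        vlf_lt (nlt_k rfl (by omega))⟩
  · obtain rfl : u = ⟨0, -2 + 1, 0, 0⟩ := by
      rcases VL_num hu with c | c | c | c | c
      exacts [by omega, by omega, by omega, c.2.2, by omega]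
    obtain ⟨q, Q, m, hq⟩ := h.j3R a
    have := m.lt
    have z3 := zt (g + 7) (r3 - 2)
    have f := fzk ((g - (g - 3)) / 2) ((g + 4 - g) / 2)
    exact ⟨Q, _, m.move (by omega), Good.l5 (h.p3R a m hq) hg (by omega) (by omega)
      (fun _ _ => m.sub o (by omega)), vle_lt (nlt_k (by omega) (by omega))⟩

theorem n1S : N1S := by
  intro P g r3 h hg h3 h7 h6 hr
  have a : g + 9 < r3 := by omega
  have o : g + 9 - 2 ∉ P := by
    rw [show g + 9 - 2 = g + 7 by ring]
    exact h7
  refine ⟨fun Q m => ?_, fun u hu => ?_⟩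
  · rcases n01_odd h hg h3 (by omega : (-3 : ℤ) < 0) m with c | ⟨q, m⟩
    · exact Or.inl c
    · obtain rfl := m.one o
      have b := h.p3L a m (by rw [show g + 9 - 1 - 1 = g + 9 - 2 by ring]; exact o)
      have c := m.land
      rw [show g + 9 - 1 = g + 8 by ring] at c
      exact Or.inl ⟨_, Good.n2 b hg h3 (fun _ _ => m.out (by omega) (by omega))
        ((m.same (by omega)).2 h6) c (by omega), vlf_lt (nlt_k rfl (by omega))⟩
  · obtain rfl : u = ⟨0, -3 + 1, 0, 0⟩ := by
      rcases VL_num hu with c | c | c | c | c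
      exacts [by omega, by omega, by omega, c.2.2, by omega]
    obtain ⟨q, Q, m, hq⟩ := h.j3R a
    have := m.lt
    have b := h.p3R a m hq
    by_cases c : g + 10 ≤ r3 - 2
    · exact ⟨Q, _, m.move (by omega), Good.n1 b hg (by omega) (m.sub h7 (by omega))
        ((m.same (by omega)).2 h6) c, vle_lt (nlt_k rfl (by omega))⟩
    · have z3 := zt (g + 9) (r3 - 2)
      have f := fzk ((g - (g - 3)) / 2) ((g + 4 - g) / 2)
      exact ⟨Q, _, m.move (by omega), Good.l5 b hg (by omega) (by omega) (fun _ _ => by omega),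
        vle_eq (by omega) (by omega) rfl (by omega)⟩

end Pool.Agent.MP_914aa3_co.Cl
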