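import Pool.Agent.MP_914aa3_co.Cl.Stm

set_option autoImplicit false

namespace Pool.Agent.MP_914aa3_co.Cl

theorem n2S : N2S := by
  intro P g l3 r3 h hg hr ho h6 h8 hl
  have par := h.par
  have w3 : l3 ≤ r3 + 1 := h.str.wf (l3, r3) (by simp)
  have z3 := zt l3 r3
  have h7 : g + 7 ∉ P := fun c => by
    have := (h.str.adj (g + 6)).1 ⟨h6, by simpa [add_assoc] using c⟩
    simp only [List.mem_cons, List.not_mem_nil, or_false, exists_eq_or_imp, exists_eq_left] at this
    omega
  refine ⟨fun Q m => ?_, fun u hu => ?_⟩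
  · obtain ⟨q, ⟨m, c⟩ | ⟨m, c⟩ | ⟨m, c⟩ | ⟨m, c⟩ | ⟨a, m, c⟩ | ⟨a, m, c⟩⟩ := h.cases m
    · obtain ⟨rfl, b⟩ := h.o1L (by omega) m
      have s := b.str.drop (by omega)
      have n := b.toNL (by omega)
      obtain ⟨Q', m'⟩ := s.oneR (l := g + 1) (r := g + 4) (by simp) (by omega)
      have s' := s.pairR0 (by omega) m'
        ((m.same (by omega)).2 (by rw [show g + 4 + 1 + 1 = g + 6 by ring]; exact h6))
        (m.sub (by rw [show g + 4 + 1 + 2 = g + 7 by ring]; exact h7) (by omega))
      have s'' : Str Q' [(g + 2 - 1, g + 2), (g + 2 + 3, g + 2 + 4), (l3, r3)] := by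
        rw [show g + 2 - 1 = g + 1 by ring, show g + 2 + 3 = g + 4 + 1 by ring,
          show g + 2 + 4 = g + 4 + 1 + 1 by ring, show g + 2 = g + 4 - 2 by ring]
        exact s'.perm (List.Perm.swap _ _ _)
      refine Or.inr ⟨Q', _, m'.move (by omega), Good.z s'' (m'.nl n) (by omega) ?_ ?_ ?_ ?_
        (by omega) (by omega) hr (fun c => ?_), vle_eq rfl rfl rfl (by omega)⟩
      · exact (m'.same (by omega)).2 ((m.same (by omega)).2 (h.in1 (by omega) (by omega)))
      · exact m'.sub (m.out (by omega) (by omega)) (by omega)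
      · exact (m'.same (by omega)).2 ((m.same (by omega)).2
          (by rw [show g + 2 + 6 = g + 8 by ring]; exact h8))
      · exact m'.out (by omega) (by omega)
      · exact m'.sub (m.sub (ho c hr) (by omega)) (by omega)
    · obtain ⟨rfl, s, n⟩ := h.mgR m
      refine Or.inl ⟨_, Good.d ⟨s, n, open3 (.triv (by omega)) (.triv (by omega))
        fun c _ => ⟨fun _ => m.sub (ho c hr) (by omega), fun _ => by omega⟩⟩, ?_⟩
      have z1 := zt (q - 3) (q - 3)
      have z2 := zt q (q + 4)
      simp only [zs_cons, ts_cons, zs_nil, ts_nil]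
      exact vlf_z (by omega)
    · obtain ⟨rfl, s, n⟩ := h.mgL m
      refine Or.inl ⟨_, Good.d ⟨s, n, open3
        (fun _ _ => ⟨fun d => m.sub (h.o1 d h.a1) (by omega), fun _ => by omega⟩)
        (fun _ _ => ⟨fun _ => m.out (by omega) (by omega), fun _ => by omega⟩)
        fun c _ => ⟨fun _ => m.sub (ho c hr) (by omega), fun _ => by omega⟩⟩, ?_⟩
      have z1 := zt (q - 3) q
      have z2 := zt (q + 3) (q + 4)
      simp only [zs_cons, ts_cons, zs_nil, ts_nil]
      exact vlf_star (by omega) rfl rfl (by omega)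
    · omega
    · have o := ho a hr
      obtain rfl := m.one o
      have z3' := zt (l3 + 2) r3
      exact Or.inl ⟨_, Good.n2 (h.p3L a m (by simpa [sub_sub] using o)) hg hr
        (fun _ _ => m.out (by omega) (by omega)) ((m.same (by omega)).2 h6)
        ((m.same (by omega)).2 h8) (by omega), vlf_star rfl rfl rfl (by omega)⟩
    · omega
  · rcases VL_int hu with ⟨-, t, -⟩ | ⟨t, rfl⟩
    · omega
    · have a : l3 < r3 := by omega
      obtain ⟨q, Q, m, hq⟩ := h.j3R a
      have := m.lt
      have z3' := zt l3 (r3 - 2)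
      exact ⟨Q, _, m.move (by omega), Good.n2 (h.p3R a m hq) hg (by omega)
        (fun _ _ => m.sub (ho a hr) (by omega)) ((m.same (by omega)).2 h6)
        ((m.same (by omega)).2 h8) hl, vle_eq rfl rfl rfl (by omega)⟩

end Pool.Agent.MP_914aa3_co.Cl
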