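import Pool.Agent.MP_914aa3_co.Cl.Stm

set_option autoImplicit false

namespace Pool.Agent.MP_914aa3_co.Cl

theorem uaS : UaS := by
  intro P l2 r2 l3 r3 h hn a h1 h2 i2 o4 gap h3 ho
  have z3 := zt l3 r3
  refine ⟨fun Q m => Or.inl ?_, fun u hu => ?_⟩
  · obtain ⟨q, ⟨-, m, c⟩ | ⟨-, m, c⟩ | ⟨a3, m, c⟩ | ⟨a3, m, c⟩⟩ := h.cases2 m
    · have := m.lt
      have := m.par
      have z2 := zt (l2 + 2) r2
      have p2 : Op1 Q (l2 + 2) r2 := fun _ _ =>
        ⟨fun _ => m.out (by omega) (by omega), fun _ => by omega⟩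
      have p3 : Op1 Q l3 r3 := fun c d =>
        ⟨fun _ => m.sub (ho c (by omega)).1 (by omega), fun _ => by omega⟩
      rcases m.tri hn with c | c
      · refine ⟨_, Good.d ⟨h.plainL0 a m c, m.nl hn, open2 p2 p3⟩, ?_⟩
        simp only [zs_cons, ts_cons, zs_nil, ts_nil]
        exact vlf_up (by omega) rfl (by omega)
      · have hq : l2 - 4 < q := by
          by_contra d
          exact o4 ((m.path _ (by omega) (by omega)).2 (by omega))
        have hq' : q ≠ l2 - 3 := fun d => o4 (by rw [show l2 - 4 = q - 1 by omega]; exact c.1)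
        have z1 := zt (q - 1) q
        refine ⟨_, Good.d ⟨h.pairL0 a m c.1 c.2, m.nl hn, open3 (fun _ _ => ⟨fun _ => ?_,
          fun _ => by omega⟩) p2 p3⟩, ?_⟩
        · rw [show q - 1 - 2 = l2 - 4 by omega]
          exact m.sub o4 (by omega)
        · simp only [zs_cons, ts_cons, zs_nil, ts_nil]
          exact vlf_up (by omega) rfl (by omega)
    · omega
    · have z3' := zt (l3 + 2) r3
      by_cases r : r3 % 2 = 1
      · obtain ⟨o1, o2, o3⟩ := ho a3 r
        obtain rfl := m.one o1
        exact ⟨_, Good.ua (Str.plainL (L1 := [(l2, r2)]) h a3 m (by simpa [sub_sub] using o1))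
          (m.nl hn) a h1 h2 ((m.same (by omega)).2 i2) (m.sub o4 (by omega)) (by omega) (by omega)
          (fun _ _ => ⟨m.out (by omega) (by omega), by omega, m.sub o3 (by omega)⟩),
          vlf_star (by omega) rfl rfl (by omega)⟩
      · obtain ⟨M, s, e⟩ := Str.anyL (L1 := [(l2, r2)]) h hn a3 m
        have z2 := zt l2 r2
        simp only [zs_cons, zs_nil] at e
        exact crude_lf s (m.nl hn) (nlt_z (by dsimp only; omega) (Or.inl (by simp)))
    · obtain ⟨M, s, e⟩ := Str.anyR (L1 := [(l2, r2)]) h hn a3 m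
      have z2 := zt l2 r2
      have z3' := zt l3 (r3 - 2)
      simp only [zs_cons, zs_nil] at e
      exact crude_lf s (m.nl hn) (nlt_z (by dsimp only; omega) (Or.inl (by simp)))
  · obtain rfl := VL_dn (by omega) hu
    obtain ⟨q, Q, m, hq⟩ := h.jumpR' hn List.mem_cons_self a
    have := m.lt
    have s := h.plainR0 a m hq
    have p3 : l3 < r3 → r3 % 2 = 1 → l3 - 2 ∉ Q := fun c d => by
      obtain ⟨o1, o2, o3⟩ := ho c d
      have := m.one o3
      exact m.sub o1 (by omega)
    by_cases c : l2 < r2 - 2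
    · exact ⟨Q, _, m.move (by omega), Good.ua s (m.nl hn) c h1 (by omega)
        ((m.same (by omega)).2 i2) (m.sub o4 (by omega)) (by omega) h3
        (fun c d => ⟨p3 c d, by omega, m.out (by omega) (by omega)⟩),
        vle_eq rfl rfl (by omega) (by omega)⟩
    · refine ⟨Q, _, m.move (by omega), Good.d ⟨s, m.nl hn, open2 (.triv (by omega))
        fun c d => ⟨fun _ => p3 c (by omega), fun _ => by omega⟩⟩, ?_⟩
      have z2 := zt l2 (r2 - 2)
      simp only [zs_cons, ts_cons, zs_nil, ts_nil]
      exact vle_eq (by omega) rfl (by omega) (by omega)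

end Pool.Agent.MP_914aa3_co.Cl
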