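import Pool.Agent.MP_914aa3_co.Cl.Stm

set_option autoImplicit false

namespace Pool.Agent.MP_914aa3_co.Cl

theorem ubS : UbS := by
  intro P l r l3 r3 h nl lt h1 h2 i2 o4 gap h3 o3
  have z3 := zt l3 r3
  refine ⟨fun Q m => ?_, fun u hu => ?_⟩
  · obtain ⟨q, ⟨-, m, c⟩ | ⟨-, m, c⟩ | ⟨a, m, c⟩ | ⟨a, m, c⟩⟩ := h.cases2 m
    · omega
    · have := m.lt
      have := m.par
      have hq : q ≤ r + 3 := by
        by_contra d
        exact o4 ((m.path (r + 4) (by omega) (by omega)).2 (by omega))
      have z1 := zt l (r - 2)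
      have p1 : Op1 Q l (r - 2) := fun _ _ =>
        ⟨fun _ => by omega, fun _ => m.out (by omega) (by omega)⟩
      have p3 : Op1 Q l3 r3 := fun a _ =>
        ⟨fun _ => by omega, fun b => m.sub (o3 a b) (by omega)⟩
      rcases m.tri nl with d | ⟨d1, d2⟩
      · refine Or.inl ⟨_, Good.d ⟨h.plainR0 lt m d, m.nl nl, open2 p1 p3⟩, ?_⟩
        simp only [zs_cons, ts_cons, zs_nil, ts_nil]
        exact vlf_up (by omega) rfl (by omega)
      · have e : q = r + 1 := by
          by_contra e
          obtain rfl : q = r + 3 := by omega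
          exact o4 (by simpa [add_assoc] using d1)
        have z0 := zt q (q + 1)
        have p0 : Op1 Q q (q + 1) := fun _ _ =>
          ⟨fun _ => by omega, fun _ => m.sub (by rwa [show q + 1 + 2 = r + 4 by omega]) (by omega)⟩
        refine Or.inl ⟨_, Good.d ⟨h.pairR0 lt m d1 d2, m.nl nl, open3 p0 p1 p3⟩, ?_⟩
        simp only [zs_cons, ts_cons, zs_nil, ts_nil]
        exact vlf_up (by omega) rfl (by omega)
    · omega
    · have b := o3 a (by omega)
      obtain rfl := m.one b
      have z3' := zt l3 (r3 - 2)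
      have s := Str.plainR (L1 := [(l, r)]) (L2 := []) h a m (by simpa [add_assoc] using b)
      exact Or.inl ⟨_, Good.ub s (m.nl nl) lt h1 h2 ((m.same (by omega)).2 i2)
        (m.sub o4 (by omega)) gap h3 (fun _ _ => m.out (by omega) (by omega)),
        vlf_star (by omega) rfl rfl (by omega)⟩
  · obtain rfl := VL_dn (by omega) hu
    obtain ⟨q, Q, m, hq⟩ := h.jumpL' nl (l := l) (r := r) (by simp) lt
    have := m.lt
    have s := h.plainL0 lt m hq
    have p3 : l3 < r3 → r3 % 2 = 0 → r3 + 2 ∉ Q := fun a b => m.sub (o3 a b) (by omega)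
    by_cases c : l + 2 < r
    · exact ⟨Q, _, m.move (by omega), Good.ub s (m.nl nl) c (by omega) h2
        ((m.same (by omega)).2 i2) (m.sub o4 (by omega)) gap h3 p3,
        vle_eq rfl rfl (by omega) (by omega)⟩
    · refine ⟨Q, _, m.move (by omega), Good.d ⟨s, m.nl nl, open2 (.triv (by omega))
        fun a _ => ⟨fun _ => by omega, p3 a⟩⟩, ?_⟩
      have z1 := zt (l + 2) r
      simp only [zs_cons, ts_cons, zs_nil, ts_nil]
      exact vle_eq (by omega) rfl (by omega) (by omega)

end Pool.Agent.MP_914aa3_co.Cl
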