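import Pool.Agent.MP_914aa3_co.Cl.Stm

set_option autoImplicit false

namespace Pool.Agent.MP_914aa3_co.Cl

section
variable {P : Finset ℤ} {L : List (ℤ × ℤ)} {l r : ℤ}

theorem markR_Up (h : Dm P L) (hm : (l, r) ∈ L) (hl : l < r) (c : r + 2 ∈ P) : r + 3 ∉ P := by
  obtain ⟨Q, m⟩ := h.str.oneR hm hl
  rcases m.tri h.nl with d | d
  · exact (d (by simpa [add_assoc] using c)).elim
  · simpa [add_assoc] using d.2

theorem markL_Up (h : Dm P L) (hm : (l, r) ∈ L) (hl : l < r) (c : l - 2 ∈ P) : l - 3 ∉ P := by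
  obtain ⟨Q, m⟩ := h.str.oneL hm hl
  rcases m.tri h.nl with d | d
  · exact (d (by simpa [sub_sub] using c)).elim
  · simpa [sub_sub] using d.2

/-- the even player stops next to the mark -/
theorem stop_Up (h : Dm P L) (hm : (l, r) ∈ L) (hl : l < r) (hp : l % 2 ≠ r % 2)
    (hk : (l % 2 = 1 ∧ l - 2 ∈ P) ∨ (r % 2 = 1 ∧ r + 2 ∈ P)) :
    ∃ Q M, Move 0 P Q ∧ Dm Q M ∧ zs M = zs L ∧ ts M = ts L := by
  have o := h.op l r hm hl hp
  obtain ⟨L1, L2, rfl⟩ := List.append_of_mem hm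
  rcases hk with ⟨c, k⟩ | ⟨c, k⟩
  · have k' := markL_Up h hm hl k
    obtain ⟨Q, m⟩ := h.str.oneL hm hl
    refine ⟨Q, _, m.move (by omega), ⟨h.str.pairL hl m (by simpa [sub_sub] using k)
      (by simpa [sub_sub] using k'), m.nl h.nl, fun a b hab hlt hq => ?_⟩,
      by simp only [zs_app, zs_cons, zr]; omega, by simp only [ts_app, ts_cons, tr]; omega⟩
    have : (a = l - 1 - 1 ∧ b = l - 1) ∨ (a = l + 2 ∧ b = r) ∨ (a, b) ∈ L1 ++ (l, r) :: L2 := by
      simp only [List.mem_append, List.mem_cons, Prod.mk.injEq] at hab ⊢; tauto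
    rcases this with ⟨rfl, rfl⟩ | ⟨rfl, rfl⟩ | d
    · exact ⟨fun d => by omega, fun d => m.out (by omega) (by omega)⟩
    · exact ⟨fun d => by omega, fun d => m.sub (o.2 d) (by omega)⟩
    · have o' := h.op a b d hlt hq
      have b1 : b ≠ l - 3 := fun e => k' (e ▸ h.str.mem_run d hlt hlt.le le_rfl)
      have b2 : a - 1 ≠ l := fun e => h.str.out_l d hlt (e ▸ m.b)
      exact ⟨fun d => m.sub (o'.1 d) (by omega), fun d => m.sub (o'.2 d) (by omega)⟩
  · have k' := markR_Up h hm hl k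
    obtain ⟨Q, m⟩ := h.str.oneR hm hl
    refine ⟨Q, _, m.move (by omega), ⟨h.str.pairR hl m (by simpa [add_assoc] using k)
      (by simpa [add_assoc] using k'), m.nl h.nl, fun a b hab hlt hq => ?_⟩,
      by simp only [zs_app, zs_cons, zr]; omega, by simp only [ts_app, ts_cons, tr]; omega⟩
    have : (a = r + 1 ∧ b = r + 1 + 1) ∨ (a = l ∧ b = r - 2) ∨ (a, b) ∈ L1 ++ (l, r) :: L2 := by
      simp only [List.mem_append, List.mem_cons, Prod.mk.injEq] at hab ⊢; tauto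
    rcases this with ⟨rfl, rfl⟩ | ⟨rfl, rfl⟩ | d
    · exact ⟨fun d => m.out (by omega) (by omega), fun d => by omega⟩
    · exact ⟨fun d => m.sub (o.1 d) (by omega), fun d => by omega⟩
    · have o' := h.op a b d hlt hq
      have b1 : a ≠ r + 3 := fun e => k' (e ▸ h.str.mem_run d hlt le_rfl hlt.le)
      have b2 : b + 1 ≠ r := fun e => h.str.out_r d hlt (e ▸ m.b)
      exact ⟨fun d => m.sub (o'.1 d) (by omega), fun d => m.sub (o'.2 d) (by omega)⟩

theorem mix_Up {a b : ℤ} (h : a % 2 ≠ b % 2) : zr a b = 0 ∧ tr a b = (b - a + 1) / 2 := by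
  have := zt a b
  omega

theorem keep_Up {L1 L2 : List (ℤ × ℤ)} {a b : ℤ} (R : ℤ × ℤ) (hm : (l, r) ∈ L1 ++ (a, b) :: L2)
    (e : ¬ (l = a ∧ r = b)) : (l, r) ∈ L1 ++ R :: L2 := by
  simp only [List.mem_append, List.mem_cons, Prod.mk.injEq] at hm ⊢
  tauto

theorem oR_Up {Q : Finset ℤ} {a b q : ℤ} (h : Dm P L) (hm : (l, r) ∈ L) (hl : l < r)
    (hp : l % 2 ≠ r % 2) (hk : (l % 2 = 1 ∧ l - 2 ∈ P) ∨ (r % 2 = 1 ∧ r + 2 ∈ P))
    (hab : (a, b) ∈ L) (hlt : a < b) (m : MR P Q b q) (c : (b + 1) % 2 = 1) :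
    ∃ w, Good Q w ∧ vlf ⟨zs L, 0, (r - l + 1) / 2, ts L - (r - l + 1) / 2⟩ w := by
  have il : l ∈ P := h.str.mem_run hm hl le_rfl hl.le
  have o := h.op a b hab hlt
  have ob := h.str.out_r hab hlt
  obtain ⟨L1, L2, rfl⟩ := List.append_of_mem hab
  by_cases e : a % 2 = 0
  · obtain ⟨M, s, hz⟩ := h.str.anyR h.nl hlt m
    refine crude_lf s (m.nl h.nl) (nlt_z ?_ (by simp))
    have z1 := zt a b
    have z2 := zt a (b - 2)
    simp only [zs_app, zs_cons]; omega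
  have o2 := (o (by omega)).2 (by omega)
  obtain rfl := m.one o2
  have z1 := mix_Up (a := a) (b := b) (by omega)
  have z2 := mix_Up (a := a) (b := b - 2) (by omega)
  have d := h.oR hlt (by omega) m (by simpa [add_assoc] using o2)
  by_cases e' : l = a ∧ r = b
  · obtain ⟨rfl, rfl⟩ := e'
    by_cases e2 : l < r - 2
    · refine ⟨_, Good.up d (by simp) e2 (by omega)
        (Or.inl ⟨by omega, (m.same (by omega)).2 (hk.elim And.right fun c => by omega)⟩), ?_⟩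
      simp only [zs_app, zs_cons, ts_app, ts_cons]
      exact vlf_dn (by omega) rfl (by omega) (by omega)
    · refine ⟨_, Good.d d, ?_⟩
      simp only [zs_app, zs_cons, ts_app, ts_cons]
      exact vlf_dn (by omega) rfl (by omega) (by omega)
  · refine ⟨_, Good.up d (keep_Up _ hm e') hl hp
      (hk.imp (fun k => ⟨k.1, (m.same ?_).2 k.2⟩) fun k => ⟨k.1, (m.same ?_).2 k.2⟩), ?_⟩
    · have b1 : l ≠ b + 1 := fun e => ob (e ▸ il)
      have b2 : l - 2 ≠ b + 1 := fun e => ob (e ▸ k.2)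
      omega
    · have b1 : r + 3 ≠ b := fun e => markR_Up h hm hl k.2 (e ▸ m.b)
      have b2 : r + 2 ≠ b + 1 := fun e => ob (e ▸ k.2)
      omega
    · simp only [zs_app, zs_cons, ts_app, ts_cons]
      exact vlf_star (by omega) rfl rfl (by omega)

theorem oL_Up {Q : Finset ℤ} {a b q : ℤ} (h : Dm P L) (hm : (l, r) ∈ L) (hl : l < r)
    (hp : l % 2 ≠ r % 2) (hk : (l % 2 = 1 ∧ l - 2 ∈ P) ∨ (r % 2 = 1 ∧ r + 2 ∈ P))
    (hab : (a, b) ∈ L) (hlt : a < b) (m : ML P Q a q) (c : (a + 1) % 2 = 1) :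
    ∃ w, Good Q w ∧ vlf ⟨zs L, 0, (r - l + 1) / 2, ts L - (r - l + 1) / 2⟩ w := by
  have ir : r ∈ P := h.str.mem_run hm hl hl.le le_rfl
  have o := h.op a b hab hlt
  have ob := h.str.out_l hab hlt
  obtain ⟨L1, L2, rfl⟩ := List.append_of_mem hab
  by_cases e : b % 2 = 0
  · obtain ⟨M, s, hz⟩ := h.str.anyL h.nl hlt m
    refine crude_lf s (m.nl h.nl) (nlt_z ?_ (by simp))
    have z1 := zt a b
    have z2 := zt (a + 2) b
    simp only [zs_app, zs_cons]; omega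
  have o2 := (o (by omega)).1 (by omega)
  obtain rfl := m.one o2
  have z1 := mix_Up (a := a) (b := b) (by omega)
  have z2 := mix_Up (a := a + 2) (b := b) (by omega)
  have d := h.oL hlt (by omega) m (by simpa [sub_sub] using o2)
  by_cases e' : l = a ∧ r = b
  · obtain ⟨rfl, rfl⟩ := e'
    by_cases e2 : l + 2 < r
    · refine ⟨_, Good.up d (by simp) e2 (by omega)
        (Or.inr ⟨by omega, (m.same (by omega)).2 (hk.elim (fun c => by omega) And.right)⟩), ?_⟩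
      simp only [zs_app, zs_cons, ts_app, ts_cons]
      exact vlf_dn (by omega) rfl (by omega) (by omega)
    · refine ⟨_, Good.d d, ?_⟩
      simp only [zs_app, zs_cons, ts_app, ts_cons]
      exact vlf_dn (by omega) rfl (by omega) (by omega)
  · refine ⟨_, Good.up d (keep_Up _ hm e') hl hp
      (hk.imp (fun k => ⟨k.1, (m.same ?_).2 k.2⟩) fun k => ⟨k.1, (m.same ?_).2 k.2⟩), ?_⟩
    · have b1 : l - 3 ≠ a := fun e => markL_Up h hm hl k.2 (e ▸ m.b)
      have b2 : l - 2 ≠ a - 1 := fun e => ob (e ▸ k.2)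
      omega
    · have b1 : r ≠ a - 1 := fun e => ob (e ▸ ir)
      have b2 : r + 2 ≠ a - 1 := fun e => ob (e ▸ k.2)
      omega
    · simp only [zs_app, zs_cons, ts_app, ts_cons]
      exact vlf_star (by omega) rfl rfl (by omega)

end

theorem upS : UpS := by
  intro P L l r h hm hl hp hk
  refine ⟨fun Q m => Or.inl ?_, fun u hu => ?_⟩
  · obtain ⟨a, b, q, hab, hlt, ⟨m, c⟩ | ⟨m, c⟩⟩ := h.str.cases m
    exacts [oR_Up h hm hl hp hk hab hlt m c, oL_Up h hm hl hp hk hab hlt m c]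
  · obtain ⟨Q, M, m, d, e1, e2⟩ := stop_Up h hm hl hp hk
    rcases VL_up (by omega) hu with rfl | ⟨c1, c2, rfl⟩
    · by_cases c : ts L % 2 = 0
      · exact ⟨Q, _, m, Good.d d, vle_eq e1.symm rfl rfl (by omega)⟩
      · obtain ⟨Q', M', m', d', f1, f2⟩ := tempo h hm hl hp
        exact ⟨Q', _, m', Good.d d', vle_eq f1.symm rfl rfl (by omega)⟩
    · exact ⟨Q, _, m, Good.d d, vle_eq e1.symm rfl rfl (by omega)⟩

end Pool.Agent.MP_914aa3_co.Cl
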