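import Pool.Agent.MP_914aa3_co.Cl.Stm

set_option autoImplicit false

namespace Pool.Agent.MP_914aa3_co.Cl

/-- a good value above `v` in the frame with even `g, l1, r2, r3` -/
theorem lc_W3 {Q : Finset ℤ} {g l1 r2 l3 r3 : ℤ} (b : Base0 Q g l1 r2 l3 r3) (hg : g % 2 = 0)
    (h1 : l1 % 2 = 0) (h2 : r2 % 2 = 0) (h3 : r3 % 2 = 0) {v : Val}
    (hv : nlt v.z v.k (-min ((g - l1) / 2) ((r2 - g) / 2)) 0) :
    ∃ w, Good Q w ∧ vle v w ∧ vlf v w := by
  have par := b.par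
  have w1 : l1 ≤ g - 1 + 1 := b.str.wf (l1, g - 1) (by simp)
  have w2 : g + 1 ≤ r2 + 1 := b.str.wf (g + 1, r2) (by simp)
  by_cases c : l1 < g - 1 ∧ g + 1 < r2
  · have a : nlt v.z v.k (-min ((g - l1) / 2) ((r2 - g) / 2)) (min v.k (-1) - 1) := by
      generalize -min ((g - l1) / 2) ((r2 - g) / 2) = y at hv
      simp only [nlt] at hv ⊢; omega
    exact ⟨_, Good.l3c (z := -min ((g - l1) / 2) ((r2 - g) / 2)) (k := min v.k (-1) - 1)
      (b.base c.1 c.2) hg h1 h2 h3 (Or.inr ⟨rfl, Or.inl ⟨by omega, Or.inr le_rfl⟩⟩),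
      Or.inl a, Or.inl a⟩
  · refine crude b.str (b.toNL (by omega)) ?_
    have z1 := zt l1 (g - 1)
    have z2 := zt (g + 1) r2
    have z3 := zt l3 r3
    have e : zs [(l1, g - 1), (g + 1, r2), (l3, r3)] = -min ((g - l1) / 2) ((r2 - g) / 2) := by
      simp only [zs_cons, zs_nil]; omega
    rwa [e]

/-- the moves of the odd player at the first two runs -/
theorem om_W3 {P Q : Finset ℤ} {g l1 r2 l3 r3 : ℤ} (h : Base P g l1 r2 l3 r3) (hg : g % 2 = 0)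
    (h1 : l1 % 2 = 0) (h2 : r2 % 2 = 0) (h3 : r3 % 2 = 0) {v : Val}
    (v1 : nlt v.z v.k (-min ((g - (l1 + 2)) / 2) ((r2 - g) / 2)) 0)
    (v2 : nlt v.z v.k (-min ((g - l1) / 2) ((r2 - 2 - g) / 2)) 0)
    (v3 : l3 < r3 → Base Q g l1 r2 l3 (r3 - 2) → ∃ w, Good Q w ∧ vlf v w) (m : Move 1 P Q) :
    (∃ w, Good Q w ∧ vlf v w) ∨ ∃ Q' w, Move 0 Q Q' ∧ Good Q' w ∧ vle v w := by
  have par := h.par
  obtain ⟨q, ⟨m, c⟩ | ⟨m, c⟩ | ⟨m, c⟩ | ⟨m, c⟩ | ⟨a, m, c⟩ | ⟨a, m, c⟩⟩ := h.cases m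
  · obtain ⟨w, hw, -, lf⟩ := lc_W3 (h.o1L h1 m).2 hg (by omega) h2 h3 v1
    exact Or.inl ⟨w, hw, lf⟩
  · omega
  · omega
  · by_cases hq : q + 1 ∈ P
    · obtain ⟨-, Q', m', b⟩ := h.s2R m hq
      have := m.par
      obtain ⟨w, hw, le, -⟩ := lc_W3 b hg h1 (by omega) h3 v2
      exact Or.inr ⟨Q', w, m'.move (by omega), hw, le⟩
    · obtain ⟨w, hw, -, lf⟩ := lc_W3 (h.p2R m hq) hg h1 (by omega) h3 v2
      exact Or.inl ⟨w, hw, lf⟩
  · omega
  · exact Or.inl (v3 a (h.o3R a h3 m).2)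

theorem w3S : W3S := by
  intro P g l1 r2 l3 r3 h hg e1 e2 h3
  have a1 := h.a1
  have a2 := h.a2
  have gap := h.gap
  have par := h.par
  have w3 : l3 ≤ r3 + 1 := h.str.wf (l3, r3) (by simp)
  have z3 := zt l3 r3
  refine ⟨fun Q m => ?_, fun u hu => ?_⟩
  · refine om_W3 h hg (by omega) (by omega) h3 (nlt_z (by simp only; omega) (by omega))
      (nlt_z (by simp only; omega) (by omega)) (fun a b => ?_) m
    have z3' := zt l3 (r3 - 2)
    exact ⟨_, Good.w3 b hg e1 e2 (by omega), vlf_star rfl rfl rfl (by omega)⟩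
  · rcases VL_num hu with c | ⟨t, -, rfl⟩ | c | c | ⟨t, rfl⟩
    · omega
    · obtain ⟨Q, m⟩ := h.exR
      obtain ⟨-, s, n⟩ := h.mgR m
      refine ⟨Q, _, m.move (by omega), Good.d ⟨s, n, open3
        (fun _ _ => ⟨fun c => m.sub (h.o1 c a1) (by omega), fun _ => by omega⟩) (.triv (by omega))
        fun a _ => ⟨fun _ => by omega, fun c => m.sub (h.o3 c a) (by omega)⟩⟩, ?_⟩
      have z1 := zt l1 (g - 3)
      have z2 := zt g r2
      simp only [zs_cons, ts_cons, zs_nil, ts_nil]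
      exact vle_eq (by omega) rfl rfl (by omega)
    · omega
    · omega
    · have a : l3 < r3 := by omega
      obtain ⟨q, Q, m, hq⟩ := h.j3L a
      have z3' := zt (l3 + 2) r3
      exact ⟨Q, _, m.move (by omega), Good.w3 (h.p3L a m hq) hg e1 e2 h3,
        vle_eq rfl rfl rfl (by omega)⟩

theorem nlt_mono_W3 {z k y y' : ℤ} (h : nlt z k y 0) (c : y ≤ y') : nlt z k y' 0 := by
  simp only [nlt] at h ⊢; omega

theorem l3cS : L3cS := by
  intro P g l1 r2 l3 r3 z k h hg h1 h2 h3 hv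
  have par := h.par
  have z3 := zt l3 r3
  refine ⟨fun Q m => ?_, fun u hu => ?_⟩
  · refine om_W3 h hg h1 h2 h3 (nlt_mono_W3 hv (by omega)) (nlt_mono_W3 hv (by omega))
      (fun _ b => ?_) m
    obtain ⟨w, hw, -, lf⟩ := lc_W3 (v := ⟨z, k, 0, 0⟩) b.toBase0 hg h1 h2 (by omega) hv
    exact ⟨w, hw, lf⟩
  · have hu' := VL_le hu hv
    by_cases c : (r2 - g) / 2 ≤ (g - l1) / 2
    · obtain ⟨Q, m⟩ := h.exR
      obtain ⟨-, s, n⟩ := h.mgR m
      have z1 := zt l1 (g - 3)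
      have z2 := zt g r2
      obtain ⟨w, hw, le⟩ := crude_le s n (v := u)
        (nlt_mono_W3 hu' (by simp only [zs_cons, zs_nil]; omega))
      exact ⟨Q, w, m.move (by omega), hw, le⟩
    · obtain ⟨Q, m⟩ := h.exL
      obtain ⟨-, s, n⟩ := h.mgL m
      have z1 := zt l1 g
      have z2 := zt (g + 3) r2
      obtain ⟨w, hw, le⟩ := crude_le s n (v := u)
        (nlt_mono_W3 hu' (by simp only [zs_cons, zs_nil]; omega))
      exact ⟨Q, w, m.move (by omega), hw, le⟩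

end Pool.Agent.MP_914aa3_co.Cl
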