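import Pool.Agent.MP_914aa3_co.Cl.Stm

set_option autoImplicit false

namespace Pool.Agent.MP_914aa3_co.Cl

theorem zS : ZS := by
  intro P e l3 r3 h hn he m3 n5 p6 n2 gap h3 hr ho
  have w3 : l3 ≤ r3 + 1 := h.wf (l3, r3) (by simp)
  have z3 := zt l3 r3
  have n1 : e + 1 ∉ P := h.out_r (l := e - 1) (by simp) (by omega)
  have n4 : e - 4 ∉ P := fun c => by
    have a := (h.adj (e - 4)).1 ⟨c, by simpa [show e - 4 + 1 = e - 3 by ring] using m3⟩
    simp only [List.mem_cons, List.not_mem_nil, or_false, exists_eq_or_imp, exists_eq_left] at a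
    omega
  refine ⟨fun Q m => ?_, fun u hu => ?_⟩
  · obtain ⟨q, ⟨a, m, c⟩ | ⟨a, m, c⟩ | ⟨a, m, c⟩ | ⟨a, m, c⟩ | ⟨a, m, c⟩ | ⟨a, m, c⟩⟩ :=
      h.cases3 m
    · have h1 := m.lt
      have h2 := m.par
      have h4 : e - 5 < q := by
        by_contra d
        exact n5 ((m.path (e - 5) (by omega) (by omega)).2 (by omega))
      have o2 : Op1 Q (e + 3) (e + 4) := fun _ _ =>
        ⟨fun _ => m.sub (by simpa [show e + 3 - 2 = e + 1 by ring] using n1) (by omega),
          fun _ => by omega⟩
      have o3 : Op1 Q l3 r3 := fun d _ => ⟨fun _ => m.sub (ho d) (by omega), fun _ => by omega⟩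
      have z1 := zt (e - 1 + 2) e
      have z2 := zt (e + 3) (e + 4)
      rcases (by omega : q = e - 4 ∨ q = e - 2) with d | d
      · have s := h.plainL0 a m (by simpa [show q - 1 = e - 5 by omega] using n5)
        refine Or.inl ⟨_, Good.d ⟨s, m.nl hn, open3 (.triv (by omega)) o2 o3⟩, ?_⟩
        simp only [zs_cons, ts_cons, zs_nil, ts_nil]
        exact vlf_star (by omega) rfl rfl (by omega)
      · have s := h.pairL0 a m (by simpa [show q - 1 = e - 3 by omega] using m3)
          (by simpa [show q - 2 = e - 4 by omega] using n4)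
        have o0 : Op1 Q (q - 1) q := fun _ _ =>
          ⟨fun _ => m.sub (by simpa [show q - 1 - 2 = e - 5 by omega] using n5) (by omega),
            fun _ => by omega⟩
        have z0 := zt (q - 1) q
        refine Or.inl ⟨_, Good.up (l := e + 3) (r := e + 4)
          ⟨s, m.nl hn, (open3 (.triv (by omega)) o2 o3).cons o0⟩ (by simp) (by omega) (by omega)
          (Or.inr ⟨by omega, (m.same (by omega)).2
            (by simpa [show e + 4 + 2 = e + 6 by ring] using p6)⟩), ?_⟩
        simp only [zs_cons, ts_cons, zs_nil, ts_nil]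
        exact vlf_up (by omega) rfl (by omega)
    · omega
    · have hq := m.one (by simpa [show e + 3 - 2 = e + 1 by ring] using n1)
      have s := Str.plainL (L1 := [(e - 1, e)]) h a m
        (by simpa [show q - 1 = e + 1 by omega] using n1)
      obtain ⟨q', Q', m', hq'⟩ := s.jumpR' (l := e - 1) (r := e) (m.nl hn) (by simp) (by omega)
      have h1 := m'.lt
      have h4 : q' < e + 4 := by
        by_contra d
        exact m.out (x := e + 4) (by omega) (by omega)
          ((m'.path (e + 4) (by omega) (by omega)).2 (by omega))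
      have s' := Str.plainR0 s (by omega) m' hq'
      refine Or.inr ⟨Q', _, m'.move (by omega), Good.d ⟨s', m'.nl (m.nl hn),
        open3 (.triv (by omega)) (.triv (by omega)) fun d _ =>
          ⟨fun _ => m'.sub (m.sub (ho d) (by omega)) (by omega), fun _ => by omega⟩⟩, ?_⟩
      have z1 := zt (e - 1) (e - 2)
      have z2 := zt (e + 3 + 2) (e + 4)
      simp only [List.nil_append, List.append_eq, zs_cons, ts_cons, zs_nil, ts_nil]
      exact vle_eq (by omega) rfl rfl (by omega)
    · omega
    · have hq := m.one (ho a)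
      have s := Str.plainL (L1 := [(e - 1, e), (e + 3, e + 4)]) h a m
        (by simpa [show q - 1 = l3 - 2 by omega] using ho a)
      have z3' := zt (l3 + 2) r3
      exact Or.inl ⟨_, Good.z s (m.nl hn) he ((m.same (by omega)).2 m3) (m.sub n5 (by omega))
        ((m.same (by omega)).2 p6) (m.sub n2 (by omega)) (by omega) (by omega) hr
        (fun _ => m.out (by omega) (by omega)), vlf_star rfl rfl rfl (by omega)⟩
    · omega
  · rcases VL_int hu with ⟨-, t, -⟩ | ⟨t, rfl⟩
    · omega
    · have a : l3 < r3 := by omega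
      obtain ⟨q, Q, m, hq⟩ := h.jumpR' (l := l3) (r := r3) hn (by simp) a
      have := m.lt
      have s := Str.plainR (L1 := [(e - 1, e), (e + 3, e + 4)]) h a m hq
      have z3' := zt l3 (r3 - 2)
      exact ⟨Q, _, m.move (by omega), Good.z s (m.nl hn) he ((m.same (by omega)).2 m3)
        (m.sub n5 (by omega)) ((m.same (by omega)).2 p6) (m.sub n2 (by omega)) gap h3 (by omega)
        (fun _ => m.sub (ho a) (by omega)), vle_eq rfl rfl rfl (by omega)⟩

end Pool.Agent.MP_914aa3_co.Cl
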