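import Pool.Agent.MP_914aa3_co.Cl.Main
import Pool.Agent.MP_914aa3_co.Cl.FD
import Pool.Agent.MP_914aa3_co.Cl.FUp
import Pool.Agent.MP_914aa3_co.Cl.FE1
import Pool.Agent.MP_914aa3_co.Cl.FUa
import Pool.Agent.MP_914aa3_co.Cl.FUb
import Pool.Agent.MP_914aa3_co.Cl.FB
import Pool.Agent.MP_914aa3_co.Cl.FZ
import Pool.Agent.MP_914aa3_co.Cl.FL1
import Pool.Agent.MP_914aa3_co.Cl.FL2a
import Pool.Agent.MP_914aa3_co.Cl.FL2b
import Pool.Agent.MP_914aa3_co.Cl.FL4b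
import Pool.Agent.MP_914aa3_co.Cl.FL2p
import Pool.Agent.MP_914aa3_co.Cl.FL3
import Pool.Agent.MP_914aa3_co.Cl.FW3
import Pool.Agent.MP_914aa3_co.Cl.FL5
import Pool.Agent.MP_914aa3_co.Cl.FN0
import Pool.Agent.MP_914aa3_co.Cl.FN2
import Pool.Agent.MP_914aa3_co.Cl.FL5p
import Pool.Agent.MP_914aa3_co.Cl.FL6
import Pool.Agent.MP_914aa3_co.Cl.FE6

set_option autoImplicit false

namespace Pool.Agent.MP_914aa3_co.Cl

theorem closed : Closed :=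
  step_all dS dcS upS e1S uaS ubS bS zS l1S l2aS l2bS l2wS' l2pS l3S w3S l3cS l4S' l5S n0S n1S n2S
    l5pS l6S e6S

end Pool.Agent.MP_914aa3_co.Cl
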