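import Pool.Agent.MP_914aa3_co.Cl.Stm

set_option autoImplicit false

namespace Pool.Agent.MP_914aa3_co.Cl

theorem l2wS' : L2wS := by
  intro P g l3 r3 h hg h3
  have gap := h.gap
  have par := h.par
  have w3 : l3 ≤ r3 + 1 := h.str.wf (l3, r3) (by simp)
  have z3 := zt l3 r3
  have key : ∀ Q, Base0 Q g (g - 3) (g + 4 - 2) l3 r3 → ∃ w, Good Q w ∧
      vle ⟨0, 0, 0, tr l3 r3⟩ w ∧ vlf ⟨0, 0, 0, tr l3 r3⟩ w := fun Q b => by
    have f := fzk ((g - (g - 3)) / 2) ((g + 4 - 2 - g) / 2)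
    exact ⟨_, Good.l2 (b.base (by omega) (by omega)) hg (by omega) (by omega) (fun _ => by omega)
      (fun _ _ _ => by omega), vle_lt (nlt_k (by omega) (by omega)), vlf_lt (nlt_k (by omega) (by omega))⟩
  refine ⟨fun Q m => ?_, fun u hu => ?_⟩
  · obtain ⟨q, ⟨m, c⟩ | ⟨m, c⟩ | ⟨m, c⟩ | ⟨m, c⟩ | ⟨a, m, c⟩ | ⟨a, m, c⟩⟩ := h.cases m
    · omega
    · omega
    · omega
    · by_cases hq : q + 1 ∈ P
      · obtain ⟨-, Q', m', b⟩ := h.s2R m hq
        have := m.par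
        obtain ⟨w, c1, c2, -⟩ := key Q' b
        exact Or.inr ⟨Q', w, m'.move (by omega), c1, c2⟩
      · obtain ⟨w, c1, -, c2⟩ := key Q (h.p2R m hq)
        exact Or.inl ⟨w, c1, c2⟩
    · omega
    · have z3' := zt l3 (r3 - 2)
      exact Or.inl ⟨_, Good.l2w (h.o3R a h3 m).2 hg (by omega), vlf_star rfl rfl rfl (by omega)⟩
  · rcases VL_int hu with ⟨-, t, rfl⟩ | ⟨t, rfl⟩
    · omega
    · have a : l3 < r3 := by omega
      obtain ⟨q, Q, m, hq⟩ := h.j3L a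
      have z3' := zt (l3 + 2) r3
      exact ⟨Q, _, m.move (by omega), Good.l2w (h.p3L a m hq) hg h3, vle_eq rfl rfl rfl (by omega)⟩

theorem l4S' : L4S := by
  intro P g l1 r2 l3 r3 h hg h1 h2
  have a1 := h.a1
  have a2 := h.a2
  have gap := h.gap
  have par := h.par
  have w3 : l3 ≤ r3 + 1 := h.str.wf (l3, r3) (by simp)
  have key : ∀ Q a b, Base0 Q g a b l3 r3 → a % 2 = 0 → b % 2 = 0 → b - a < r2 - l1 → ∃ w, Good Q w ∧
      vle ⟨-((g - l1) / 2) - (r2 - g) / 2 + zr l3 r3, 0, 0, tr l3 r3⟩ w ∧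
      vlf ⟨-((g - l1) / 2) - (r2 - g) / 2 + zr l3 r3, 0, 0, tr l3 r3⟩ w := fun Q a b c ha hb hl => by
    by_cases d : a < g - 1 ∧ g + 1 < b
    · exact ⟨_, Good.l4 (c.base d.1 d.2) hg ha hb, vle_z (by omega), vlf_z (by omega)⟩
    · refine crude c.str (c.toNL (by omega)) (nlt_z ?_ (Or.inl (by simp)))
      have z1 := zt a (g - 1)
      have z2 := zt (g + 1) b
      simp only [zs_cons, zs_nil]; omega
  refine ⟨fun Q m => ?_, fun u hu => ?_⟩
  · obtain ⟨q, ⟨m, c⟩ | ⟨m, c⟩ | ⟨m, c⟩ | ⟨m, c⟩ | ⟨a, m, c⟩ | ⟨a, m, c⟩⟩ := h.cases m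
    · obtain ⟨w, c1, -, c2⟩ := key Q _ _ (h.o1L h1 m).2 (by omega) h2 (by omega)
      exact Or.inl ⟨w, c1, c2⟩
    · obtain ⟨-, s, n⟩ := h.mgR m
      refine Or.inl (crude_lf s n (nlt_z ?_ (Or.inl (by simp))))
      have z1 := zt l1 (g - 3)
      have z2 := zt g r2
      simp only [zs_cons, zs_nil]; omega
    · obtain ⟨-, s, n⟩ := h.mgL m
      refine Or.inl (crude_lf s n (nlt_z ?_ (Or.inl (by simp))))
      have z1 := zt l1 g
      have z2 := zt (g + 3) r2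
      simp only [zs_cons, zs_nil]; omega
    · by_cases hq : q + 1 ∈ P
      · obtain ⟨-, Q', m', b⟩ := h.s2R m hq
        have := m.par
        obtain ⟨w, c1, c2, -⟩ := key Q' _ _ b h1 (by omega) (by omega)
        exact Or.inr ⟨Q', w, m'.move (by omega), c1, c2⟩
      · obtain ⟨w, c1, -, c2⟩ := key Q _ _ (h.p2R m hq) h1 (by omega) (by omega)
        exact Or.inl ⟨w, c1, c2⟩
    · omega
    · have z3 := zt l3 r3
      have z3' := zt l3 (r3 - 2)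
      exact Or.inl ⟨_, Good.l4 (h.o3R a (by omega) m).2 hg h1 h2,
        vlf_star (by omega) rfl rfl (by omega)⟩
  · have z3 := zt l3 r3
    have z3' := zt (l3 + 2) r3
    have a : l3 < r3 := by rcases VL_int hu with ⟨-, t, -⟩ | ⟨t, -⟩ <;> omega
    obtain ⟨q, Q, m, hq⟩ := h.j3L a
    refine ⟨Q, _, m.move (by omega), Good.l4 (h.p3L a m hq) hg h1 h2, ?_⟩
    rcases VL_int hu with ⟨s, t, rfl⟩ | ⟨t, rfl⟩
    · exact vle_eq (by omega) rfl rfl (by omega)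
    · exact vle_eq (by omega) rfl rfl (by omega)

end Pool.Agent.MP_914aa3_co.Cl
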