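import Pool.Agent.MP_914aa3_co.Cl.Str

/-! Families of positions with a lower bound for the even player. -/

set_option autoImplicit false

namespace Pool.Agent.MP_914aa3_co.Cl

/-- at every mixed run the odd player has only a single plain jump -/
def Open (P : Finset ℤ) (L : List (ℤ × ℤ)) : Prop :=
  ∀ l r, (l, r) ∈ L → l < r → l % 2 ≠ r % 2 → (l % 2 = 0 → l - 2 ∉ P) ∧ (r % 2 = 0 → r + 2 ∉ P)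

structure Dm (P : Finset ℤ) (L : List (ℤ × ℤ)) : Prop where
  str : Str P L
  nl : NL P
  op : Open P L

/-- three slots, the first two around the cell `g` -/
structure Base0 (P : Finset ℤ) (g l1 r2 l3 r3 : ℤ) : Prop where
  str : Str P [(l1, g - 1), (g + 1, r2), (l3, r3)]
  nl : NL1 P g
  gap : r2 + 3 ≤ l3
  par : (l3 - r2) % 2 = 1
  o1 : l1 % 2 = 0 → l1 < g - 1 → l1 - 2 ∉ P
  o3 : r3 % 2 = 0 → l3 < r3 → r3 + 2 ∉ P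

structure Base (P : Finset ℤ) (g l1 r2 l3 r3 : ℤ) : Prop extends Base0 P g l1 r2 l3 r3 where
  a1 : l1 < g - 1
  a2 : g + 1 < r2

def O3 (P : Finset ℤ) (l3 r3 : ℤ) : Prop := l3 < r3 → r3 % 2 = 1 → l3 - 2 ∉ P

def G12 (P : Finset ℤ) (e l3 r3 : ℤ) : Prop :=
  (e + 2 ∉ P ∧ e + 3 ∉ P) ∨ (e + 4 ∉ P ∧ e + 5 ∉ P) ∨ (e + 3 ∈ P ∧ e + 4 ∉ P) ∨
    (l3 = e + 3 ∧ r3 ≤ e + 6 ∧ l3 < r3) ∨ (r3 < l3 ∧ (e + 2 ∉ P ∨ e + 4 ∉ P))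

def fz (a b : ℤ) : ℤ := if b < a then a - b else 0
def fk (a b : ℤ) : ℤ := if b < a then 0 else b - a + 1
def gz (a b : ℤ) : ℤ := if a = b then (if a % 2 = 0 then a else a - 1) else if a < b then a else b
def gt (a b : ℤ) : ℤ := if a = b then 0 else if a < b then b else a

inductive Good : Finset ℤ → Val → Prop
  | d {P : Finset ℤ} {L : List (ℤ × ℤ)} : Dm P L → Good P ⟨zs L, 0, 0, ts L⟩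
  | d' {P : Finset ℤ} {L : List (ℤ × ℤ)} {l r z k : ℤ} : Str P L → NL P → (l, r) ∈ L → l < r →
      l % 2 ≠ r % 2 → nlt z k (zs L) 0 → Good P ⟨z, k, 0, 0⟩
  | up {P : Finset ℤ} {L : List (ℤ × ℤ)} {l r : ℤ} : Dm P L → (l, r) ∈ L → l < r → l % 2 ≠ r % 2 →
      (l % 2 = 1 ∧ l - 2 ∈ P) ∨ (r % 2 = 1 ∧ r + 2 ∈ P) →
      Good P ⟨zs L, 0, (r - l + 1) / 2, ts L - (r - l + 1) / 2⟩
  | e1 {P : Finset ℤ} {l2 r2 l3 r3 : ℤ} : Dm P [(l2, r2), (l3, r3)] → l2 < r2 → l3 < r3 →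
      l2 % 2 = 1 → r2 % 2 = 0 → l3 % 2 = 1 → r3 % 2 = 0 → r2 + 3 ≤ l3 → l2 - 2 ∈ P →
      l3 = r2 + 3 ∨ l3 - 2 ∈ P → Good P ⟨0, 0, (r2 - l2 + 1) / 2 + (r3 - l3 + 1) / 2, 0⟩
  | ua {P : Finset ℤ} {l2 r2 l3 r3 : ℤ} : Str P [(l2, r2), (l3, r3)] → NL P → l2 < r2 →
      l2 % 2 = 0 → r2 % 2 = 1 → l2 - 2 ∈ P → l2 - 4 ∉ P → r2 + 3 ≤ l3 → l3 % 2 = 0 →
      (l3 < r3 → r3 % 2 = 1 → l3 - 2 ∉ P ∧ r2 + 5 ≤ l3 ∧ r2 + 2 ∉ P) →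
      Good P ⟨zr l3 r3, 0, -((r2 - l2 + 1) / 2), tr l3 r3⟩
  | ub {P : Finset ℤ} {l r l3 r3 : ℤ} : Str P [(l, r), (l3, r3)] → NL P → l < r →
      l % 2 = 1 → r % 2 = 0 → r + 2 ∈ P → r + 4 ∉ P → r + 5 ≤ l3 → l3 % 2 = 1 →
      (l3 < r3 → r3 % 2 = 0 → r3 + 2 ∉ P) → Good P ⟨zr l3 r3, 0, -((r - l + 1) / 2), tr l3 r3⟩
  | b {P : Finset ℤ} {l2 r2 l3 r3 : ℤ} : Str P [(l2, r2), (l3, r3)] → NL P →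
      l2 % 2 = 1 → r2 % 2 = 0 → l2 - 2 ∈ P → l2 + 3 ≤ r2 → r2 + 3 ≤ l3 → l3 % 2 = 1 → r3 % 2 = 0 →
      (l3 < r3 → r3 + 2 ∉ P) → (r2 = l2 + 3 → G12 P r2 l3 r3) → Good P ⟨0, 0, 0, tr l3 r3⟩
  | z {P : Finset ℤ} {e l3 r3 : ℤ} : Str P [(e - 1, e), (e + 3, e + 4), (l3, r3)] → NL P →
      e % 2 = 1 → e - 3 ∈ P → e - 5 ∉ P → e + 6 ∈ P → e + 2 ∉ P → e + 9 ≤ l3 → l3 % 2 = 0 →
      r3 % 2 = 1 → (l3 < r3 → l3 - 2 ∉ P) → Good P ⟨0, 0, 0, tr l3 r3⟩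
  | l1 {P : Finset ℤ} {g l1 r2 l3 r3 : ℤ} : Base P g l1 r2 l3 r3 → g % 2 = 0 → l1 % 2 = 1 →
      r2 % 2 = 1 → O3 P l3 r3 →
      Good P ⟨(g - l1) / 2 + (r2 - g) / 2 + zr l3 r3, 0, 0, tr l3 r3⟩
  | l2 {P : Finset ℤ} {g l1 r2 l3 r3 : ℤ} : Base P g l1 r2 l3 r3 → g % 2 = 0 → l1 % 2 = 1 →
      r2 % 2 = 0 → (r3 % 2 = 1 → r2 + 2 ∉ P) →
      (r3 % 2 = 0 → l1 = g - 3 → r2 = g + 4 → G12 P r2 l3 r3) →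
      Good P ⟨fz ((g - l1) / 2) ((r2 - g) / 2) + zr l3 r3, fk ((g - l1) / 2) ((r2 - g) / 2), 0,
        tr l3 r3⟩
  | l2w {P : Finset ℤ} {g l3 r3 : ℤ} : Base P g (g - 3) (g + 4) l3 r3 → g % 2 = 0 → r3 % 2 = 0 →
      Good P ⟨0, 0, 0, tr l3 r3⟩
  | l2' {P : Finset ℤ} {g l1 r2 l3 r3 : ℤ} : Base P g l1 r2 l3 r3 → g % 2 = 0 → l1 % 2 = 0 →
      r2 % 2 = 1 → O3 P l3 r3 →
      Good P ⟨fz ((r2 - g) / 2) ((g - l1) / 2) + zr l3 r3, fk ((r2 - g) / 2) ((g - l1) / 2), 0,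
        tr l3 r3⟩
  | l3 {P : Finset ℤ} {g l1 r2 l3 r3 : ℤ} : Base P g l1 r2 l3 r3 → g % 2 = 0 → l1 % 2 = 0 →
      r2 % 2 = 0 → r2 + 2 ∉ P →
      (g - l1 = r2 - g → (g - l1) % 4 = 2 → r3 % 2 = 0 → l3 < r3 → r2 + 3 ∉ P) →
      Good P ⟨-gz ((g - l1) / 2) ((r2 - g) / 2) + zr l3 r3, 0, 0,
        gt ((g - l1) / 2) ((r2 - g) / 2) + tr l3 r3⟩
  | w3 {P : Finset ℤ} {g l1 r2 l3 r3 : ℤ} : Base P g l1 r2 l3 r3 → g % 2 = 0 →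
      g - l1 = r2 - g → (g - l1) % 4 = 2 → r3 % 2 = 0 → Good P ⟨-((g - l1) / 2), 2, 0, tr l3 r3⟩
  | l3c {P : Finset ℤ} {g l1 r2 l3 r3 z k : ℤ} : Base P g l1 r2 l3 r3 → g % 2 = 0 → l1 % 2 = 0 →
      r2 % 2 = 0 → r3 % 2 = 0 → nlt z k (-min ((g - l1) / 2) ((r2 - g) / 2)) 0 → Good P ⟨z, k, 0, 0⟩
  | l4 {P : Finset ℤ} {g l1 r2 l3 r3 : ℤ} : Base P g l1 r2 l3 r3 → g % 2 = 1 → l1 % 2 = 0 →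
      r2 % 2 = 0 → Good P ⟨-((g - l1) / 2) - (r2 - g) / 2 + zr l3 r3, 0, 0, tr l3 r3⟩
  | l5 {P : Finset ℤ} {g l1 r2 l3 r3 : ℤ} : Base P g l1 r2 l3 r3 → g % 2 = 1 → l1 % 2 = 0 →
      r2 % 2 = 1 → O3 P l3 r3 →
      Good P ⟨-fz ((g - l1) / 2) ((r2 - g) / 2) + zr l3 r3, -fk ((g - l1) / 2) ((r2 - g) / 2), 0,
        tr l3 r3⟩
  | n0 {P : Finset ℤ} {g r3 : ℤ} : Base P g (g - 3) (g + 4) (g + 7) r3 → g % 2 = 1 → r3 % 2 = 1 →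
      g + 10 ≤ r3 → Good P ⟨0, -2, 0, 0⟩
  | n1 {P : Finset ℤ} {g r3 : ℤ} : Base P g (g - 3) (g + 4) (g + 9) r3 → g % 2 = 1 → r3 % 2 = 1 →
      g + 7 ∉ P → g + 6 ∈ P → g + 10 ≤ r3 → Good P ⟨0, -3, 0, 0⟩
  | n2 {P : Finset ℤ} {g l3 r3 : ℤ} : Base P g (g - 3) (g + 4) l3 r3 → g % 2 = 1 → r3 % 2 = 1 →
      O3 P l3 r3 → g + 6 ∈ P → g + 8 ∈ P → g + 11 ≤ l3 → Good P ⟨0, 0, 0, tr l3 r3⟩
  | l5' {P : Finset ℤ} {g l1 r2 l3 r3 : ℤ} : Base P g l1 r2 l3 r3 → g % 2 = 1 → l1 % 2 = 1 →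
      r2 % 2 = 0 →
      Good P ⟨-fz ((r2 - g) / 2) ((g - l1) / 2) + zr l3 r3, -fk ((r2 - g) / 2) ((g - l1) / 2), 0,
        tr l3 r3⟩
  | l6 {P : Finset ℤ} {g l1 r2 l3 r3 : ℤ} : Base P g l1 r2 l3 r3 → g % 2 = 1 → l1 % 2 = 1 →
      r2 % 2 = 1 → O3 P l3 r3 →
      Good P ⟨gz ((g - l1) / 2) ((r2 - g) / 2) + zr l3 r3, 0, 0,
        gt ((g - l1) / 2) ((r2 - g) / 2) + tr l3 r3⟩
  | e6 {P : Finset ℤ} {g l1 r2 l3 r3 : ℤ} : Base P g l1 r2 l3 r3 → g % 2 = 1 →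
      g - l1 = r2 - g → (g - l1) % 4 = 2 → O3 P l3 r3 → (r3 - l3) % 4 = 1 →
      l3 = r2 + 3 ∨ r2 + 2 ∈ P → Good P ⟨(g - l1) / 2 - 1, 0, 0, 0⟩

end Pool.Agent.MP_914aa3_co.Cl
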