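import Pool.Agent.MP_914aa3_co.Cl.Val

/-! Two positions that lie far apart on one row behave as a sum of two boards. -/

set_option autoImplicit false

namespace Pool.Agent.MP_914aa3_co.Cl

section
variable {P Q A B A' B' : Finset ℤ} {e q h par d : ℤ}

theorem MR.prev (m : MR P Q e q) : q - 1 ∈ P := by
  have h1 := m.lt
  have h2 := m.par
  rcases eq_or_ne (q - 1) e with c | c
  · exact c ▸ m.b
  · exact (m.path _ (by omega) (by omega)).2 (by omega)

theorem ML.next (m : ML P Q e q) : q + 1 ∈ P := by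
  have h1 := m.lt
  have h2 := m.par
  rcases eq_or_ne (q + 1) e with c | c
  · exact c ▸ m.b
  · exact (m.path _ (by omega) (by omega)).2 (by omega)

theorem move_le (m : Move par P Q) (hP : ∀ x ∈ P, x ≤ h) : ∀ x ∈ Q, x ≤ h + 1 := by
  intro x hx
  obtain ⟨e, q, -, m | m⟩ := move_cases m
  · have := hP _ m.prev
    rcases (m.mem x).1 hx with c | c
    · omega
    · have := hP _ c.1; omega
  · have := hP _ m.next
    rcases (m.mem x).1 hx with c | c
    · omega
    · have := hP _ c.1; omega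

theorem move_ge (m : Move par P Q) (hP : ∀ x ∈ P, h ≤ x) : ∀ x ∈ Q, h - 1 ≤ x := by
  intro x hx
  obtain ⟨e, q, -, m | m⟩ := move_cases m
  · have := hP _ m.prev
    rcases (m.mem x).1 hx with c | c
    · omega
    · have := hP _ c.1; omega
  · have := hP _ m.next
    rcases (m.mem x).1 hx with c | c
    · omega
    · have := hP _ c.1; omega

theorem move_shF (m : Move par P Q) (hd : d % 2 = 0) : Move par (sh d P) (sh d Q) := by
  obtain ⟨e, q, hp, m | m⟩ := move_cases m
  · have h1 := m.lt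
    have h2 := m.par
    refine MR.move (e := e + d) (q := q + d) ⟨?_, ?_, by omega, by omega, fun y c1 c2 => ?_,
      fun x => ?_⟩ (by omega)
    · rw [mem_sh, show e + d - 1 - d = e - 1 by ring]; exact m.a
    · rw [mem_sh, add_sub_cancel_right]; exact m.b
    · rw [mem_sh, m.path _ (by omega) (by omega)]; omega
    · rw [mem_sh, mem_sh, m.mem]
      exact or_congr (by omega) (and_congr_right fun _ => by omega)
  · have h1 := m.lt
    have h2 := m.par
    refine ML.move (e := e + d) (q := q + d) ⟨?_, ?_, by omega, by omega, fun y c1 c2 => ?_,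
      fun x => ?_⟩ (by omega)
    · rw [mem_sh, show e + d + 1 - d = e + 1 by ring]; exact m.a
    · rw [mem_sh, add_sub_cancel_right]; exact m.b
    · rw [mem_sh, m.path _ (by omega) (by omega)]; omega
    · rw [mem_sh, mem_sh, m.mem]
      exact or_congr (by omega) (and_congr_right fun _ => by omega)

theorem sh_shF (d : ℤ) (P : Finset ℤ) : sh (-d) (sh d P) = P := by
  ext x; rw [mem_sh, mem_sh, show x - -d - d = x by ring]

theorem sh_shG (d : ℤ) (P : Finset ℤ) : sh d (sh (-d) P) = P := by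
  ext x; rw [mem_sh, mem_sh, show x - d - -d = x by ring]

theorem move_unsh (m : Move par (sh d P) Q) (hd : d % 2 = 0) :
    ∃ P', Move par P P' ∧ Q = sh d P' :=
  ⟨sh (-d) Q, by simpa only [sh_shF] using move_shF (d := -d) m (by omega), (sh_shG d Q).symm⟩

/-- a move of `A` stays a move when stones outside its window are added -/
theorem MR.add (m : MR A A' e q) (hB : ∀ x ∈ B, x < e - 1 ∨ q < x) : MR (A ∪ B) (A' ∪ B) e q := by
  refine ⟨Finset.mem_union_left _ m.a, Finset.mem_union_left _ m.b, m.lt, m.par,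
    fun y c1 c2 => ?_, fun x => ?_⟩
  · rw [Finset.mem_union, ← m.path y c1 c2]
    exact or_iff_left fun c => by have := hB _ c; omega
  · rw [Finset.mem_union, Finset.mem_union, m.mem]
    have := hB x
    tauto

theorem ML.add (m : ML A A' e q) (hB : ∀ x ∈ B, x < q ∨ e + 1 < x) : ML (A ∪ B) (A' ∪ B) e q := by
  refine ⟨Finset.mem_union_left _ m.a, Finset.mem_union_left _ m.b, m.lt, m.par,
    fun y c1 c2 => ?_, fun x => ?_⟩
  · rw [Finset.mem_union, ← m.path y c1 c2]
    exact or_iff_left fun c => by have := hB _ c; omega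
  · rw [Finset.mem_union, Finset.mem_union, m.mem]
    have := hB x
    tauto

theorem MR.cut (m : MR (A ∪ B) Q e q) (hB : ∀ x ∈ B, x < e - 1 ∨ q < x) :
    ∃ A', MR A A' e q ∧ Q = A' ∪ B := by
  have h1 := m.lt
  have k : ∀ y, e - 1 ≤ y → y ≤ q → (y ∈ A ∪ B ↔ y ∈ A) := fun y c1 c2 => by
    rw [Finset.mem_union]
    exact or_iff_left fun c => by have := hB _ c; omega
  obtain ⟨A', m'⟩ := exR (P := A) ((k _ le_rfl (by omega)).1 m.a) ((k _ (by omega) (by omega)).1 m.b)
    m.lt m.par fun y c1 c2 => by rw [← k y (by omega) c2, m.path y c1 c2]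
  exact ⟨A', m', Finset.ext fun x => by rw [m.mem, (m'.add hB).mem]⟩

theorem ML.cut (m : ML (A ∪ B) Q e q) (hB : ∀ x ∈ B, x < q ∨ e + 1 < x) :
    ∃ A', ML A A' e q ∧ Q = A' ∪ B := by
  have h1 := m.lt
  have k : ∀ y, q ≤ y → y ≤ e + 1 → (y ∈ A ∪ B ↔ y ∈ A) := fun y c1 c2 => by
    rw [Finset.mem_union]
    exact or_iff_left fun c => by have := hB _ c; omega
  obtain ⟨A', m'⟩ := exL (P := A) ((k _ (by omega) le_rfl).1 m.a) ((k _ (by omega) (by omega)).1 m.b)
    m.lt m.par fun y c1 c2 => by rw [← k y c1 (by omega), m.path y c1 c2]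
  exact ⟨A', m', Finset.ext fun x => by rw [m.mem, (m'.add hB).mem]⟩

theorem move_left (hA : ∀ x ∈ A, x ≤ h) (hB : ∀ x ∈ B, h + 4 ≤ x) (m : Move par A A') :
    Move par (A ∪ B) (A' ∪ B) := by
  obtain ⟨e, q, hp, m | m⟩ := move_cases m
  · have := hA _ m.prev
    exact (m.add fun x c => by have := hB x c; omega).move hp
  · have := hA _ m.a
    exact (m.add fun x c => by have := hB x c; omega).move hp

theorem move_right (hA : ∀ x ∈ A, x ≤ h) (hB : ∀ x ∈ B, h + 4 ≤ x) (m : Move par B B') :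
    Move par (A ∪ B) (A ∪ B') := by
  rw [Finset.union_comm A, Finset.union_comm A]
  obtain ⟨e, q, hp, m | m⟩ := move_cases m
  · have := hB _ m.a
    exact (m.add fun x c => by have := hA x c; omega).move hp
  · have := hB _ m.next
    exact (m.add fun x c => by have := hA x c; omega).move hp

theorem move_split (hA : ∀ x ∈ A, x ≤ h) (hB : ∀ x ∈ B, h + 4 ≤ x) (m : Move par (A ∪ B) Q) :
    (∃ A', Move par A A' ∧ Q = A' ∪ B) ∨ ∃ B', Move par B B' ∧ Q = A ∪ B' := by
  have g : ∀ y, h < y → y < h + 4 → y ∉ A ∪ B := fun y c1 c2 c => by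
    rcases Finset.mem_union.1 c with c | c
    · have := hA _ c; omega
    · have := hB _ c; omega
  obtain ⟨e, q, hp, m | m⟩ := move_cases m
  · have h1 := m.lt
    have h2 := m.par
    by_cases c : e ≤ h
    · have hq : q ≤ h + 1 := by
        by_contra c'
        have c1 := mt (m.path (h + 1) (by omega) (by omega)).2 (g _ (by omega) (by omega))
        have c2 := mt (m.path (h + 2) (by omega) (by omega)).2 (g _ (by omega) (by omega))
        omega
      obtain ⟨A', m', e'⟩ := m.cut fun x c => by have := hB x c; omega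
      exact Or.inl ⟨A', m'.move hp, e'⟩
    · have c1 : h + 4 ≤ e := by
        by_contra c'; exact g _ (by omega) (by omega) m.b
      rw [Finset.union_comm] at m
      obtain ⟨B', m', e'⟩ := m.cut fun x c => by have := hA x c; omega
      exact Or.inr ⟨B', m'.move hp, by rw [e', Finset.union_comm]⟩
  · have h1 := m.lt
    have h2 := m.par
    by_cases c : e ≤ h
    · obtain ⟨A', m', e'⟩ := m.cut fun x c => by have := hB x c; omega
      exact Or.inl ⟨A', m'.move hp, e'⟩
    · have c1 : h + 4 ≤ e := by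
        by_contra c'; exact g _ (by omega) (by omega) m.b
      have hq : h + 3 ≤ q := by
        by_contra c'
        have c1 := mt (m.path (h + 3) (by omega) (by omega)).2 (g _ (by omega) (by omega))
        have c2 := mt (m.path (h + 2) (by omega) (by omega)).2 (g _ (by omega) (by omega))
        omega
      rw [Finset.union_comm] at m
      obtain ⟨B', m', e'⟩ := m.cut fun x c => by have := hA x c; omega
      exact Or.inr ⟨B', m'.move hp, by rw [e', Finset.union_comm]⟩

end

/-- the two boards can be put on one row far apart -/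
def Far (d : ℤ) (A C : Finset ℤ) : Prop :=
  ∃ h : ℤ, (∀ x ∈ A, x ≤ h) ∧ ∀ x ∈ C, h + 2 * (A.card + C.card) + 4 ≤ x + d

section
variable {A C Q : Finset ℤ} {par d : ℤ} {H : Finset ℤ × Finset ℤ}

theorem Far.keep (f : Far d A C) (m : SumMove par (A, C) H) : Far d H.1 H.2 := by
  obtain ⟨h, hA, hC⟩ := f
  rcases m with ⟨m, e⟩ | ⟨e, m⟩
  · have := m.card_lt
    refine ⟨h + 1, move_le m hA, fun x c => ?_⟩
    rw [e] at c ⊢
    have := hC x c
    simp only at *
    omega
  · have := m.card_lt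
    refine ⟨h, e ▸ hA, fun x c => ?_⟩
    have := move_ge (h := h + 2 * (A.card + C.card) + 4 - d) m
      (fun y c => by have := hC y c; omega) x c
    rw [e]
    simp only at *
    omega

theorem Far.gap (f : Far d A C) : ∃ h : ℤ, (∀ x ∈ A, x ≤ h) ∧ ∀ x ∈ sh d C, h + 4 ≤ x := by
  obtain ⟨h, hA, hC⟩ := f
  exact ⟨h, hA, fun x c => by have := hC _ (mem_sh.1 c); omega⟩

theorem Far.join (f : Far d A C) (hd : d % 2 = 0) (m : SumMove par (A, C) H) :
    Move par (A ∪ sh d C) (H.1 ∪ sh d H.2) := by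
  obtain ⟨h, hA, hB⟩ := f.gap
  rcases m with ⟨m, e⟩ | ⟨e, m⟩
  · rw [e]; exact move_left hA hB m
  · rw [e]; exact move_right hA hB (move_shF m hd)

theorem Far.split (f : Far d A C) (hd : d % 2 = 0) (m : Move par (A ∪ sh d C) Q) :
    ∃ H, SumMove par (A, C) H ∧ Q = H.1 ∪ sh d H.2 := by
  obtain ⟨h, hA, hB⟩ := f.gap
  rcases move_split hA hB m with ⟨A', m', e⟩ | ⟨B', m', e⟩
  · exact ⟨(A', C), Or.inl ⟨m', rfl⟩, e⟩
  · obtain ⟨C', m'', e'⟩ := move_unsh m' hd
    exact ⟨(A, C'), Or.inr ⟨rfl, m''⟩, by rw [e, e']⟩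

end

theorem farS : FarS := by
  intro A C h d hA hC hd
  have f : Far d A C := ⟨h, hA, hC⟩
  constructor
  · refine le_of_sim (fun x y => ∃ A C, Far d A C ∧ x = .inl (A, C) ∧ y = .inl (A ∪ sh d C, ∅))
      ?_ ?_ ⟨A, C, f, rfl, rfl⟩
    · rintro _ _ x' ⟨A, C, f, rfl, rfl⟩ m
      rcases x' with H | v
      · exact ⟨_, oL_of_move (f.join hd m), H.1, H.2, f.keep m, rfl, rfl⟩
      · exact m.elim
    · rintro _ _ y' ⟨A, C, f, rfl, rfl⟩ m
      obtain ⟨Q, rfl, m1⟩ := oR_one m
      obtain ⟨H, m', rfl⟩ := f.split hd m1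
      exact ⟨.inl H, m', H.1, H.2, f.keep m', rfl, rfl⟩
  · refine le_of_sim (fun y x => ∃ A C, Far d A C ∧ x = .inl (A, C) ∧ y = .inl (A ∪ sh d C, ∅))
      ?_ ?_ ⟨A, C, f, rfl, rfl⟩
    · rintro _ _ y' ⟨A, C, f, rfl, rfl⟩ m
      obtain ⟨Q, rfl, m1⟩ := oL_one m
      obtain ⟨H, m', rfl⟩ := f.split hd m1
      exact ⟨.inl H, m', H.1, H.2, f.keep m', rfl, rfl⟩
    · rintro _ _ x' ⟨A, C, f, rfl, rfl⟩ m
      rcases x' with H | v
      · exact ⟨_, oR_of_move (f.join hd m), H.1, H.2, f.keep m, rfl, rfl⟩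
      · exact m.elim

end Pool.Agent.MP_914aa3_co.Cl
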