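import Pool.Agent.MP_914aa3_co.Defs

/-! Moves of one row Konane in linear form, runs of a position, links between runs. -/

set_option autoImplicit false

namespace Pool.Agent.MP_914aa3_co.Cl

/-- the stone on `e - 1` jumps to the right over `e, e + 2, ...` and lands on `q` -/
structure MR (P Q : Finset ℤ) (e q : ℤ) : Prop where
  a : e - 1 ∈ P
  b : e ∈ P
  lt : e < q
  par : (q - e) % 2 = 1
  path : ∀ y, e < y → y ≤ q → (y ∈ P ↔ (y - e) % 2 = 0)
  mem : ∀ x, x ∈ Q ↔ x = q ∨ (x ∈ P ∧ (x < e - 1 ∨ q < x))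

/-- the stone on `e + 1` jumps to the left over `e, e - 2, ...` and lands on `q` -/
structure ML (P Q : Finset ℤ) (e q : ℤ) : Prop where
  a : e + 1 ∈ P
  b : e ∈ P
  lt : q < e
  par : (e - q) % 2 = 1
  path : ∀ y, q ≤ y → y < e → (y ∈ P ↔ (e - y) % 2 = 0)
  mem : ∀ x, x ∈ Q ↔ x = q ∨ (x ∈ P ∧ (x < q ∨ e + 1 < x))

section
variable {P Q : Finset ℤ} {e q x : ℤ}

theorem MR.same (h : MR P Q e q) (hx : x < e - 1 ∨ q < x) : x ∈ Q ↔ x ∈ P := by
  have := h.lt
  rw [h.mem]
  exact ⟨fun h => h.elim (fun e => by omega) And.left, fun h => Or.inr ⟨h, hx⟩⟩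

theorem MR.out (h : MR P Q e q) (h1 : e - 1 ≤ x) (h2 : x < q) : x ∉ Q := by
  rw [h.mem]; rintro (e | ⟨-, e⟩) <;> omega

theorem MR.land (h : MR P Q e q) : q ∈ Q := (h.mem q).2 (Or.inl rfl)

theorem MR.sub (h : MR P Q e q) (hx : x ∉ P) (hq : x ≠ q) : x ∉ Q := by
  rw [h.mem]; rintro (e | ⟨e, -⟩); exacts [hq e, hx e]

theorem MR.nq (h : MR P Q e q) : q ∉ P := by
  have := h.par
  rw [h.path q h.lt le_rfl]; omega

theorem MR.one (h : MR P Q e q) (hx : e + 2 ∉ P) : q = e + 1 := by
  have := h.par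
  have := h.lt
  by_contra c
  exact hx ((h.path _ (by omega) (by omega)).2 (by omega))

theorem ML.same (h : ML P Q e q) (hx : x < q ∨ e + 1 < x) : x ∈ Q ↔ x ∈ P := by
  have := h.lt
  rw [h.mem]
  exact ⟨fun h => h.elim (fun e => by omega) And.left, fun h => Or.inr ⟨h, hx⟩⟩

theorem ML.out (h : ML P Q e q) (h1 : q < x) (h2 : x ≤ e + 1) : x ∉ Q := by
  rw [h.mem]; rintro (e | ⟨-, e⟩) <;> omega

theorem ML.land (h : ML P Q e q) : q ∈ Q := (h.mem q).2 (Or.inl rfl)

theorem ML.sub (h : ML P Q e q) (hx : x ∉ P) (hq : x ≠ q) : x ∉ Q := by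
  rw [h.mem]; rintro (e | ⟨e, -⟩); exacts [hq e, hx e]

theorem ML.nq (h : ML P Q e q) : q ∉ P := by
  have := h.par
  rw [h.path q le_rfl h.lt]; omega

theorem ML.one (h : ML P Q e q) (hx : e - 2 ∉ P) : q = e - 1 := by
  have := h.par
  have := h.lt
  by_contra c
  exact hx ((h.path _ (by omega) (by omega)).2 (by omega))

theorem exR (ha : e - 1 ∈ P) (hb : e ∈ P) (hlt : e < q) (hp : (q - e) % 2 = 1)
    (h : ∀ y, e < y → y ≤ q → (y ∈ P ↔ (y - e) % 2 = 0)) : ∃ Q, MR P Q e q :=
  ⟨insert q (P.filter fun x => x < e - 1 ∨ q < x), ha, hb, hlt, hp, h, fun x => by simp⟩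

theorem exL (ha : e + 1 ∈ P) (hb : e ∈ P) (hlt : q < e) (hp : (e - q) % 2 = 1)
    (h : ∀ y, q ≤ y → y < e → (y ∈ P ↔ (e - y) % 2 = 0)) : ∃ Q, ML P Q e q :=
  ⟨insert q (P.filter fun x => x < q ∨ e + 1 < x), ha, hb, hlt, hp, h, fun x => by simp⟩

theorem exR1 (ha : e - 1 ∈ P) (hb : e ∈ P) (hc : e + 1 ∉ P) : ∃ Q, MR P Q e (e + 1) :=
  exR ha hb (by omega) (by omega) fun y h1 h2 => by
    obtain rfl : y = e + 1 := by omega
    exact iff_of_false hc (by omega)

theorem exL1 (ha : e + 1 ∈ P) (hb : e ∈ P) (hc : e - 1 ∉ P) : ∃ Q, ML P Q e (e - 1) :=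
  exL ha hb (by omega) (by omega) fun y h1 h2 => by
    obtain rfl : y = e - 1 := by omega
    exact iff_of_false hc (by omega)

theorem MR.move (h : MR P Q e q) {par : ℤ} (hp : (e + 1) % 2 = par) : Move par P Q := by
  have h1 := h.lt
  have h2 := h.par
  obtain ⟨j, hj⟩ : ∃ j : ℕ, q = e - 1 + 2 * j := ⟨((q - e + 1) / 2).toNat, by omega⟩
  refine ⟨e - 1, h.a, by omega, 1, Or.inl rfl, j, by omega, fun i hi => ⟨?_, ?_⟩, ?_⟩
  · rcases Nat.eq_zero_or_pos i with rfl | c
    · simpa using h.b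
    · exact (h.path _ (by omega) (by omega)).2 (by omega)
  · rw [h.path _ (by omega) (by omega)]; omega
  · ext x
    simp only [h.mem, Finset.mem_insert, Finset.mem_sdiff, Finset.mem_erase, Finset.mem_image,
      Finset.mem_range, not_exists, not_and]
    refine or_congr (by omega) ⟨fun c => ⟨⟨by omega, c.1⟩, fun i hi => by omega⟩, fun c => ⟨c.1.2, ?_⟩⟩
    by_contra c'
    have c1 := c.1.1
    have : (x - e) % 2 = 0 := by
      rcases eq_or_ne x e with rfl | c2
      · omega
      · exact (h.path x (by omega) (by omega)).1 c.1.2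
    exact c.2 ((x - e) / 2).toNat (by omega) (by omega)

theorem ML.move (h : ML P Q e q) {par : ℤ} (hp : (e + 1) % 2 = par) : Move par P Q := by
  have h1 := h.lt
  have h2 := h.par
  obtain ⟨j, hj⟩ : ∃ j : ℕ, q = e + 1 - 2 * j := ⟨((e - q + 1) / 2).toNat, by omega⟩
  refine ⟨e + 1, h.a, by omega, -1, Or.inr rfl, j, by omega, fun i hi => ⟨?_, ?_⟩, ?_⟩
  · rcases Nat.eq_zero_or_pos i with rfl | c
    · simpa using h.b
    · exact (h.path _ (by omega) (by omega)).2 (by omega)
  · rw [h.path _ (by omega) (by omega)]; omega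
  · ext x
    simp only [h.mem, Finset.mem_insert, Finset.mem_sdiff, Finset.mem_erase, Finset.mem_image,
      Finset.mem_range, not_exists, not_and]
    refine or_congr (by omega) ⟨fun c => ⟨⟨by omega, c.1⟩, fun i hi => by omega⟩, fun c => ⟨c.1.2, ?_⟩⟩
    by_contra c'
    have c1 := c.1.1
    have : (e - x) % 2 = 0 := by
      rcases eq_or_ne x e with rfl | c2
      · omega
      · exact (h.path x (by omega) (by omega)).1 c.1.2
    exact c.2 ((e - x) / 2).toNat (by omega) (by omega)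

theorem move_cases {par : ℤ} (h : Move par P Q) :
    ∃ e q, (e + 1) % 2 = par ∧ (MR P Q e q ∨ ML P Q e q) := by
  obtain ⟨a, ha, hp, d, hd, j, hj, hall, rfl⟩ := h
  rcases hd with rfl | rfl
  · have hpath : ∀ y, a + 1 < y → y ≤ a + 2 * j → (y ∈ P ↔ (y - (a + 1)) % 2 = 0) := fun y h1 h2 => by
      rcases Int.emod_two_eq_zero_or_one (y - (a + 1)) with c | c
      · have := (hall ((y - a - 1) / 2).toNat (by omega)).1
        rw [show a + 1 * (2 * (((y - a - 1) / 2).toNat : ℤ) + 1) = y by omega] at this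
        exact iff_of_true this c
      · have := (hall ((y - a - 2) / 2).toNat (by omega)).2
        rw [show a + 1 * (2 * (((y - a - 2) / 2).toNat : ℤ) + 2) = y by omega] at this
        exact iff_of_false this (by omega)
    refine ⟨a + 1, a + 2 * j, by omega, Or.inl ⟨by simpa using ha, by simpa using (hall 0 hj).1,
      by omega, by omega, hpath, fun x => ?_⟩⟩
    simp only [Finset.mem_insert, Finset.mem_sdiff, Finset.mem_erase, Finset.mem_image,
      Finset.mem_range, not_exists, not_and]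
    refine or_congr (by omega) ⟨fun c => ⟨c.1.2, ?_⟩, fun c => ⟨⟨by omega, c.1⟩, fun i hi => by omega⟩⟩
    by_contra c'
    have c1 := c.1.1
    have : (x - (a + 1)) % 2 = 0 := by
      rcases eq_or_ne x (a + 1) with rfl | c2
      · omega
      · exact (hpath x (by omega) (by omega)).1 c.1.2
    exact c.2 ((x - a - 1) / 2).toNat (by omega) (by omega)
  · have hpath : ∀ y, a - 2 * j ≤ y → y < a - 1 → (y ∈ P ↔ (a - 1 - y) % 2 = 0) := fun y h1 h2 => by
      rcases Int.emod_two_eq_zero_or_one (a - 1 - y) with c | c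
      · have := (hall ((a - 1 - y) / 2).toNat (by omega)).1
        rw [show a + -1 * (2 * (((a - 1 - y) / 2).toNat : ℤ) + 1) = y by omega] at this
        exact iff_of_true this c
      · have := (hall ((a - 2 - y) / 2).toNat (by omega)).2
        rw [show a + -1 * (2 * (((a - 2 - y) / 2).toNat : ℤ) + 2) = y by omega] at this
        exact iff_of_false this (by omega)
    refine ⟨a - 1, a - 2 * j, by omega, Or.inr ⟨by simpa using ha,
      by simpa [sub_eq_add_neg] using (hall 0 hj).1, by omega, by omega, hpath, fun x => ?_⟩⟩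
    simp only [Finset.mem_insert, Finset.mem_sdiff, Finset.mem_erase, Finset.mem_image,
      Finset.mem_range, not_exists, not_and]
    refine or_congr (by omega) ⟨fun c => ⟨c.1.2, ?_⟩, fun c => ⟨⟨by omega, c.1⟩, fun i hi => by omega⟩⟩
    by_contra c'
    have c1 := c.1.1
    have : (a - 1 - x) % 2 = 0 := by
      rcases eq_or_ne x (a - 1) with rfl | c2
      · omega
      · exact (hpath x (by omega) (by omega)).1 c.1.2
    exact c.2 ((a - 1 - x) / 2).toNat (by omega) (by omega)

end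

/-! ### Links -/

/-- the ends `e` and `f` of two runs are joined by alternating empty and occupied cells -/
structure Link (P : Finset ℤ) (e f : ℤ) : Prop where
  lt : e < f
  par : (f - e) % 2 = 0
  a : e - 1 ∈ P
  b : e ∈ P
  c : f ∈ P
  d : f + 1 ∈ P
  path : ∀ y, e < y → y < f → (y ∈ P ↔ (y - e) % 2 = 0)

def NL (P : Finset ℤ) : Prop := ∀ e f, ¬ Link P e f

def NL1 (P : Finset ℤ) (g : ℤ) : Prop := ∀ e f, Link P e f → e = g - 1 ∧ f = g + 1

section
variable {P Q : Finset ℤ} {e q g : ℤ}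

theorem NL.one (h : NL P) (g : ℤ) : NL1 P g := fun e f c => (h e f c).elim

theorem NL1.nl (h : NL1 P g) (c : g ∈ P ∨ g - 2 ∉ P ∨ g - 1 ∉ P ∨ g + 1 ∉ P ∨ g + 2 ∉ P) : NL P := by
  intro e f l
  obtain ⟨rfl, rfl⟩ := h e f l
  rcases c with c | c | c | c | c
  · have := (l.path g (by omega) (by omega)).1 c
    omega
  · exact c (by simpa [sub_sub] using l.a)
  · exact c l.b
  · exact c l.c
  · exact c (by simpa [add_assoc] using l.d)

theorem Link.adj {f x : ℤ} (l : Link P e f) (h1 : e - 1 ≤ x) (h2 : x ≤ f) : x ∈ P ∨ x + 1 ∈ P := by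
  have := l.par
  have := l.lt
  by_cases c1 : x = e - 1
  · exact Or.inl (c1 ▸ l.a)
  by_cases c2 : x = e
  · exact Or.inl (c2 ▸ l.b)
  by_cases c3 : x = f
  · exact Or.inl (c3 ▸ l.c)
  by_cases c4 : x + 1 = f
  · exact Or.inr (c4 ▸ l.c)
  rw [l.path x (by omega) (by omega), l.path (x + 1) (by omega) (by omega)]
  omega

theorem MR.nl1 (h : MR P Q e q) (hn : NL1 P g) : NL1 Q g := by
  intro a f l
  have h1 := h.lt
  have h2 := h.par
  have h3 := l.lt
  have h4 := l.par
  have o1 : q - 2 ∉ Q := h.out (by omega) (by omega)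
  have o2 : q - 2 + 1 ∉ Q := h.out (by omega) (by omega)
  have o3 : e - 1 ∉ Q := h.out (by omega) (by omega)
  have o4 : e - 1 + 1 ∉ Q := h.out (by omega) (by omega)
  have la : a - 1 < e - 1 ∨ q ≤ a - 1 := by
    by_contra c; exact h.out (by omega) (by omega) l.a
  have lf : f + 1 < e - 1 ∨ q ≤ f + 1 := by
    by_contra c; exact h.out (by omega) (by omega) l.d
  have : f + 1 < e - 1 ∨ q ≤ a - 1 := by
    by_contra c
    exact (l.adj (x := q - 2) (by omega) (by omega)).elim o1 o2
  rcases eq_or_ne q (a - 1) with c | c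
  · have := hn e f ⟨by omega, by omega, h.a, h.b, (h.same (by omega)).1 l.c,
      (h.same (by omega)).1 l.d, fun y c1 c2 => by
        by_cases c3 : y ≤ q
        · exact h.path y c1 c3
        by_cases c4 : y = a
        · exact iff_of_true (c4 ▸ (h.same (by omega)).1 l.b) (by omega)
        rw [← h.same (by omega), l.path y (by omega) c2]; omega⟩
    omega
  · exact hn a f ⟨h3, h4, (h.same (by omega)).1 l.a, (h.same (by omega)).1 l.b,
      (h.same (by omega)).1 l.c, (h.same (by omega)).1 l.d, fun y c1 c2 => by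
        rw [← h.same (by omega), l.path y c1 c2]⟩

theorem ML.nl1 (h : ML P Q e q) (hn : NL1 P g) : NL1 Q g := by
  intro a f l
  have h1 := h.lt
  have h2 := h.par
  have h3 := l.lt
  have h4 := l.par
  have o1 : q + 1 ∉ Q := h.out (by omega) (by omega)
  have o2 : q + 1 + 1 ∉ Q := h.out (by omega) (by omega)
  have la : a - 1 ≤ q ∨ e + 1 < a - 1 := by
    by_contra c; exact h.out (by omega) (by omega) l.a
  have lf : f + 1 ≤ q ∨ e + 1 < f + 1 := by
    by_contra c; exact h.out (by omega) (by omega) l.d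
  have : f + 1 ≤ q ∨ e + 1 < a - 1 := by
    by_contra c
    exact (l.adj (x := q + 1) (by omega) (by omega)).elim o1 o2
  rcases eq_or_ne q (f + 1) with c | c
  · have := hn a e ⟨by omega, by omega, (h.same (by omega)).1 l.a,
      (h.same (by omega)).1 l.b, h.b, h.a, fun y c1 c2 => by
        by_cases c3 : q ≤ y
        · rw [h.path y c3 c2]; omega
        by_cases c4 : y = f
        · exact iff_of_true (c4 ▸ (h.same (by omega)).1 l.c) (by omega)
        rw [← h.same (by omega), l.path y c1 (by omega)]⟩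
    omega
  · exact hn a f ⟨h3, h4, (h.same (by omega)).1 l.a, (h.same (by omega)).1 l.b,
      (h.same (by omega)).1 l.c, (h.same (by omega)).1 l.d, fun y c1 c2 => by
        rw [← h.same (by omega), l.path y c1 c2]⟩

theorem MR.nl (h : MR P Q e q) (hn : NL P) : NL Q := fun a f l => by
  have := h.nl1 (hn.one 0) a f l
  have := h.nl1 (hn.one 1) a f l
  omega

theorem ML.nl (h : ML P Q e q) (hn : NL P) : NL Q := fun a f l => by
  have := h.nl1 (hn.one 0) a f l
  have := h.nl1 (hn.one 1) a f l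
  omega

theorem MR.tri1 (h : MR P Q e q) (hn : NL1 P g) :
    q + 1 ∉ P ∨ (q + 1 ∈ P ∧ q + 2 ∉ P) ∨ (e = g - 1 ∧ q = g) := by
  have h1 := h.lt
  have h2 := h.par
  by_cases c1 : q + 1 ∈ P
  · by_cases c2 : q + 2 ∈ P
    · have := hn e (q + 1) ⟨by omega, by omega, h.a, h.b, c1, by simpa [add_assoc] using c2,
        fun y c3 c4 => h.path y c3 (by omega)⟩
      omega
    · exact Or.inr (Or.inl ⟨c1, c2⟩)
  · exact Or.inl c1

theorem ML.tri1 (h : ML P Q e q) (hn : NL1 P g) :
    q - 1 ∉ P ∨ (q - 1 ∈ P ∧ q - 2 ∉ P) ∨ (e = g + 1 ∧ q = g) := by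
  have h1 := h.lt
  have h2 := h.par
  by_cases c1 : q - 1 ∈ P
  · by_cases c2 : q - 2 ∈ P
    · have := hn (q - 1) e ⟨by omega, by omega, by simpa [sub_sub] using c2, c1, h.b, h.a,
        fun y c3 c4 => by rw [h.path y (by omega) c4]; omega⟩
      omega
    · exact Or.inr (Or.inl ⟨c1, c2⟩)
  · exact Or.inl c1

theorem MR.tri (h : MR P Q e q) (hn : NL P) : q + 1 ∉ P ∨ (q + 1 ∈ P ∧ q + 2 ∉ P) := by
  rcases h.tri1 (hn.one e) with c | c | c
  exacts [Or.inl c, Or.inr c, by omega]

theorem ML.tri (h : ML P Q e q) (hn : NL P) : q - 1 ∉ P ∨ (q - 1 ∈ P ∧ q - 2 ∉ P) := by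
  rcases h.tri1 (hn.one e) with c | c | c
  exacts [Or.inl c, Or.inr c, by omega]

/-- the longest jump -/
theorem maxR (hn : NL1 P g) (ha : e - 1 ∈ P) (hb : e ∈ P) (hc : e + 1 ∉ P) (hg : e ≠ g - 1) :
    ∃ q Q, MR P Q e q ∧ q + 1 ∉ P := by
  have key : ∀ (N : ℕ) (q : ℤ) (Q : Finset ℤ), (P.filter fun x => q < x).card ≤ N → MR P Q e q →
      ∃ q Q, MR P Q e q ∧ q + 1 ∉ P := by
    intro N
    induction N with
    | zero =>
      intro q Q hN h
      refine ⟨q, Q, h, fun c => ?_⟩
      have : 0 < (P.filter fun x => q < x).card := Finset.card_pos.2 ⟨q + 1, by simpa using c⟩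
      omega
    | succ N ih =>
      intro q Q hN h
      have h1 := h.lt
      have h2 := h.par
      rcases h.tri1 hn with c | c | c
      · exact ⟨q, Q, h, c⟩
      · obtain ⟨Q', h'⟩ := exR (q := q + 2) ha hb (by omega) (by omega) fun y c1 c2 => by
          by_cases c3 : y ≤ q
          · exact h.path y c1 c3
          rcases (by omega : y = q + 1 ∨ y = q + 2) with rfl | rfl
          exacts [iff_of_true c.1 (by omega), iff_of_false c.2 (by omega)]
        refine ih _ Q' ?_ h'
        have : (P.filter fun x => q + 2 < x).card < (P.filter fun x => q < x).card :=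
          Finset.card_lt_card ⟨fun x => by simp only [Finset.mem_filter]; exact fun c => ⟨c.1, by omega⟩,
            fun s => by simpa using s (Finset.mem_filter.2 ⟨c.1, (by omega : q < q + 1)⟩)⟩
        omega
      · omega
  obtain ⟨Q, h⟩ := exR1 ha hb hc
  exact key _ _ Q le_rfl h

theorem maxL (hn : NL1 P g) (ha : e + 1 ∈ P) (hb : e ∈ P) (hc : e - 1 ∉ P) (hg : e ≠ g + 1) :
    ∃ q Q, ML P Q e q ∧ q - 1 ∉ P := by
  have key : ∀ (N : ℕ) (q : ℤ) (Q : Finset ℤ), (P.filter fun x => x < q).card ≤ N → ML P Q e q →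
      ∃ q Q, ML P Q e q ∧ q - 1 ∉ P := by
    intro N
    induction N with
    | zero =>
      intro q Q hN h
      refine ⟨q, Q, h, fun c => ?_⟩
      have : 0 < (P.filter fun x => x < q).card := Finset.card_pos.2 ⟨q - 1, by simpa using c⟩
      omega
    | succ N ih =>
      intro q Q hN h
      have h1 := h.lt
      have h2 := h.par
      rcases h.tri1 hn with c | c | c
      · exact ⟨q, Q, h, c⟩
      · obtain ⟨Q', h'⟩ := exL (q := q - 2) ha hb (by omega) (by omega) fun y c1 c2 => by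
          by_cases c3 : q ≤ y
          · exact h.path y c3 c2
          rcases (by omega : y = q - 1 ∨ y = q - 2) with rfl | rfl
          exacts [iff_of_true c.1 (by omega), iff_of_false c.2 (by omega)]
        refine ih _ Q' ?_ h'
        have : (P.filter fun x => x < q - 2).card < (P.filter fun x => x < q).card :=
          Finset.card_lt_card ⟨fun x => by simp only [Finset.mem_filter]; exact fun c => ⟨c.1, by omega⟩,
            fun s => by simpa using s (Finset.mem_filter.2 ⟨c.1, (by omega : q - 1 < q)⟩)⟩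
        omega
      · omega
  obtain ⟨Q, h⟩ := exL1 ha hb hc
  exact key _ _ Q le_rfl h

end

end Pool.Agent.MP_914aa3_co.Cl
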