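import Pool.Agent.MP_914aa3_co.Cl.Stm

/-! The starting positions belong to the families. -/

set_option autoImplicit false

namespace Pool.Agent.MP_914aa3_co.Cl

noncomputable def Pos (l1 g r2 l3 r3 : ℤ) : Finset ℤ :=
  Finset.Icc l1 (g - 1) ∪ Finset.Icc (g + 1) r2 ∪ Finset.Icc l3 r3

theorem mem_Pos {l1 g r2 l3 r3 x : ℤ} : x ∈ Pos l1 g r2 l3 r3 ↔
    (l1 ≤ x ∧ x ≤ g - 1) ∨ (g + 1 ≤ x ∧ x ≤ r2) ∨ (l3 ≤ x ∧ x ≤ r3) := by
  simp only [Pos, Finset.mem_union, Finset.mem_Icc, or_assoc]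

theorem sh_Pos (l1 g r2 l3 r3 : ℤ) :
    sh 1 (Pos l1 g r2 l3 r3) = Pos (l1 + 1) (g + 1) (r2 + 1) (l3 + 1) (r3 + 1) := by
  ext x
  rw [mem_sh, mem_Pos, mem_Pos]; omega

structure Ok (l1 g r2 l3 r3 : ℤ) : Prop where
  a : l1 ≤ g - 1
  b : g + 1 ≤ r2
  c : r2 + 3 ≤ l3
  d : l3 ≤ r3
  e : (l3 - r2) % 2 = 1

section
variable {l1 g r2 l3 r3 : ℤ}

theorem Ok.base0 (h : Ok l1 g r2 l3 r3) : Base0 (Pos l1 g r2 l3 r3) g l1 r2 l3 r3 := by
  obtain ⟨a, b, c, d, e⟩ := h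
  refine ⟨⟨fun x => ?_, fun R hR => ?_, ?_⟩, fun x y l => ?_, c, e, fun _ _ => ?_, fun _ _ => ?_⟩
  · simp only [mem_Pos, List.mem_cons, List.not_mem_nil, or_false, exists_eq_or_imp, exists_eq_left]
    omega
  · simp only [List.mem_cons, List.not_mem_nil, or_false] at hR
    rcases hR with rfl | rfl | rfl <;> simp only <;> omega
  · simp only [List.pairwise_cons, List.mem_cons, List.not_mem_nil, or_false, forall_eq_or_imp,
      forall_eq, Sep, List.Pairwise.nil, and_true, false_imp_iff, implies_true]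
    omega
  · have h1 := l.lt
    have h2 := l.par
    have h3 := mem_Pos.1 l.a
    have h4 := mem_Pos.1 l.b
    have h5 := mem_Pos.1 l.c
    have h6 := mem_Pos.1 l.d
    have h7 := l.path (x + 1) (by omega) (by omega)
    rw [mem_Pos] at h7
    by_cases c1 : y = x + 2
    · omega
    have h8 := l.path (x + 2) (by omega) (by omega)
    have h9 := l.path (x + 3) (by omega) (by omega)
    rw [mem_Pos] at h8 h9
    by_cases c2 : y = x + 4
    · omega
    have h10 := l.path (x + 4) (by omega) (by omega)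
    rw [mem_Pos] at h10
    omega
  · rw [mem_Pos]; omega
  · rw [mem_Pos]; omega

theorem Ok.o3 (h : Ok l1 g r2 l3 r3) : O3 (Pos l1 g r2 l3 r3) l3 r3 := fun _ _ => by
  obtain ⟨a, b, c, d, e⟩ := h
  rw [mem_Pos]; omega

theorem Ok.op3 (h : Ok l1 g r2 l3 r3) : Op1 (Pos l1 g r2 l3 r3) l3 r3 := fun _ _ => by
  obtain ⟨a, b, c, d, e⟩ := h
  simp only [mem_Pos]; omega

theorem Ok.sh (h : Ok l1 g r2 l3 r3) : Ok (l1 + 1) (g + 1) (r2 + 1) (l3 + 1) (r3 + 1) := by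
  obtain ⟨a, b, c, d, e⟩ := h
  exact ⟨by omega, by omega, by omega, by omega, by omega⟩

end

theorem zr_sh (l r : ℤ) : zr (l + 1) (r + 1) = -zr l r := by unfold zr; omega
theorem tr_sh (l r : ℤ) : tr (l + 1) (r + 1) = tr l r := by unfold tr; omega
theorem tr_same {l r : ℤ} (h : l % 2 = r % 2) : tr l r = 0 := if_pos h
theorem zr_idle (l : ℤ) : zr l l = 0 := by unfold zr; omega
theorem zr_mix {l r : ℤ} (h : l % 2 ≠ r % 2) : zr l r = 0 := by unfold zr; omega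
theorem tr_mix {l r : ℤ} (h : l % 2 ≠ r % 2) : tr l r = (r - l + 1) / 2 := if_neg h

/-- `v` is below a good value of `P` -/
def Gd (P : Finset ℤ) (v : Val) : Prop := ∃ w, Good P w ∧ vle v w

/-- the exceptional shapes, with the first cell odd and the third run at distance two -/
def Exc (l1 g r2 l3 r3 : ℤ) : Prop := l3 = r2 + 3 ∧ (r3 - l3) % 2 = 1 ∧
  ((g - l1 = r2 - g ∧ (g - l1) % 4 = 2) ∨ (g - l1 = 1 ∧ (r2 - g) % 2 = 0) ∨
    (g - l1 = 3 ∧ r2 - g = 4 ∧ l3 + 5 ≤ r3))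

/-- both bounds with the value `(z, k, n, t)` for the first two runs -/
def Both (l1 g r2 z k n t : ℤ) : Prop := ∀ l3 r3, Ok l1 g r2 l3 r3 →
  (l3 = r2 + 3 ∨ r2 + 5 ≤ l3) → ¬ Exc l1 g r2 l3 r3 →
  Gd (Pos l1 g r2 l3 r3) ⟨z + zr l3 r3, k, n, t + tr l3 r3⟩ ∧
    Gd (Pos (l1 + 1) (g + 1) (r2 + 1) (l3 + 1) (r3 + 1)) ⟨-(z + zr l3 r3), -k, -n, t + tr l3 r3⟩

section
variable {l1 g r2 : ℤ}

theorem both_oo (h1 : l1 % 2 = 1) (hg : g % 2 = 0) (h2 : r2 % 2 = 1) (a1 : l1 < g - 1)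
    (a2 : g + 1 < r2) : Both l1 g r2 ((g - l1) / 2 + (r2 - g) / 2) 0 0 0 := by
  intro l3 r3 h _ _
  have z1 := zr_sh l3 r3
  have z2 := tr_sh l3 r3
  exact ⟨⟨_, Good.l1 (h.base0.base a1 a2) hg h1 h2 h.o3, vle_eq rfl rfl rfl (by omega)⟩,
    ⟨_, Good.l4 (h.sh.base0.base (by omega) (by omega)) (by omega) (by omega) (by omega),
      vle_eq (by omega) rfl rfl (by omega)⟩⟩

theorem both_oe (h1 : l1 % 2 = 1) (hg : g % 2 = 0) (h2 : r2 % 2 = 0) (a1 : l1 < g - 1)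
    (a2 : g + 1 < r2) :
    Both l1 g r2 (fz ((g - l1) / 2) ((r2 - g) / 2)) (fk ((g - l1) / 2) ((r2 - g) / 2)) 0 0 := by
  intro l3 r3 h hd hx
  have z1 := zr_sh l3 r3
  have z2 := tr_sh l3 r3
  have := h.c
  have := h.d
  have := h.e
  refine ⟨⟨_, Good.l2 (h.base0.base a1 a2) hg h1 h2 (fun _ => by rw [mem_Pos]; omega)
    (fun c1 c2 c3 => ?_), vle_eq rfl rfl rfl (by omega)⟩,
    ⟨_, Good.l5 (h.sh.base0.base (by omega) (by omega)) (by omega) (by omega) (by omega) h.sh.o3,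
      vle_eq ?_ ?_ rfl (by omega)⟩⟩
  · unfold Exc at hx
    rcases hd with hd | hd
    · exact Or.inr (Or.inr (Or.inr (Or.inl (by omega))))
    · exact Or.inl (by simp only [mem_Pos]; omega)
  · simp only [add_sub_add_right_eq_sub]; omega
  · simp only [add_sub_add_right_eq_sub]

theorem both_eo (h1 : l1 % 2 = 1) (hg : g % 2 = 1) (h2 : r2 % 2 = 0) (a1 : l1 < g - 1)
    (a2 : g + 1 < r2) :
    Both l1 g r2 (-fz ((r2 - g) / 2) ((g - l1) / 2)) (-fk ((r2 - g) / 2) ((g - l1) / 2)) 0 0 := by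
  intro l3 r3 h _ _
  have z1 := zr_sh l3 r3
  have z2 := tr_sh l3 r3
  refine ⟨⟨_, Good.l5' (h.base0.base a1 a2) hg h1 h2, vle_eq rfl rfl rfl (by omega)⟩,
    ⟨_, Good.l2' (h.sh.base0.base (by omega) (by omega)) (by omega) (by omega) (by omega) h.sh.o3,
      vle_eq ?_ ?_ rfl (by omega)⟩⟩
  · simp only [add_sub_add_right_eq_sub]; omega
  · simp only [add_sub_add_right_eq_sub, neg_neg]

theorem both_ee (h1 : l1 % 2 = 1) (hg : g % 2 = 1) (h2 : r2 % 2 = 1) (a1 : l1 < g - 1)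
    (a2 : g + 1 < r2) :
    Both l1 g r2 (gz ((g - l1) / 2) ((r2 - g) / 2)) 0 0 (gt ((g - l1) / 2) ((r2 - g) / 2)) := by
  intro l3 r3 h hd hx
  have z1 := zr_sh l3 r3
  have z2 := tr_sh l3 r3
  have := h.c
  have := h.d
  have := h.e
  refine ⟨⟨_, Good.l6 (h.base0.base a1 a2) hg h1 h2 h.o3, vle_eq rfl rfl rfl (by omega)⟩,
    ⟨_, Good.l3 (h.sh.base0.base (by omega) (by omega)) (by omega) (by omega) (by omega)
      (by rw [mem_Pos]; omega) (fun c1 c2 c3 c4 => ?_), vle_eq ?_ rfl rfl ?_⟩⟩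
  · unfold Exc at hx
    rw [mem_Pos]; omega
  · simp only [add_sub_add_right_eq_sub]; omega
  · simp only [add_sub_add_right_eq_sub]; omega

/-- no link and no mixed run among the first two -/
theorem both_d (hi : g - 1 ≤ l1 ∨ r2 ≤ g + 1) (p1 : (g - l1) % 2 = 1) (p2 : (r2 - g) % 2 = 1) :
    Both l1 g r2 (zr l1 (g - 1) + zr (g + 1) r2) 0 0 0 := by
  intro l3 r3 h _ _
  have z1 := zr_sh l3 r3
  have z2 := tr_sh l3 r3
  have z3 : tr l1 (g - 1) = 0 := tr_same (by omega)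
  have z4 : tr (g + 1) r2 = 0 := tr_same (by omega)
  have z5 : tr (l1 + 1) (g + 1 - 1) = 0 := tr_same (by omega)
  have z6 : tr (g + 1 + 1) (r2 + 1) = 0 := tr_same (by omega)
  have z7 := zr_sh (g + 1) r2
  have z8 : zr (l1 + 1) (g + 1 - 1) = -zr l1 (g - 1) := by rw [← zr_sh]; congr 1; ring
  refine ⟨⟨_, Good.d ⟨h.base0.str, h.base0.toNL hi,
      open3 (.triv (by omega)) (.triv (by omega)) h.op3⟩, ?_⟩,
    ⟨_, Good.d ⟨h.sh.base0.str, h.sh.base0.toNL (by omega),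
      open3 (.triv (by omega)) (.triv (by omega)) h.sh.op3⟩, ?_⟩⟩
  all_goals
    simp only [zs_cons, ts_cons, zs_nil, ts_nil]
    exact vle_eq (by omega) rfl rfl (by omega)

theorem both_1e (h1 : l1 = g - 1) (hg : g % 2 = 0) (h2 : r2 % 2 = 0) (a2 : g + 1 < r2) :
    Both l1 g r2 0 0 ((r2 - g) / 2) 0 := by
  intro l3 r3 h hd hx
  have z1 := zr_sh l3 r3
  have z2 := tr_sh l3 r3
  have z3 : tr l1 (g - 1) = 0 := tr_same (by omega)
  have z4 : zr l1 (g - 1) = 0 := h1 ▸ zr_idle _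
  have z5 : zr (g + 1) r2 = 0 := zr_mix (by omega)
  have z6 : tr (g + 1) r2 = _ := tr_mix (by omega)
  have := h.c
  have := h.d
  have := h.e
  refine ⟨⟨_, Good.up (l := g + 1) (r := r2) ⟨h.base0.str, h.base0.toNL (by omega),
      open3 (.triv (by omega)) (fun _ _ => by simp only [mem_Pos]; omega) h.op3⟩ (by simp) a2
      (by omega) (Or.inl ⟨by omega, by rw [mem_Pos]; omega⟩), ?_⟩,
    ⟨_, Good.ua (h.sh.base0.str.drop (by omega)) (h.sh.base0.toNL (by omega)) (by omega) (by omega)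
      (by omega) (by rw [mem_Pos]; omega) (by rw [mem_Pos]; omega) (by omega) (by omega)
      (fun c1 c2 => ?_), vle_eq (by omega) rfl (by omega) (by omega)⟩⟩
  · simp only [zs_cons, ts_cons, zs_nil, ts_nil]
    exact vle_eq (by omega) rfl (by omega) (by omega)
  · unfold Exc at hx
    simp only [mem_Pos]; omega

theorem both_e1 (h1 : l1 % 2 = 1) (hg : g % 2 = 1) (h2 : r2 = g + 1) (a1 : l1 < g - 1) :
    Both l1 g r2 0 0 (-((g - l1) / 2)) 0 := by
  intro l3 r3 h hd hx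
  have z1 := zr_sh l3 r3
  have z2 := tr_sh l3 r3
  have z3 : tr (g + 1 + 1) (r2 + 1) = 0 := tr_same (by omega)
  have z4 : zr (g + 1 + 1) (r2 + 1) = 0 := h2 ▸ zr_idle _
  have z5 : zr (l1 + 1) (g + 1 - 1) = 0 := zr_mix (by omega)
  have z6 : tr (l1 + 1) (g + 1 - 1) = _ := tr_mix (by omega)
  have := h.c
  have := h.d
  have := h.e
  refine ⟨⟨_, Good.ub (Str.dropM (L1 := [(l1, g - 1)]) h.base0.str (by omega))
      (h.base0.toNL (by omega)) a1 h1 (by omega) (by rw [mem_Pos]; omega) (by rw [mem_Pos]; omega)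
      (by omega) (by omega) (fun _ _ => by rw [mem_Pos]; omega),
      vle_eq (by omega) rfl (by omega) (by omega)⟩,
    ⟨_, Good.up (l := l1 + 1) (r := g + 1 - 1) ⟨h.sh.base0.str, h.sh.base0.toNL (by omega),
      open3 (fun _ _ => by simp only [mem_Pos]; omega) (.triv (by omega)) h.sh.op3⟩ (by simp)
      (by omega) (by omega) (Or.inr ⟨by omega, by rw [mem_Pos]; omega⟩), ?_⟩⟩
  simp only [zs_cons, ts_cons, zs_nil, ts_nil]
  exact vle_eq (by omega) rfl (by omega) (by omega)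

theorem both_ex (h1 : l1 % 2 = 1) (a : l1 ≤ g - 1) (b : g + 1 ≤ r2) :
    ∃ z k n t, Both l1 g r2 z k n t := by
  by_cases a1 : l1 < g - 1 <;> by_cases a2 : g + 1 < r2 <;>
    rcases Int.emod_two_eq_zero_or_one g with hg | hg <;>
    rcases Int.emod_two_eq_zero_or_one r2 with h2 | h2
  · exact ⟨_, _, _, _, both_oe h1 hg h2 a1 a2⟩
  · exact ⟨_, _, _, _, both_oo h1 hg h2 a1 a2⟩
  · exact ⟨_, _, _, _, both_eo h1 hg h2 a1 a2⟩
  · exact ⟨_, _, _, _, both_ee h1 hg h2 a1 a2⟩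
  · omega
  · exact ⟨_, _, _, _, both_d (by omega) (by omega) (by omega)⟩
  · exact ⟨_, _, _, _, both_e1 h1 hg (by omega) a1⟩
  · omega
  · exact ⟨_, _, _, _, both_1e (by omega) hg h2 a2⟩
  · exact ⟨_, _, _, _, both_d (by omega) (by omega) (by omega)⟩
  · omega
  · omega
  · omega
  · exact ⟨_, _, _, _, both_d (by omega) (by omega) (by omega)⟩
  · omega
  · omega

end

end Pool.Agent.MP_914aa3_co.Cl
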