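import Pool.Agent.MP_914aa3_co.Cl.Fam

/-! Tools for the closure proofs: move cases, longest jumps, recaptures, crude bounds, tempo. -/

set_option autoImplicit false

namespace Pool.Agent.MP_914aa3_co.Cl

section
variable {P Q : Finset ℤ} {L L1 L2 : List (ℤ × ℤ)} {l r e q g par : ℤ}

theorem Str.cases (h : Str P L) (m : Move par P Q) : ∃ l r q, (l, r) ∈ L ∧ l < r ∧
    ((MR P Q r q ∧ (r + 1) % 2 = par) ∨ (ML P Q l q ∧ (l + 1) % 2 = par)) := by
  obtain ⟨e, q, hp, m | m⟩ := move_cases m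
  · obtain ⟨l, hm, hl⟩ := h.endR m
    exact ⟨l, e, q, hm, hl, Or.inl ⟨m, hp⟩⟩
  · obtain ⟨r, hm, hl⟩ := h.endL m
    exact ⟨e, r, q, hm, hl, Or.inr ⟨m, hp⟩⟩

theorem Str.cases2 {l2 r2 l3 r3 : ℤ} (h : Str P [(l2, r2), (l3, r3)]) (m : Move par P Q) : ∃ q,
    (l2 < r2 ∧ ML P Q l2 q ∧ (l2 + 1) % 2 = par) ∨ (l2 < r2 ∧ MR P Q r2 q ∧ (r2 + 1) % 2 = par) ∨
    (l3 < r3 ∧ ML P Q l3 q ∧ (l3 + 1) % 2 = par) ∨ (l3 < r3 ∧ MR P Q r3 q ∧ (r3 + 1) % 2 = par) := by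
  obtain ⟨l, r, q, hm, hl, c⟩ := h.cases m
  simp only [List.mem_cons, Prod.mk.injEq, List.not_mem_nil, or_false] at hm
  refine ⟨q, ?_⟩
  rcases hm with ⟨rfl, rfl⟩ | ⟨rfl, rfl⟩ <;> tauto

theorem Str.cases3 {l1 r1 l2 r2 l3 r3 : ℤ} (h : Str P [(l1, r1), (l2, r2), (l3, r3)])
    (m : Move par P Q) : ∃ q,
    (l1 < r1 ∧ ML P Q l1 q ∧ (l1 + 1) % 2 = par) ∨ (l1 < r1 ∧ MR P Q r1 q ∧ (r1 + 1) % 2 = par) ∨
    (l2 < r2 ∧ ML P Q l2 q ∧ (l2 + 1) % 2 = par) ∨ (l2 < r2 ∧ MR P Q r2 q ∧ (r2 + 1) % 2 = par) ∨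
    (l3 < r3 ∧ ML P Q l3 q ∧ (l3 + 1) % 2 = par) ∨ (l3 < r3 ∧ MR P Q r3 q ∧ (r3 + 1) % 2 = par) := by
  obtain ⟨l, r, q, hm, hl, c⟩ := h.cases m
  simp only [List.mem_cons, Prod.mk.injEq, List.not_mem_nil, or_false] at hm
  refine ⟨q, ?_⟩
  rcases hm with ⟨rfl, rfl⟩ | ⟨rfl, rfl⟩ | ⟨rfl, rfl⟩ <;> tauto

/-- the longest jump from the right end of a run -/
theorem Str.jumpR (h : Str P L) (hn : NL1 P g) (hm : (l, r) ∈ L) (hl : l < r) (hg : r ≠ g - 1) :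
    ∃ q Q, MR P Q r q ∧ q + 1 ∉ P :=
  maxR hn (h.mem_run hm hl (by omega) (by omega)) (h.mem_run hm hl hl.le le_rfl) (h.out_r hm hl) hg

theorem Str.jumpL (h : Str P L) (hn : NL1 P g) (hm : (l, r) ∈ L) (hl : l < r) (hg : l ≠ g + 1) :
    ∃ q Q, ML P Q l q ∧ q - 1 ∉ P :=
  maxL hn (h.mem_run hm hl (by omega) (by omega)) (h.mem_run hm hl le_rfl hl.le) (h.out_l hm hl) hg

theorem Str.jumpR' (h : Str P L) (hn : NL P) (hm : (l, r) ∈ L) (hl : l < r) :
    ∃ q Q, MR P Q r q ∧ q + 1 ∉ P := h.jumpR (hn.one r) hm hl (by omega)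

theorem Str.jumpL' (h : Str P L) (hn : NL P) (hm : (l, r) ∈ L) (hl : l < r) :
    ∃ q Q, ML P Q l q ∧ q - 1 ∉ P := h.jumpL (hn.one l) hm hl (by omega)

/-- the single jump from an end of a run -/
theorem Str.oneR (h : Str P L) (hm : (l, r) ∈ L) (hl : l < r) : ∃ Q, MR P Q r (r + 1) :=
  exR1 (h.mem_run hm hl (by omega) (by omega)) (h.mem_run hm hl hl.le le_rfl) (h.out_r hm hl)

theorem Str.oneL (h : Str P L) (hm : (l, r) ∈ L) (hl : l < r) : ∃ Q, ML P Q l (l - 1) :=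
  exL1 (h.mem_run hm hl (by omega) (by omega)) (h.mem_run hm hl le_rfl hl.le) (h.out_l hm hl)

/-- a jump that stops next to a stone is captured back -/
theorem Str.backR (h : Str P (L1 ++ (l, e) :: L2)) (hl : l < e) (m : MR P Q e q) (h1 : q + 1 ∈ P)
    (h2 : q + 2 ∉ P) : ∃ Q', ML Q Q' q (q - 1) ∧ Str Q' (L1 ++ (l, e - 2) :: L2) := by
  have := m.lt
  obtain ⟨Q', m'⟩ := exL1 (e := q) ((m.same (by omega)).2 h1) m.land (m.out (by omega) (by omega))
  exact ⟨Q', m', ((h.pairR hl m h1 h2).plainL0 (by omega) m' (m.out (by omega) (by omega))).drop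
    (by omega)⟩

theorem Str.backL (h : Str P (L1 ++ (e, r) :: L2)) (hl : e < r) (m : ML P Q e q) (h1 : q - 1 ∈ P)
    (h2 : q - 2 ∉ P) : ∃ Q', MR Q Q' q (q + 1) ∧ Str Q' (L1 ++ (e + 2, r) :: L2) := by
  have := m.lt
  obtain ⟨Q', m'⟩ := exR1 (e := q) ((m.same (by omega)).2 h1) m.land (m.out (by omega) (by omega))
  exact ⟨Q', m', ((h.pairL hl m h1 h2).plainR0 (by omega) m' (m.out (by omega) (by omega))).drop
    (by omega)⟩

theorem Str.anyR (h : Str P (L1 ++ (l, e) :: L2)) (hn : NL P) (hl : l < e) (m : MR P Q e q) :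
    ∃ M, Str Q M ∧ zs M = zs L1 + zr l (e - 2) + zs L2 := by
  rcases m.tri hn with c | c
  · exact ⟨_, h.plainR hl m c, by rw [zs_app, zs_cons, add_assoc]⟩
  · exact ⟨_, h.pairR hl m c.1 c.2, by
      rw [zs_cons, zs_app, zs_cons]; simp only [zr]; omega⟩

theorem Str.anyL (h : Str P (L1 ++ (e, r) :: L2)) (hn : NL P) (hl : e < r) (m : ML P Q e q) :
    ∃ M, Str Q M ∧ zs M = zs L1 + zr (e + 2) r + zs L2 := by
  rcases m.tri hn with c | c
  · exact ⟨_, h.plainL hl m c, by rw [zs_app, zs_cons, add_assoc]⟩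
  · exact ⟨_, h.pairL hl m c.1 c.2, by
      rw [zs_cons, zs_app, zs_cons]; simp only [zr]; omega⟩

/-- any value whose number part is below the integer `zs L` is below a good value -/
theorem crude (h : Str P L) (hn : NL P) {v : Val} (hv : nlt v.z v.k (zs L) 0) :
    ∃ w, Good P w ∧ vle v w ∧ vlf v w := by
  by_cases c : ∃ l r, (l, r) ∈ L ∧ l < r ∧ l % 2 ≠ r % 2
  · obtain ⟨l, r, hm, hl, hp⟩ := c
    have a : nlt v.z v.k (zs L) (min v.k (-1) - 1) := by simp only [nlt] at hv ⊢; omega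
    exact ⟨_, Good.d' (z := zs L) (k := min v.k (-1) - 1) h hn hm hl hp
      (Or.inr ⟨rfl, Or.inl ⟨by omega, Or.inr le_rfl⟩⟩), Or.inl a, Or.inl a⟩
  · exact ⟨_, Good.d ⟨h, hn, fun l r hm hl hp => (c ⟨l, r, hm, hl, hp⟩).elim⟩, Or.inl hv, Or.inl hv⟩

theorem crude_lf (h : Str P L) (hn : NL P) {v : Val} (hv : nlt v.z v.k (zs L) 0) :
    ∃ w, Good P w ∧ vlf v w := (crude h hn hv).imp fun _ c => ⟨c.1, c.2.2⟩

theorem crude_le (h : Str P L) (hn : NL P) {v : Val} (hv : nlt v.z v.k (zs L) 0) :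
    ∃ w, Good P w ∧ vle v w := (crude h hn hv).imp fun _ c => ⟨c.1, c.2.1⟩

/-- the even player spends a move in a mixed run -/
theorem tempo' (h : Str P L) (hn : NL P) (hm : (l, r) ∈ L) (hl : l < r) (hp : l % 2 ≠ r % 2) :
    ∃ Q M, Move 0 P Q ∧ Str Q M ∧ NL Q ∧ zs M = zs L := by
  obtain ⟨L1, L2, rfl⟩ := List.append_of_mem hm
  by_cases c : r % 2 = 1
  · obtain ⟨q, Q, m, hq⟩ := h.jumpR' hn hm hl
    exact ⟨Q, _, m.move (by omega), h.plainR hl m hq, m.nl hn, by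
      simp only [zs_app, zs_cons, zr]; omega⟩
  · obtain ⟨q, Q, m, hq⟩ := h.jumpL' hn hm hl
    exact ⟨Q, _, m.move (by omega), h.plainL hl m hq, m.nl hn, by
      simp only [zs_app, zs_cons, zr]; omega⟩

/-- the even player spends a move in a run with two odd ends -/
theorem spend (h : Str P L) (hn : NL P) (hm : (l, r) ∈ L) (hl : l < r) (h1 : l % 2 = 1)
    (h2 : r % 2 = 1) : ∃ Q M, Move 0 P Q ∧ Str Q M ∧ NL Q ∧ zs M = zs L - 1 ∧ ts M = ts L ∧
      ∀ a b, (a, b) ∈ M → a % 2 ≠ b % 2 → (a, b) ∈ L := by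
  obtain ⟨L1, L2, rfl⟩ := List.append_of_mem hm
  obtain ⟨q, Q, m, hq⟩ := h.jumpR' hn hm hl
  refine ⟨Q, _, m.move (by omega), h.plainR hl m hq, m.nl hn, by
    simp only [zs_app, zs_cons, zr]; omega, by simp only [ts_app, ts_cons, tr]; omega, ?_⟩
  intro a b hab hp
  simp only [List.mem_append, List.mem_cons, Prod.mk.injEq] at hab ⊢
  rcases hab with c | c | c
  exacts [Or.inl c, by omega, Or.inr (Or.inr c)]

theorem ex_max (L : List (ℤ × ℤ)) (p : ℤ × ℤ → Prop) (f : ℤ × ℤ → ℤ) (h : ∃ R ∈ L, p R) :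
    ∃ R ∈ L, p R ∧ ∀ T ∈ L, p T → f T ≤ f R := by
  classical
  obtain ⟨R, hR, c⟩ := (L.toFinset.filter p).exists_max_image f (by
    obtain ⟨R, h1, h2⟩ := h
    exact ⟨R, by simp [h1, h2]⟩)
  simp only [Finset.mem_filter, List.mem_toFinset] at hR c
  exact ⟨R, hR.1, hR.2, fun T h1 h2 => c T ⟨h1, h2⟩⟩

/-- a plain jump to the right over an odd end keeps `Dm` when it does not land two cells
before the even left end of a mixed run -/
theorem Dm.mR (h : Dm P (L1 ++ (l, e) :: L2)) (hl : l < e) (he : e % 2 = 1) (m : MR P Q e q)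
    (hq : q + 1 ∉ P) (hx : ∀ a b, (a, b) ∈ L1 ++ L2 → a < b → b % 2 = 1 → a ≠ q + 2) :
    Dm Q (L1 ++ (l, e - 2) :: L2) := by
  have s := h.str.plainR hl m hq
  have h1 := m.lt
  have h2 := m.par
  refine ⟨s, m.nl h.nl, fun a b hab hlt hp => ?_⟩
  have hb : b ∈ Q := s.mem_run hab hlt hlt.le le_rfl
  have hb' : b ≠ q - 2 := fun c => m.out (by omega) (by omega) hb
  have : (a = l ∧ b = e - 2) ∨ (a, b) ∈ L1 ++ L2 := by
    simp only [List.mem_append, List.mem_cons, Prod.mk.injEq] at hab ⊢; tauto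
  rcases this with ⟨rfl, rfl⟩ | c
  · have := h.op a e (by simp) hl (by omega)
    exact ⟨fun d => m.sub (this.1 d) (by omega), fun d => by omega⟩
  · have := h.op a b (by simp only [List.mem_append, List.mem_cons] at c ⊢; tauto) hlt hp
    exact ⟨fun d => m.sub (this.1 d) (by have := hx a b c hlt (by omega); omega),
      fun d => m.sub (this.2 d) (by omega)⟩

theorem Dm.mL (h : Dm P (L1 ++ (e, r) :: L2)) (hl : e < r) (he : e % 2 = 1) (m : ML P Q e q)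
    (hq : q - 1 ∉ P) (hx : ∀ a b, (a, b) ∈ L1 ++ L2 → a < b → a % 2 = 1 → b ≠ q - 2) :
    Dm Q (L1 ++ (e + 2, r) :: L2) := by
  have s := h.str.plainL hl m hq
  have h1 := m.lt
  have h2 := m.par
  refine ⟨s, m.nl h.nl, fun a b hab hlt hp => ?_⟩
  have hb : a ∈ Q := s.mem_run hab hlt le_rfl hlt.le
  have hb' : a ≠ q + 2 := fun c => m.out (by omega) (by omega) hb
  have : (a = e + 2 ∧ b = r) ∨ (a, b) ∈ L1 ++ L2 := by
    simp only [List.mem_append, List.mem_cons, Prod.mk.injEq] at hab ⊢; tauto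
  rcases this with ⟨rfl, rfl⟩ | c
  · have := h.op e b (by simp) hl (by omega)
    exact ⟨fun d => by omega, fun d => m.sub (this.2 d) (by omega)⟩
  · have := h.op a b (by simp only [List.mem_append, List.mem_cons] at c ⊢; tauto) hlt hp
    exact ⟨fun d => m.sub (this.1 d) (by omega),
      fun d => m.sub (this.2 d) (by have := hx a b c hlt (by omega); omega)⟩

/-- a plain jump of the odd player (over an even end) keeps `Dm` -/
theorem Dm.oR (h : Dm P (L1 ++ (l, e) :: L2)) (hl : l < e) (he : e % 2 = 0) (m : MR P Q e q)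
    (hq : q + 1 ∉ P) : Dm Q (L1 ++ (l, e - 2) :: L2) := by
  have h1 := m.lt
  have h2 := m.par
  refine ⟨h.str.plainR hl m hq, m.nl h.nl, fun a b hab hlt hp => ?_⟩
  have : (a = l ∧ b = e - 2) ∨ (a, b) ∈ L1 ++ (l, e) :: L2 := by
    simp only [List.mem_append, List.mem_cons, Prod.mk.injEq] at hab ⊢; tauto
  rcases this with ⟨rfl, rfl⟩ | c
  · exact ⟨fun d => by omega, fun d => m.out (by omega) (by omega)⟩
  · have := h.op a b c hlt hp
    exact ⟨fun d => m.sub (this.1 d) (by omega), fun d => m.sub (this.2 d) (by omega)⟩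

theorem Dm.oL (h : Dm P (L1 ++ (e, r) :: L2)) (hl : e < r) (he : e % 2 = 0) (m : ML P Q e q)
    (hq : q - 1 ∉ P) : Dm Q (L1 ++ (e + 2, r) :: L2) := by
  have h1 := m.lt
  have h2 := m.par
  refine ⟨h.str.plainL hl m hq, m.nl h.nl, fun a b hab hlt hp => ?_⟩
  have : (a = e + 2 ∧ b = r) ∨ (a, b) ∈ L1 ++ (e, r) :: L2 := by
    simp only [List.mem_append, List.mem_cons, Prod.mk.injEq] at hab ⊢; tauto
  rcases this with ⟨rfl, rfl⟩ | c
  · exact ⟨fun d => m.out (by omega) (by omega), fun d => by omega⟩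
  · have := h.op a b c hlt hp
    exact ⟨fun d => m.sub (this.1 d) (by omega), fun d => m.sub (this.2 d) (by omega)⟩

/-- the even player removes one star and stays in `Dm` -/
theorem tempo (h : Dm P L) (hm : (l, r) ∈ L) (hl : l < r) (hp : l % 2 ≠ r % 2) :
    ∃ Q M, Move 0 P Q ∧ Dm Q M ∧ zs M = zs L ∧ ts M = ts L - 1 := by
  by_cases c : ∃ R ∈ L, R.1 < R.2 ∧ R.1 % 2 = 0 ∧ R.2 % 2 = 1
  · obtain ⟨⟨a, b⟩, hR, ⟨h1, h2, h3⟩, hmax⟩ := ex_max L _ Prod.snd c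
    simp only at h1 h2 h3 hmax
    obtain ⟨L1, L2, rfl⟩ := List.append_of_mem hR
    obtain ⟨q, Q, m, hq⟩ := h.str.jumpR' h.nl hR h1
    have := m.lt
    have := m.par
    refine ⟨Q, _, m.move (by omega), h.mR h1 h3 m hq fun x y hxy h4 h5 h6 => ?_,
      by simp only [zs_app, zs_cons, zr]; omega, by simp only [ts_app, ts_cons, tr]; omega⟩
    have := hmax (x, y) (by simp only [List.mem_append, List.mem_cons] at hxy ⊢; tauto)
      ⟨h4, by simp only; omega, h5⟩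
    simp only at this; omega
  · obtain ⟨⟨a, b⟩, hR, ⟨h1, h2, h3⟩, hmax⟩ := ex_max L
      (fun R => R.1 < R.2 ∧ R.1 % 2 = 1 ∧ R.2 % 2 = 0) (fun R => -R.1) ⟨(l, r), hm, hl, by
        by_contra d
        exact c ⟨(l, r), hm, hl, by simp only at d ⊢; omega⟩⟩
    simp only at h1 h2 h3 hmax
    obtain ⟨L1, L2, rfl⟩ := List.append_of_mem hR
    obtain ⟨q, Q, m, hq⟩ := h.str.jumpL' h.nl hR h1
    have := m.lt
    have := m.par
    refine ⟨Q, _, m.move (by omega), h.mL h1 h2 m hq fun x y hxy h4 h5 h6 => ?_,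
      by simp only [zs_app, zs_cons, zr]; omega, by simp only [ts_app, ts_cons, tr]; omega⟩
    have := hmax (x, y) (by simp only [List.mem_append, List.mem_cons] at hxy ⊢; tauto)
      ⟨h4, h5, by simp only; omega⟩
    simp only at this; omega

end

/-! ### The three slot frame -/

section
variable {P Q : Finset ℤ} {g l1 r2 l3 r3 q par : ℤ}

theorem Base0.toNL (h : Base0 P g l1 r2 l3 r3) (c : g - 1 ≤ l1 ∨ r2 ≤ g + 1) : NL P := by
  have h1 := h.gap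
  have h2 := h.str.wf (l1, g - 1) (by simp)
  have h3 := h.str.wf (g + 1, r2) (by simp)
  simp only at h2 h3
  refine h.nl.nl ?_
  by_contra d
  simp only [not_or, not_not] at d
  have a := (h.str.adj (g - 2)).1 ⟨d.2.1, by simpa [show g - 2 + 1 = g - 1 by ring] using d.2.2.1⟩
  have b := (h.str.adj (g + 1)).1 ⟨d.2.2.2.1, by simpa [add_assoc] using d.2.2.2.2⟩
  simp only [List.mem_cons, List.not_mem_nil, or_false, exists_eq_or_imp, exists_eq_left] at a b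
  omega

theorem Base0.base (h : Base0 P g l1 r2 l3 r3) (h1 : l1 < g - 1) (h2 : g + 1 < r2) :
    Base P g l1 r2 l3 r3 := ⟨h, h1, h2⟩

theorem Base.in1 (h : Base P g l1 r2 l3 r3) {x : ℤ} (h1 : l1 ≤ x) (h2 : x ≤ g - 1) : x ∈ P :=
  h.str.mem_run (l := l1) (r := g - 1) (by simp) h.a1 h1 h2

theorem Base.in2 (h : Base P g l1 r2 l3 r3) {x : ℤ} (h1 : g + 1 ≤ x) (h2 : x ≤ r2) : x ∈ P :=
  h.str.mem_run (l := g + 1) (r := r2) (by simp) h.a2 h1 h2

theorem Base0.in3 (h : Base0 P g l1 r2 l3 r3) (a : l3 < r3) {x : ℤ} (h1 : l3 ≤ x) (h2 : x ≤ r3) :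
    x ∈ P := h.str.mem_run (l := l3) (r := r3) (by simp) a h1 h2

theorem Base.out1 (h : Base P g l1 r2 l3 r3) : l1 - 1 ∉ P :=
  h.str.out_l (r := g - 1) (by simp) h.a1

theorem Base.outg (h : Base P g l1 r2 l3 r3) : g ∉ P := by
  simpa using h.str.out_r (l := l1) (r := g - 1) (by simp) h.a1

theorem Base.out2 (h : Base P g l1 r2 l3 r3) : r2 + 1 ∉ P :=
  h.str.out_r (l := g + 1) (by simp) h.a2

theorem Base0.out3l (h : Base0 P g l1 r2 l3 r3) (a : l3 < r3) : l3 - 1 ∉ P :=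
  h.str.out_l (r := r3) (by simp) a

theorem Base0.out3r (h : Base0 P g l1 r2 l3 r3) (a : l3 < r3) : r3 + 1 ∉ P :=
  h.str.out_r (l := l3) (by simp) a

theorem Base.cases (h : Base P g l1 r2 l3 r3) (m : Move par P Q) : ∃ q,
    (ML P Q l1 q ∧ (l1 + 1) % 2 = par) ∨ (MR P Q (g - 1) q ∧ g % 2 = par) ∨
    (ML P Q (g + 1) q ∧ g % 2 = par) ∨ (MR P Q r2 q ∧ (r2 + 1) % 2 = par) ∨
    (l3 < r3 ∧ ML P Q l3 q ∧ (l3 + 1) % 2 = par) ∨ (l3 < r3 ∧ MR P Q r3 q ∧ (r3 + 1) % 2 = par) := by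
  obtain ⟨q, c | c | c | c | c | c⟩ := h.str.cases3 m
  exacts [⟨q, Or.inl c.2⟩, ⟨q, Or.inr (Or.inl ⟨c.2.1, by omega⟩)⟩,
    ⟨q, Or.inr (Or.inr (Or.inl ⟨c.2.1, by omega⟩))⟩, ⟨q, Or.inr (Or.inr (Or.inr (Or.inl c.2)))⟩,
    ⟨q, Or.inr (Or.inr (Or.inr (Or.inr (Or.inl c))))⟩, ⟨q, Or.inr (Or.inr (Or.inr (Or.inr (Or.inr c))))⟩]

theorem Base0.b2R (h : Base0 P g l1 r2 l3 r3) (m : MR P Q r2 q) (a : l3 < r3) : q + 2 ≤ l3 := by
  have := h.gap
  have := h.par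
  have := m.par
  have := m.before (x := l3) (by omega) (h.in3 a le_rfl a.le) (h.in3 a (by omega) (by omega))
  omega

theorem Base.b3L (h : Base P g l1 r2 l3 r3) (m : ML P Q l3 q) : r2 + 2 ≤ q := by
  have := h.gap
  have := h.par
  have := m.par
  have := h.a2
  have := m.before (x := r2) (by omega) (h.in2 (by omega) le_rfl) (h.in2 (by omega) (by omega))
  omega

theorem Base.p1L (h : Base P g l1 r2 l3 r3) (m : ML P Q l1 q) (hq : q - 1 ∉ P) :
    Base0 Q g (l1 + 2) r2 l3 r3 := by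
  have := m.lt
  have := h.a1
  have := h.a2
  have := h.gap
  exact ⟨h.str.plainL0 h.a1 m hq, m.nl1 h.nl, h.gap, h.par,
    fun _ _ => m.out (by omega) (by omega), fun c d => m.sub (h.o3 c d) (by omega)⟩

theorem Base.p2R (h : Base P g l1 r2 l3 r3) (m : MR P Q r2 q) (hq : q + 1 ∉ P) :
    Base0 Q g l1 (r2 - 2) l3 r3 := by
  have := m.lt
  have := h.a1
  have := h.a2
  have := h.gap
  have := h.par
  exact ⟨Str.plainR (L1 := [(l1, g - 1)]) h.str h.a2 m hq, m.nl1 h.nl, by omega, by omega,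
    fun c d => m.sub (h.o1 c d) (by omega),
    fun c d => m.sub (h.o3 c d) (by have := h.b2R m d; omega)⟩

theorem Base.p3L (h : Base P g l1 r2 l3 r3) (a : l3 < r3) (m : ML P Q l3 q) (hq : q - 1 ∉ P) :
    Base Q g l1 r2 (l3 + 2) r3 := by
  have := m.lt
  have := h.a1
  have := h.a2
  have := h.gap
  have := h.par
  have := h.b3L m
  exact ⟨⟨Str.plainL (L1 := [(l1, g - 1), (g + 1, r2)]) h.str a m hq, m.nl1 h.nl, by omega, by omega,
    fun c d => m.sub (h.o1 c d) (by omega), fun c _ => m.sub (h.o3 c a) (by omega)⟩, h.a1, h.a2⟩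

theorem Base.p3R (h : Base P g l1 r2 l3 r3) (a : l3 < r3) (m : MR P Q r3 q) (hq : q + 1 ∉ P) :
    Base Q g l1 r2 l3 (r3 - 2) := by
  have := m.lt
  have := h.a1
  have := h.a2
  have := h.gap
  exact ⟨⟨Str.plainR (L1 := [(l1, g - 1), (g + 1, r2)]) h.str a m hq, m.nl1 h.nl, h.gap, h.par,
    fun c d => m.sub (h.o1 c d) (by omega), fun _ _ => m.out (by omega) (by omega)⟩, h.a1, h.a2⟩

/-- the odd player at an even `l1` has only the single plain jump -/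
theorem Base.o1L (h : Base P g l1 r2 l3 r3) (c : l1 % 2 = 0) (m : ML P Q l1 q) :
    q = l1 - 1 ∧ Base0 Q g (l1 + 2) r2 l3 r3 := by
  have a := h.o1 c h.a1
  obtain rfl := m.one a
  exact ⟨rfl, h.p1L m (by simpa [sub_sub] using a)⟩

/-- the odd player at an even `r3` has only the single plain jump -/
theorem Base.o3R (h : Base P g l1 r2 l3 r3) (a : l3 < r3) (c : r3 % 2 = 0) (m : MR P Q r3 q) :
    q = r3 + 1 ∧ Base Q g l1 r2 l3 (r3 - 2) := by
  have b := h.o3 c a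
  obtain rfl := m.one b
  exact ⟨rfl, h.p3R a m (by simpa [add_assoc] using b)⟩

theorem Base.mgR (h : Base P g l1 r2 l3 r3) (m : MR P Q (g - 1) q) :
    q = g ∧ Str Q [(l1, g - 3), (g, r2), (l3, r3)] ∧ NL Q := by
  obtain ⟨rfl, s⟩ := h.str.mergeR h.a1 h.a2 m
  exact ⟨rfl, s, (m.nl1 h.nl).nl (Or.inl m.land)⟩

theorem Base.mgL (h : Base P g l1 r2 l3 r3) (m : ML P Q (g + 1) q) :
    q = g ∧ Str Q [(l1, g), (g + 3, r2), (l3, r3)] ∧ NL Q := by
  obtain ⟨rfl, s⟩ := h.str.mergeL h.a1 h.a2 m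
  exact ⟨rfl, s, (m.nl1 h.nl).nl (Or.inl m.land)⟩

theorem Base.exR (h : Base P g l1 r2 l3 r3) : ∃ Q, MR P Q (g - 1) g := by
  simpa using h.str.oneR (l := l1) (r := g - 1) (by simp) h.a1

theorem Base.exL (h : Base P g l1 r2 l3 r3) : ∃ Q, ML P Q (g + 1) g := by
  simpa using h.str.oneL (l := g + 1) (r := r2) (by simp) h.a2

theorem Base.j1L (h : Base P g l1 r2 l3 r3) : ∃ q Q, ML P Q l1 q ∧ q - 1 ∉ P :=
  h.str.jumpL (r := g - 1) h.nl (by simp) h.a1 (by have := h.a1; omega)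

theorem Base.j2R (h : Base P g l1 r2 l3 r3) : ∃ q Q, MR P Q r2 q ∧ q + 1 ∉ P :=
  h.str.jumpR (l := g + 1) h.nl (by simp) h.a2 (by have := h.a2; omega)

theorem Base.j3L (h : Base P g l1 r2 l3 r3) (a : l3 < r3) : ∃ q Q, ML P Q l3 q ∧ q - 1 ∉ P :=
  h.str.jumpL (r := r3) h.nl (by simp) a (by have := h.a2; have := h.gap; omega)

theorem Base.j3R (h : Base P g l1 r2 l3 r3) (a : l3 < r3) : ∃ q Q, MR P Q r3 q ∧ q + 1 ∉ P :=
  h.str.jumpR (l := l3) h.nl (by simp) a (by have := h.a2; have := h.gap; omega)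

/-- a jump from `r2` that stops next to a stone is captured back -/
theorem Base.s2R (h : Base P g l1 r2 l3 r3) (m : MR P Q r2 q) (hq : q + 1 ∈ P) :
    q + 2 ∉ P ∧ ∃ Q', ML Q Q' q (q - 1) ∧ Base0 Q' g l1 (r2 - 2) l3 r3 := by
  have := m.lt
  have := h.a1
  have := h.a2
  have := h.gap
  have := h.par
  have h2 : q + 2 ∉ P := by
    rcases m.tri1 h.nl with c | c | c
    exacts [(c hq).elim, c.2, by omega]
  obtain ⟨Q', m', s⟩ := Str.backR (L1 := [(l1, g - 1)]) h.str h.a2 m hq h2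
  exact ⟨h2, Q', m', s, m'.nl1 (m.nl1 h.nl), by omega, by omega,
    fun c d => m'.sub (m.sub (h.o1 c d) (by omega)) (by omega),
    fun c d => by have := h.b2R m d; exact m'.sub (m.sub (h.o3 c d) (by omega)) (by omega)⟩

/-- a jump from `l3` that stops next to a stone is captured back -/
theorem Base.s3L (h : Base P g l1 r2 l3 r3) (a : l3 < r3) (m : ML P Q l3 q) (hq : q - 1 ∈ P) :
    q - 2 ∉ P ∧ ∃ Q', MR Q Q' q (q + 1) ∧ Base Q' g l1 r2 (l3 + 2) r3 := by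
  have := m.lt
  have := h.a1
  have := h.a2
  have := h.gap
  have := h.par
  have := h.b3L m
  have h2 : q - 2 ∉ P := by
    rcases m.tri1 h.nl with c | c | c
    exacts [(c hq).elim, c.2, by omega]
  obtain ⟨Q', m', s⟩ := Str.backL (L1 := [(l1, g - 1), (g + 1, r2)]) h.str a m hq h2
  exact ⟨h2, Q', m', ⟨s, m'.nl1 (m.nl1 h.nl), by omega, by omega,
    fun c d => m'.sub (m.sub (h.o1 c d) (by omega)) (by omega),
    fun c _ => m'.sub (m.sub (h.o3 c a) (by omega)) (by omega)⟩, h.a1, h.a2⟩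

end

end Pool.Agent.MP_914aa3_co.Cl
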