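import Pool.Agent.MP_914aa3_co.Cl.Val

/-! Translating by one cell exchanges the players. -/

set_option autoImplicit false

namespace Pool.Agent.MP_914aa3_co.Cl

theorem sh_sh (d e : ℤ) (h : d + e = 0) (P : Finset ℤ) : sh d (sh e P) = P := by
  ext x
  rw [mem_sh, mem_sh, show x - d - e = x by omega]

theorem move_sh {p p' d : ℤ} {P Q : Finset ℤ} (h : Move p P Q) (hp : (p + d) % 2 = p') :
    Move p' (sh d P) (sh d Q) := by
  obtain ⟨e, q, he, h | h⟩ := move_cases h
  · refine MR.move (e := e + d) (q := q + d) ⟨?_, ?_, by have := h.lt; omega,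
      by have := h.par; omega, fun y h1 h2 => ?_, fun x => ?_⟩ (by omega)
    · rw [mem_sh, show e + d - 1 - d = e - 1 by ring]; exact h.a
    · rw [mem_sh, add_sub_cancel_right]; exact h.b
    · rw [mem_sh, h.path _ (by omega) (by omega)]; omega
    · rw [mem_sh, mem_sh, h.mem]
      exact or_congr (by omega) (and_congr_right fun _ => by omega)
  · refine ML.move (e := e + d) (q := q + d) ⟨?_, ?_, by have := h.lt; omega,
      by have := h.par; omega, fun y h1 h2 => ?_, fun x => ?_⟩ (by omega)
    · rw [mem_sh, show e + d + 1 - d = e + 1 by ring]; exact h.a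
    · rw [mem_sh, add_sub_cancel_right]; exact h.b
    · rw [mem_sh, h.path _ (by omega) (by omega)]; omega
    · rw [mem_sh, mem_sh, h.mem]
      exact or_congr (by omega) (and_congr_right fun _ => by omega)

theorem sum_sh {p p' d : ℤ} {G H : Finset ℤ × Finset ℤ} (h : SumMove p G H)
    (hp : (p + d) % 2 = p') : SumMove p' (sh d G.1, sh d G.2) (sh d H.1, sh d H.2) := by
  rcases h with ⟨h, e⟩ | ⟨e, h⟩
  · exact Or.inl ⟨move_sh h hp, congrArg (sh d) e⟩
  · exact Or.inr ⟨congrArg (sh d) e, move_sh h hp⟩

/-- exchange of the players -/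
def sig (d : ℤ) : S → S
  | .inl G => .inl (sh d G.1, sh d G.2)
  | .inr v => .inr v.neg

theorem neg_neg' (v : Val) : v.neg.neg = v := by simp [Val.neg]

theorem sig_sig (d e : ℤ) (h : d + e = 0) (x : S) : sig d (sig e x) = x := by
  rcases x with G | v
  · simp only [sig, sh_sh d e h]
  · simp only [sig, neg_neg']

theorem oL_sig {d : ℤ} (hd : d % 2 = 1) {x y : S} (h : oL x y) : oR (sig d x) (sig d y) := by
  rcases x with G | v <;> rcases y with H | w
  · exact sum_sh h (by omega)
  · exact h.elim
  · exact h.elim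
  · show VL v.neg.neg w.neg.neg
    rwa [neg_neg', neg_neg']

theorem oR_sig {d : ℤ} (hd : d % 2 = 1) {x y : S} (h : oR x y) : oL (sig d x) (sig d y) := by
  rcases x with G | v <;> rcases y with H | w
  · exact sum_sh h (by omega)
  · exact h.elim
  · exact h.elim
  · exact h

theorem le_sig (x y : S) : ∀ d : ℤ, d % 2 = 1 → (le (sig d x) (sig d y) ↔ le y x) := by
  induction h : rk x + rk y using Nat.strong_induction_on generalizing x y with
  | _ N ih =>
    subst h
    intro d hd
    have hd' : -d % 2 = 1 := by omega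
    rw [le_iff, le_iff y x]
    constructor
    · rintro ⟨h1, h2⟩
      refine ⟨fun y' hy c => h2 _ (oL_sig hd hy) ?_, fun x' hx c => h1 _ (oR_sig hd hx) ?_⟩
      · have := hy.rk_lt
        exact (ih _ (by omega) y' x rfl d hd).2 c
      · have := hx.rk_lt
        exact (ih _ (by omega) y x' rfl d hd).2 c
    · rintro ⟨h1, h2⟩
      refine ⟨fun x' hx c => ?_, fun y' hy c => ?_⟩
      · have k := oL_sig hd' hx
        rw [sig_sig _ _ (by omega)] at k
        have := k.rk_lt
        rw [← sig_sig d (-d) (by omega) x'] at c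
        exact h2 _ k ((ih _ (by omega) y _ rfl d hd).1 c)
      · have k := oR_sig hd' hy
        rw [sig_sig _ _ (by omega)] at k
        have := k.rk_lt
        rw [← sig_sig d (-d) (by omega) y'] at c
        exact h1 _ k ((ih _ (by omega) _ x rfl d hd).1 c)

theorem negS : NegS := fun P v h => (le_sig (.inr v) (.inl (P, ∅)) 1 rfl).1 h

end Pool.Agent.MP_914aa3_co.Cl
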