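import Pool.Agent.MP_914aa3_co.Cl.Val

/-! Soundness of the symbolic order on values. -/

set_option autoImplicit false
set_option linter.unusedSimpArgs false

namespace Pool.Agent.MP_914aa3_co.Cl

theorem nlt_neg_Sound {z k y m : ℤ} (h : nlt z k y m) : nlt (-y) (-m) (-z) (-k) := by
  simp only [nlt] at *
  omega

theorem neq_neg_Sound {z k y m : ℤ} (h : neq z k y m) : neq (-y) (-m) (-z) (-k) := by
  simp only [neq] at *
  omega

theorem vle_neg_Sound {v w : Val} (h : vle v w) : vle w.neg v.neg := by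
  rcases h with h | ⟨h, h'⟩
  · exact Or.inl (nlt_neg_Sound h)
  · exact Or.inr ⟨neq_neg_Sound h, by simp only [Val.neg]; omega⟩

theorem vlf_neg_Sound {v w : Val} (h : vlf v w) : vlf w.neg v.neg := by
  rcases h with h | ⟨h, h'⟩
  · exact Or.inl (nlt_neg_Sound h)
  · exact Or.inr ⟨neq_neg_Sound h, by simp only [Val.neg]; omega⟩

theorem neg_neg_Sound (v : Val) : v.neg.neg = v := by
  cases v
  simp [Val.neg]

theorem left_Sound {v w u : Val} (h : vle v w) (hu : VL v u) : vlf u w := by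
  obtain ⟨z, k, n, t⟩ := v
  obtain ⟨y, m, p, s⟩ := w
  obtain ⟨a, b, c, d⟩ := u
  simp only [VL] at hu
  simp only [vle, vlf] at *
  rcases hu with ⟨h1, h2, h3, h4, hu⟩ | ⟨h1, rfl, rfl, h4⟩ | ⟨h1, h2, rfl, rfl, h4⟩ |
    ⟨h1, rfl, rfl, h4⟩
  · refine Or.inl ?_
    have h' : nlt z k y m ∨ neq z k y m := h.imp_right And.left
    simp only [nlt, neq] at *
    omega
  · exact h.imp_right fun h => ⟨h.1, by omega⟩
  · exact h.imp_right fun h => ⟨h.1, by omega⟩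
  · exact h.imp_right fun h => ⟨h.1, by omega⟩

theorem right_Sound {v w u : Val} (h : vle v w) (hu : VR w u) : vlf v u := by
  have := vlf_neg_Sound (left_Sound (vle_neg_Sound h) hu)
  rwa [neg_neg_Sound, neg_neg_Sound] at this

/-- a value with an infinitesimal part has a left option with the same number part -/
theorem inf_Sound (w : Val) (h : ¬ (w.n = 0 ∧ w.t % 2 = 0)) :
    ∃ u, VL w u ∧ u.z = w.z ∧ u.k = w.k := by
  rcases lt_or_ge w.n 0 with h1 | h1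
  · exact ⟨⟨w.z, w.k, w.n + 1, w.t⟩, Or.inr (Or.inr (Or.inr ⟨h1, rfl, rfl, rfl, rfl⟩)), rfl, rfl⟩
  · exact ⟨⟨w.z, w.k, 0, 0⟩, Or.inr (Or.inl ⟨by omega, rfl, rfl, rfl, rfl⟩), rfl, rfl⟩

theorem nL_Sound {z k t y m s : ℤ} (ht : t % 2 = 0) (hs : s % 2 = 0) (a b : ℤ)
    (h : (m = 0 ∧ 0 < y ∧ a = y - 1 ∧ b = 0) ∨ (0 < m ∧ a = y ∧ b = 0) ∨
      (m = -1 ∧ a = y - 1 ∧ b = 0) ∨ (m < -1 ∧ a = y ∧ b = m + 1))
    (h' : nlt z k a b ∨ neq z k a b) : ∃ u, VL ⟨y, m, 0, s⟩ u ∧ vle ⟨z, k, 0, t⟩ u :=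
  ⟨⟨a, b, 0, 0⟩, Or.inl ⟨rfl, hs, rfl, rfl, h⟩,
    h'.imp_right fun e => ⟨e, Or.inr (Or.inr ⟨rfl, by simpa using ht⟩)⟩⟩

theorem nR_Sound {z k t y m s : ℤ} (ht : t % 2 = 0) (hs : s % 2 = 0) (a b : ℤ)
    (h : (-k = 0 ∧ 0 < -z ∧ -a = -z - 1 ∧ -b = 0) ∨ (0 < -k ∧ -a = -z ∧ -b = 0) ∨
      (-k = -1 ∧ -a = -z - 1 ∧ -b = 0) ∨ (-k < -1 ∧ -a = -z ∧ -b = -k + 1))
    (h' : nlt a b y m ∨ neq a b y m) : ∃ u, VR ⟨z, k, 0, t⟩ u ∧ vle u ⟨y, m, 0, s⟩ :=
  ⟨⟨a, b, 0, 0⟩, Or.inl ⟨rfl, ht, rfl, rfl, h⟩,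
    h'.imp_right fun e => ⟨e, Or.inr (Or.inr ⟨rfl, by simpa using hs⟩)⟩⟩

theorem num_Sound {v w : Val} (h : nlt v.z v.k w.z w.k) :
    (∃ u, VL w u ∧ vle v u) ∨ ∃ u, VR v u ∧ vle u w := by
  by_cases hw : w.n = 0 ∧ w.t % 2 = 0
  swap
  · obtain ⟨u, h1, h2, h3⟩ := inf_Sound w hw
    exact Or.inl ⟨u, h1, Or.inl (by rwa [h2, h3])⟩
  by_cases hv : v.neg.n = 0 ∧ v.neg.t % 2 = 0
  swap
  · obtain ⟨u, h1, h2, h3⟩ := inf_Sound v.neg hv
    refine Or.inr ⟨u.neg, by rwa [VR, neg_neg_Sound], Or.inl ?_⟩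
    simpa only [Val.neg, h2, h3, neg_neg] using h
  obtain ⟨z, k, n, t⟩ := v
  obtain ⟨y, m, p, s⟩ := w
  simp only [Val.neg, neg_eq_zero] at hv hw
  obtain ⟨rfl, hv⟩ := hv
  obtain ⟨rfl, hw⟩ := hw
  simp only [nlt] at h
  by_cases c1 : m < -1
  · exact Or.inl (nL_Sound hv hw y (m + 1) (by omega)
      (by simp only [nlt, neq, true_and, and_true]; omega))
  by_cases c2 : 1 < k
  · exact Or.inr (nR_Sound hv hw z (k - 1) (by omega)
      (by simp only [nlt, neq, true_and, and_true]; omega))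
  by_cases c3 : m = -1
  · exact Or.inl (nL_Sound hv hw (y - 1) 0 (by omega)
      (by simp only [nlt, neq, true_and, and_true]; omega))
  by_cases c4 : k = 1
  · exact Or.inr (nR_Sound hv hw (z + 1) 0 (by omega)
      (by simp only [nlt, neq, true_and, and_true]; omega))
  by_cases c5 : 0 < m
  · exact Or.inl (nL_Sound hv hw y 0 (by omega)
      (by simp only [nlt, neq, true_and, and_true]; omega))
  by_cases c6 : k < 0
  · exact Or.inr (nR_Sound hv hw z 0 (by omega)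
      (by simp only [nlt, neq, true_and, and_true]; omega))
  by_cases c7 : 0 < y
  · exact Or.inl (nL_Sound hv hw (y - 1) 0 (by omega)
      (by simp only [nlt, neq, true_and, and_true]; omega))
  · exact Or.inr (nR_Sound hv hw (z + 1) 0 (by omega)
      (by simp only [nlt, neq, true_and, and_true]; omega))

theorem opt_Sound {v w : Val} (h : vlf v w) :
    (∃ u, VL w u ∧ vle v u) ∨ ∃ u, VR v u ∧ vle u w := by
  rcases h with h | ⟨h, h'⟩
  · exact num_Sound h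
  obtain ⟨z, k, n, t⟩ := v
  obtain ⟨y, m, p, s⟩ := w
  simp only at h h'
  by_cases c1 : p < 0
  · exact Or.inl ⟨⟨y, m, p + 1, s⟩, Or.inr (Or.inr (Or.inr ⟨c1, rfl, rfl, rfl, rfl⟩)),
      Or.inr ⟨h, by simp only; omega⟩⟩
  by_cases c2 : 0 < n
  · exact Or.inr ⟨⟨z, k, n - 1, t⟩, Or.inr (Or.inr (Or.inr
      ⟨by simp only [Val.neg]; omega, rfl, rfl, by simp only [Val.neg]; omega, rfl⟩)),
      Or.inr ⟨h, by simp only; omega⟩⟩
  by_cases c3 : ((p = 0 ∧ s % 2 = 1) ∨ 0 < p) ∧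
      (n ≤ -2 ∨ (n = -1 ∧ t % 2 = 1) ∨ (n = 0 ∧ t % 2 = 0))
  · exact Or.inl ⟨⟨y, m, 0, 0⟩, Or.inr (Or.inl ⟨c3.1, rfl, rfl, rfl, rfl⟩),
      Or.inr ⟨h, by simp only; omega⟩⟩
  by_cases c4 : ((n = 0 ∧ t % 2 = 1) ∨ n < 0) ∧
      (2 ≤ p ∨ (p = 1 ∧ s % 2 = 1) ∨ (p = 0 ∧ s % 2 = 0))
  · exact Or.inr ⟨⟨z, k, 0, 0⟩, Or.inr (Or.inl
      ⟨by simp only [Val.neg]; omega, rfl, rfl, rfl, rfl⟩), Or.inr ⟨h, by simp only; omega⟩⟩
  by_cases c5 : p = 1 ∧ s % 2 = 0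
  · exact Or.inl ⟨⟨y, m, 0, 1⟩, Or.inr (Or.inr (Or.inl ⟨c5.1, c5.2, rfl, rfl, rfl, rfl⟩)),
      Or.inr ⟨h, by simp only; omega⟩⟩
  · exact Or.inr ⟨⟨z, k, 0, 1⟩, Or.inr (Or.inr (Or.inl
      ⟨by simp only [Val.neg]; omega, by simp only [Val.neg]; omega, rfl, rfl, rfl, rfl⟩)),
      Or.inr ⟨h, by simp only; omega⟩⟩

theorem sound : SoundS := by
  intro v w
  induction hN : v.rank + w.rank using Nat.strong_induction_on generalizing v w with
  | _ N ih =>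
    subst hN
    refine ⟨fun h => ?_, fun h c => ?_⟩
    · rw [le_iff]
      refine ⟨fun x hx => ?_, fun x hx => ?_⟩
      · rcases x with H | u
        · exact hx.elim
        · have := VL.rank_lt hx
          exact (ih _ (by omega) u w rfl).2 (left_Sound h hx)
      · rcases x with H | u
        · exact hx.elim
        · have := VR.rank_lt hx
          exact (ih _ (by omega) v u rfl).2 (right_Sound h hx)
    · rcases opt_Sound h with ⟨u, hu, l⟩ | ⟨u, hu, l⟩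
      · have := VL.rank_lt hu
        exact ((le_iff _ _).1 c).1 (.inr u) hu ((ih _ (by omega) v u rfl).1 l)
      · have := VR.rank_lt hu
        exact ((le_iff _ _).1 c).2 (.inr u) hu ((ih _ (by omega) u w rfl).1 l)

end Pool.Agent.MP_914aa3_co.Cl
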