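import Pool.Agent.MP_914aa3_co.Cl.Init
import Pool.Agent.MP_914aa3_co.Cl.Sound
import Pool.Agent.MP_914aa3_co.Cl.Neg
import Pool.Agent.MP_914aa3_co.Cl.Far2

/-! From the closure of the families to the classification. -/

set_option autoImplicit false

namespace Pool.Agent.MP_914aa3_co.Cl

def Closed : Prop := ∀ P v, Good P v → Step Good P v

/-- the first two runs and the third run on separate boards -/
noncomputable def Two (l1 g r2 l3 r3 : ℤ) : Finset ℤ × Finset ℤ :=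
  (Finset.Icc l1 (g - 1) ∪ Finset.Icc (g + 1) r2, Finset.Icc l3 r3)

section
variable {l1 g r2 l3 r3 z k n t : ℤ} {P : Finset ℤ} {v : Val}

theorem Good.lo (hG : Closed) (h : Good P v) : Lo P v := lo_of_step sound hG h

theorem Gd.lo (hG : Closed) (h : Gd P v) : Lo P v := by
  obtain ⟨w, h, l⟩ := h
  exact ((sound _ _).1 l).trans (h.lo hG)

theorem Both.near (hG : Closed) (b : Both l1 g r2 z k n t) (h : Ok l1 g r2 l3 r3)
    (hd : l3 = r2 + 3 ∨ r2 + 5 ≤ l3) (hx : ¬ Exc l1 g r2 l3 r3) :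
    Lo (Pos l1 g r2 l3 r3) ⟨z + zr l3 r3, k, n, t + tr l3 r3⟩ ∧
      Hi (Pos l1 g r2 l3 r3) ⟨z + zr l3 r3, k, n, t + tr l3 r3⟩ :=
  ⟨(b l3 r3 h hd hx).1.lo hG, negS _ _ (by rw [sh_Pos]; exact (b l3 r3 h hd hx).2.lo hG)⟩

theorem Both.sum (hG : Closed) (b : Both l1 g r2 z k n t) (h : Ok l1 g r2 l3 r3) :
    le (.inr ⟨z + zr l3 r3, k, n, t + tr l3 r3⟩) (.inl (Two l1 g r2 l3 r3)) ∧
      le (.inl (Two l1 g r2 l3 r3)) (.inr ⟨z + zr l3 r3, k, n, t + tr l3 r3⟩) := by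
  obtain ⟨a, b', c, d, e⟩ := h
  obtain ⟨D, hD⟩ : ∃ D : ℤ, D = 2 * ((Two l1 g r2 l3 r3).1.card + (Two l1 g r2 l3 r3).2.card) + 4 :=
    ⟨_, rfl⟩
  have f := farS (Two l1 g r2 l3 r3).1 (Two l1 g r2 l3 r3).2 r2 D
    (fun x hx => by simp only [Two, Finset.mem_union, Finset.mem_Icc] at hx; omega)
    (fun x hx => by
      have : l3 ≤ x := (Finset.mem_Icc.1 hx).1
      omega) (by omega)
  have e1 : (Two l1 g r2 l3 r3).1 ∪ sh D (Two l1 g r2 l3 r3).2 = Pos l1 g r2 (l3 + D) (r3 + D) := by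
    ext x
    simp only [Two, mem_Pos, Finset.mem_union, mem_sh, Finset.mem_Icc]; omega
  rw [e1] at f
  have hD2 : D % 2 = 0 ∧ 4 ≤ D := by omega
  clear hD
  have s := b.near hG (l3 := l3 + D) (r3 := r3 + D) ⟨a, b', by omega, by omega, by omega⟩
    (by omega) (fun x => by have := x.1; omega)
  rw [show zr (l3 + D) (r3 + D) = zr l3 r3 by unfold zr; omega,
    show tr (l3 + D) (r3 + D) = tr l3 r3 by unfold tr; omega] at s
  exact ⟨le.trans s.1 f.2, le.trans f.1 s.2⟩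

theorem dec_of (hG : Closed) (h1 : l1 % 2 = 1) (h : Ok l1 g r2 l3 r3) (hd : l3 = r2 + 3)
    (hx : ¬ Exc l1 g r2 l3 r3) :
    le (.inl (Pos l1 g r2 l3 r3, ∅)) (.inl (Two l1 g r2 l3 r3)) ∧
      le (.inl (Two l1 g r2 l3 r3)) (.inl (Pos l1 g r2 l3 r3, ∅)) := by
  obtain ⟨z, k, n, t, b⟩ := both_ex h1 h.a h.b
  have s := b.sum hG h
  have u := b.near hG h (Or.inl hd) hx
  exact ⟨le.trans u.2 s.1, le.trans s.2 u.1⟩

theorem exc_a (hG : Closed) (h1 : l1 % 2 = 1) (h : Ok l1 g r2 l3 r3) (hd : l3 = r2 + 3)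
    (hp : (r3 - l3) % 2 = 1) (c1 : g - l1 = r2 - g) (c2 : (g - l1) % 4 = 2) :
    ¬ le (.inl (Pos l1 g r2 l3 r3, ∅)) (.inl (Two l1 g r2 l3 r3)) := fun c => by
  have := h.a
  have := h.d
  have s := c.trans ((both_ee h1 (by omega) (by omega) (by omega) (by omega)).sum hG h).2
  have b := h.base0.base (by omega) (by omega)
  have z1 : zr l3 r3 = 0 := zr_mix (by omega)
  have z2 : tr l3 r3 = _ := tr_mix (by omega)
  have z3 := gzt ((g - l1) / 2) ((r2 - g) / 2)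
  by_cases e : (r3 - l3) % 4 = 1
  · exact (sound _ _).2 (vlf_star (by omega) rfl rfl (by omega))
      (le.trans ((Good.e6 b (by omega) c1 c2 h.o3 e (Or.inl hd)).lo hG) s)
  · obtain ⟨q, Q, m, hq⟩ := b.j3R (by omega)
    have := m.lt
    have g' := Good.e6 (b.p3R (by omega) m hq) (by omega) c1 c2
      (fun _ _ => m.sub (h.o3 (by omega) (by omega)) (by omega)) (by omega) (Or.inl hd)
    exact not_le_oL (oL_of_move (m.move (by omega)))
      ((s.trans ((sound _ _).1 (vle_eq (by omega) rfl rfl (by omega)))).trans (g'.lo hG))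

theorem exc_b (hG : Closed) (h1 : l1 % 2 = 1) (h : Ok l1 g r2 l3 r3) (hd : l3 = r2 + 3)
    (hp : (r3 - l3) % 2 = 1) (c1 : g - l1 = 1) (c2 : (r2 - g) % 2 = 0) :
    ¬ le (.inl (Pos l1 g r2 l3 r3, ∅)) (.inl (Two l1 g r2 l3 r3)) := fun c => by
  have := h.b
  have := h.d
  have s := c.trans ((both_1e (by omega) (by omega) (by omega) (by omega)).sum hG h).2
  have z1 : zr l3 r3 = 0 := zr_mix (by omega)
  have g' := Good.e1 (l2 := g + 1) (r2 := r2) (l3 := l3) (r3 := r3)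
    ⟨h.base0.str.drop (by omega), h.base0.toNL (by omega),
      open2 (fun _ _ => by simp only [mem_Pos]; omega) h.op3⟩ (by omega) (by omega) (by omega)
    (by omega) (by omega) (by omega) (by omega) (by rw [mem_Pos]; omega) (Or.inl hd)
  exact (sound _ _).2 (vlf_up (by omega) rfl (by omega)) (le.trans (g'.lo hG) s)

theorem exc_c (hG : Closed) (hg : g % 2 = 0) (h : Ok (g - 3) g (g + 4) (g + 7) r3)
    (hp : r3 % 2 = 0) (c1 : g + 12 ≤ r3) :
    ¬ le (.inl (Two (g - 3) g (g + 4) (g + 7) r3)) (.inl (Pos (g - 3) g (g + 4) (g + 7) r3, ∅)) :=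
  fun c => by
  have s := ((both_oe (by omega) hg (by omega) (by omega) (by omega)).sum hG h).1.trans c
  have b := h.sh.base0.base (by omega) (by omega)
  rw [← sh_Pos, show g - 3 + 1 = g + 1 - 3 by ring, show g + 4 + 1 = g + 1 + 4 by ring,
    show g + 7 + 1 = g + 1 + 7 by ring] at b
  have z1 : zr (g + 7) r3 = 0 := zr_mix (by omega)
  have z2 : tr (g + 7) r3 = _ := tr_mix (by omega)
  have z3 := fzk ((g - (g - 3)) / 2) ((g + 4 - g) / 2)
  by_cases e : (r3 - (g + 7)) % 4 = 1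
  · have u : Hi _ ⟨0, 2, 0, 0⟩ := negS _ _ ((Good.n0 b (by omega) (by omega) (by omega)).lo hG)
    exact (sound _ _).2 (vlf_star (by omega) (by omega) rfl (by omega)) (s.trans u)
  · obtain ⟨q, Q, m, hq⟩ := b.j3R (by omega)
    have g' := Good.n0 (b.p3R (by omega) m hq) (by omega) (by omega) (by omega)
    have u : Hi (sh (-1) Q) ⟨0, 2, 0, 0⟩ := negS _ _ (by rw [sh_sh 1 (-1) rfl]; exact g'.lo hG)
    have m' : Move 1 _ (sh (-1) Q) := move_sh (d := -1) (m.move (par := 0) (by omega)) rfl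
    rw [sh_sh (-1) 1 rfl] at m'
    exact not_le_oR (oR_of_move m')
      ((le.trans u ((sound _ _).1 (vle_eq (by omega) (by omega) rfl (by omega)))).trans s)

theorem dec_iff (hG : Closed) (h1 : l1 % 2 = 1) (h : Ok l1 g r2 l3 r3) (hd : l3 = r2 + 3) :
    (le (.inl (Pos l1 g r2 l3 r3, ∅)) (.inl (Two l1 g r2 l3 r3)) ∧
      le (.inl (Two l1 g r2 l3 r3)) (.inl (Pos l1 g r2 l3 r3, ∅))) ↔ ¬ Exc l1 g r2 l3 r3 := by
  refine ⟨?_, dec_of hG h1 h hd⟩
  rintro ⟨c1, c2⟩ ⟨-, hp, c | c | c⟩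
  · exact exc_a hG h1 h hd hp c.1 c.2 c1
  · exact exc_b hG h1 h hd hp c.1 c.2 c1
  · obtain rfl : l1 = g - 3 := by omega
    obtain rfl : r2 = g + 4 := by omega
    obtain rfl : l3 = g + 7 := by omega
    exact exc_c hG (by omega) h (by omega) (by omega) c2

end

theorem classify (hG : Closed) (k m n : ℕ) (hk : 1 ≤ k) (hm : 1 ≤ m) (hn : 1 ≤ n) :
    Decomposes k m n ↔ ¬ ((∃ j, Odd j ∧ k = 2 * j ∧ m = 2 * j ∧ Even n) ∨
      (k = 1 ∧ Even m ∧ Even n) ∨ (k = 3 ∧ m = 4 ∧ Even n ∧ 6 ≤ n)) := by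
  have h := dec_iff hG (l1 := 1) (g := k + 1) (r2 := k + m + 1) (l3 := k + m + 4)
    (r3 := k + m + n + 3) rfl ⟨by omega, by omega, by omega, by omega, by omega⟩ (by omega)
  simp only [Pos, Two, add_sub_cancel_right, show (k : ℤ) + 1 + 1 = k + 2 by ring] at h
  rw [Decomposes, Le_iff_le, Le_iff_le, h]
  refine not_congr ?_
  simp only [Exc, Nat.even_iff, Nat.odd_iff]
  constructor
  · rintro ⟨-, hp, c | c | c⟩
    · exact Or.inl ⟨k / 2, by omega, by omega, by omega, by omega⟩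
    · exact Or.inr (Or.inl (by omega))
    · exact Or.inr (Or.inr (by omega))
  · rintro (⟨j, c⟩ | c | c)
    · exact ⟨by omega, by omega, Or.inl (by omega)⟩
    · exact ⟨by omega, by omega, Or.inr (Or.inl (by omega))⟩
    · exact ⟨by omega, by omega, Or.inr (Or.inr (by omega))⟩

end Pool.Agent.MP_914aa3_co.Cl
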