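import Pool.Agent.MP_914aa3_co.Cl.Lay

/-! Statements of the closure steps, one per family. -/

set_option autoImplicit false

namespace Pool.Agent.MP_914aa3_co.Cl

/-- the condition of `Open` for one slot -/
def Op1 (P : Finset ℤ) (l r : ℤ) : Prop :=
  l < r → l % 2 ≠ r % 2 → (l % 2 = 0 → l - 2 ∉ P) ∧ (r % 2 = 0 → r + 2 ∉ P)

theorem open_nil {P : Finset ℤ} : Open P [] := fun _ _ h => by simp at h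

theorem Open.cons {P : Finset ℤ} {L : List (ℤ × ℤ)} {l r : ℤ} (h1 : Op1 P l r) (h : Open P L) :
    Open P ((l, r) :: L) := fun a b hm => by
  rcases List.mem_cons.1 hm with c | c
  · obtain ⟨rfl, rfl⟩ := Prod.mk.inj c
    exact h1
  · exact h a b c

theorem open2 {P : Finset ℤ} {a b c d : ℤ} (h1 : Op1 P a b) (h2 : Op1 P c d) :
    Open P [(a, b), (c, d)] := (open_nil.cons h2).cons h1

theorem open3 {P : Finset ℤ} {a b c d e f : ℤ} (h1 : Op1 P a b) (h2 : Op1 P c d) (h3 : Op1 P e f) :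
    Open P [(a, b), (c, d), (e, f)] := (open2 h2 h3).cons h1

/-- a slot that is idle or has ends of one parity -/
theorem Op1.triv {P : Finset ℤ} {l r : ℤ} (h : r ≤ l ∨ l % 2 = r % 2) : Op1 P l r :=
  fun _ _ => by omega

/-! ### Comparing values with small arithmetic goals -/

section
variable {z k n t y m n' t' : ℤ} {u : Val}

theorem zt (l r : ℤ) : (l % 2 = 1 ∧ r % 2 = 1 ∧ zr l r = (r - l) / 2 ∧ tr l r = 0) ∨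
    (l % 2 = 0 ∧ r % 2 = 0 ∧ zr l r = -((r - l) / 2) ∧ tr l r = 0) ∨
    (l % 2 ≠ r % 2 ∧ zr l r = 0 ∧ tr l r = (r - l + 1) / 2) := by unfold zr tr; omega

theorem fzk (a b : ℤ) : (b < a ∧ fz a b = a - b ∧ fk a b = 0) ∨
    (a ≤ b ∧ fz a b = 0 ∧ fk a b = b - a + 1) := by unfold fz fk; omega

theorem gzt (a b : ℤ) : (a = b ∧ a % 2 = 0 ∧ gz a b = a ∧ gt a b = 0) ∨
    (a = b ∧ a % 2 = 1 ∧ gz a b = a - 1 ∧ gt a b = 0) ∨ (a < b ∧ gz a b = a ∧ gt a b = b) ∨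
    (b < a ∧ gz a b = b ∧ gt a b = a) := by unfold gz gt; omega

theorem nlt_z (h : z < y) (h' : k ≠ 1 ∨ m ≠ -1 ∨ z + 1 < y) : nlt z k y m :=
  Or.inl ⟨h, by omega⟩
theorem nlt_k (h : z = y) (h' : (k < 0 ∧ (m < k ∨ 0 ≤ m)) ∨ (k = 0 ∧ 0 < m) ∨ (0 < m ∧ m < k)) :
    nlt z k y m := Or.inr ⟨h, by omega⟩
theorem vlf_lt (h : nlt z k y m) : vlf ⟨z, k, n, t⟩ ⟨y, m, n', t'⟩ := Or.inl h
theorem vle_lt (h : nlt z k y m) : vle ⟨z, k, n, t⟩ ⟨y, m, n', t'⟩ := Or.inl h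
theorem vlf_z (h : z < y) : vlf ⟨z, 0, n, t⟩ ⟨y, m, n', t'⟩ := vlf_lt (nlt_z h (by omega))
theorem vle_z (h : z < y) : vle ⟨z, 0, n, t⟩ ⟨y, m, n', t'⟩ := vle_lt (nlt_z h (by omega))
theorem vlf_star (h1 : z = y) (h2 : k = m) (h3 : n' = n) (h4 : (t + t') % 2 = 1) :
    vlf ⟨z, k, n, t⟩ ⟨y, m, n', t'⟩ := Or.inr ⟨Or.inl ⟨h1, h2⟩, Or.inr (Or.inl ⟨h3, h4⟩)⟩
theorem vlf_up (h1 : z = y) (h2 : k = m) (h3 : n + 1 ≤ n') : vlf ⟨z, k, n, t⟩ ⟨y, m, n', t'⟩ :=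
  Or.inr ⟨Or.inl ⟨h1, h2⟩, Or.inl h3⟩
theorem vlf_dn (h1 : z = y) (h2 : k = m) (h3 : n' + 1 = n) (h4 : (t + t') % 2 = 0) :
    vlf ⟨z, k, n, t⟩ ⟨y, m, n', t'⟩ := Or.inr ⟨Or.inl ⟨h1, h2⟩, Or.inr (Or.inr ⟨h3, h4⟩)⟩
theorem vle_eq (h1 : z = y) (h2 : k = m) (h3 : n' = n) (h4 : (t + t') % 2 = 0) :
    vle ⟨z, k, n, t⟩ ⟨y, m, n', t'⟩ := Or.inr ⟨Or.inl ⟨h1, h2⟩, Or.inr (Or.inr ⟨h3, h4⟩)⟩
theorem vle_up1 (h1 : z = y) (h2 : k = m) (h3 : n' = n + 1) (h4 : (t + t') % 2 = 1) :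
    vle ⟨z, k, n, t⟩ ⟨y, m, n', t'⟩ := Or.inr ⟨Or.inl ⟨h1, h2⟩, Or.inr (Or.inl ⟨h3, h4⟩)⟩
theorem vle_up2 (h1 : z = y) (h2 : k = m) (h3 : n + 2 ≤ n') : vle ⟨z, k, n, t⟩ ⟨y, m, n', t'⟩ :=
  Or.inr ⟨Or.inl ⟨h1, h2⟩, Or.inl h3⟩

theorem Val.ext' {u : Val} {a b c d : ℤ} (h1 : u.z = a) (h2 : u.k = b) (h3 : u.n = c) (h4 : u.t = d) :
    u = ⟨a, b, c, d⟩ := by
  obtain ⟨_, _, _, _⟩ := u
  simp only at h1 h2 h3 h4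
  rw [h1, h2, h3, h4]

theorem VL_num (h : VL ⟨z, k, 0, t⟩ u) :
    (t % 2 = 0 ∧ k = 0 ∧ 0 < z ∧ u = ⟨z - 1, 0, 0, 0⟩) ∨ (t % 2 = 0 ∧ 0 < k ∧ u = ⟨z, 0, 0, 0⟩) ∨
    (t % 2 = 0 ∧ k = -1 ∧ u = ⟨z - 1, 0, 0, 0⟩) ∨ (t % 2 = 0 ∧ k < -1 ∧ u = ⟨z, k + 1, 0, 0⟩) ∨
    (t % 2 = 1 ∧ u = ⟨z, k, 0, 0⟩) := by
  rcases h with ⟨-, h0, h1, h2, h | h | h | h⟩ | ⟨h, h1, h2, h3, h4⟩ | ⟨h, -⟩ | ⟨h, -⟩
  · exact Or.inl ⟨h0, h.1, h.2.1, Val.ext' h.2.2.1 h.2.2.2 h1 h2⟩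
  · exact Or.inr (Or.inl ⟨h0, h.1, Val.ext' h.2.1 h.2.2 h1 h2⟩)
  · exact Or.inr (Or.inr (Or.inl ⟨h0, h.1, Val.ext' h.2.1 h.2.2 h1 h2⟩))
  · exact Or.inr (Or.inr (Or.inr (Or.inl ⟨h0, h.1, Val.ext' h.2.1 h.2.2 h1 h2⟩)))
  · exact Or.inr (Or.inr (Or.inr (Or.inr ⟨by simpa using h, Val.ext' h1 h2 h3 h4⟩)))
  · simp at h
  · simp at h

theorem VL_int (h : VL ⟨z, 0, 0, t⟩ u) :
    (t % 2 = 0 ∧ 0 < z ∧ u = ⟨z - 1, 0, 0, 0⟩) ∨ (t % 2 = 1 ∧ u = ⟨z, 0, 0, 0⟩) := by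
  rcases VL_num h with h | h | h | h | h
  exacts [Or.inl ⟨h.1, h.2.2⟩, by omega, by omega, by omega, Or.inr h]

/-- every left option of `number + t star` has number part at most that number -/
theorem VL_le (h : VL ⟨z, k, 0, t⟩ u) (c : nlt z k y m) : nlt u.z u.k y m := by
  unfold nlt at *
  rcases VL_num h with ⟨-, h, h', rfl⟩ | ⟨-, h, rfl⟩ | ⟨-, h, rfl⟩ | ⟨-, h, rfl⟩ | ⟨-, rfl⟩
  all_goals dsimp only; omega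

theorem VL_up (hn : 0 < n) (h : VL ⟨z, k, n, t⟩ u) :
    u = ⟨z, k, 0, 0⟩ ∨ (n = 1 ∧ t % 2 = 0 ∧ u = ⟨z, k, 0, 1⟩) := by
  rcases h with ⟨h, -⟩ | ⟨-, h1, h2, h3, h4⟩ | ⟨h, h0, h1, h2, h3, h4⟩ | ⟨h, -⟩
  · simp only at h; omega
  · exact Or.inl (Val.ext' h1 h2 h3 h4)
  · exact Or.inr ⟨h, h0, Val.ext' h1 h2 h3 h4⟩
  · simp only at h; omega

theorem VL_dn (hn : n < 0) (h : VL ⟨z, k, n, t⟩ u) : u = ⟨z, k, n + 1, t⟩ := by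
  rcases h with ⟨h, -⟩ | ⟨h, -⟩ | ⟨h, -⟩ | ⟨-, h1, h2, h3, h4⟩
  · simp only at h; omega
  · simp only at h; omega
  · simp only at h; omega
  · exact Val.ext' h1 h2 h3 h4

end

def DS : Prop := ∀ (P : Finset ℤ) (L : List (ℤ × ℤ)), Dm P L → Step Good P ⟨zs L, 0, 0, ts L⟩

def DcS : Prop := ∀ (P : Finset ℤ) (L : List (ℤ × ℤ)) (l r z k : ℤ), Str P L → NL P → (l, r) ∈ L →
  l < r → l % 2 ≠ r % 2 → nlt z k (zs L) 0 → Step Good P ⟨z, k, 0, 0⟩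

def UpS : Prop := ∀ (P : Finset ℤ) (L : List (ℤ × ℤ)) (l r : ℤ), Dm P L → (l, r) ∈ L → l < r →
  l % 2 ≠ r % 2 → (l % 2 = 1 ∧ l - 2 ∈ P) ∨ (r % 2 = 1 ∧ r + 2 ∈ P) →
  Step Good P ⟨zs L, 0, (r - l + 1) / 2, ts L - (r - l + 1) / 2⟩

def E1S : Prop := ∀ (P : Finset ℤ) (l2 r2 l3 r3 : ℤ), Dm P [(l2, r2), (l3, r3)] → l2 < r2 →
  l3 < r3 → l2 % 2 = 1 → r2 % 2 = 0 → l3 % 2 = 1 → r3 % 2 = 0 → r2 + 3 ≤ l3 → l2 - 2 ∈ P →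
  l3 = r2 + 3 ∨ l3 - 2 ∈ P → Step Good P ⟨0, 0, (r2 - l2 + 1) / 2 + (r3 - l3 + 1) / 2, 0⟩

def UaS : Prop := ∀ (P : Finset ℤ) (l2 r2 l3 r3 : ℤ), Str P [(l2, r2), (l3, r3)] → NL P → l2 < r2 →
  l2 % 2 = 0 → r2 % 2 = 1 → l2 - 2 ∈ P → l2 - 4 ∉ P → r2 + 3 ≤ l3 → l3 % 2 = 0 →
  (l3 < r3 → r3 % 2 = 1 → l3 - 2 ∉ P ∧ r2 + 5 ≤ l3 ∧ r2 + 2 ∉ P) →
  Step Good P ⟨zr l3 r3, 0, -((r2 - l2 + 1) / 2), tr l3 r3⟩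

def UbS : Prop := ∀ (P : Finset ℤ) (l r l3 r3 : ℤ), Str P [(l, r), (l3, r3)] → NL P → l < r →
  l % 2 = 1 → r % 2 = 0 → r + 2 ∈ P → r + 4 ∉ P → r + 5 ≤ l3 → l3 % 2 = 1 →
  (l3 < r3 → r3 % 2 = 0 → r3 + 2 ∉ P) → Step Good P ⟨zr l3 r3, 0, -((r - l + 1) / 2), tr l3 r3⟩

def BS : Prop := ∀ (P : Finset ℤ) (l2 r2 l3 r3 : ℤ), Str P [(l2, r2), (l3, r3)] → NL P →
  l2 % 2 = 1 → r2 % 2 = 0 → l2 - 2 ∈ P → l2 + 3 ≤ r2 → r2 + 3 ≤ l3 → l3 % 2 = 1 → r3 % 2 = 0 →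
  (l3 < r3 → r3 + 2 ∉ P) → (r2 = l2 + 3 → G12 P r2 l3 r3) → Step Good P ⟨0, 0, 0, tr l3 r3⟩

def ZS : Prop := ∀ (P : Finset ℤ) (e l3 r3 : ℤ), Str P [(e - 1, e), (e + 3, e + 4), (l3, r3)] →
  NL P → e % 2 = 1 → e - 3 ∈ P → e - 5 ∉ P → e + 6 ∈ P → e + 2 ∉ P → e + 9 ≤ l3 → l3 % 2 = 0 →
  r3 % 2 = 1 → (l3 < r3 → l3 - 2 ∉ P) → Step Good P ⟨0, 0, 0, tr l3 r3⟩

def L1S : Prop := ∀ (P : Finset ℤ) (g l1 r2 l3 r3 : ℤ), Base P g l1 r2 l3 r3 → g % 2 = 0 →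
  l1 % 2 = 1 → r2 % 2 = 1 → O3 P l3 r3 →
  Step Good P ⟨(g - l1) / 2 + (r2 - g) / 2 + zr l3 r3, 0, 0, tr l3 r3⟩

/-- family `l2`, third run ending on an odd cell -/
def L2aS : Prop := ∀ (P : Finset ℤ) (g l1 r2 l3 r3 : ℤ), Base P g l1 r2 l3 r3 → g % 2 = 0 →
  l1 % 2 = 1 → r2 % 2 = 0 → r3 % 2 = 1 → r2 + 2 ∉ P →
  Step Good P ⟨fz ((g - l1) / 2) ((r2 - g) / 2) + zr l3 r3, fk ((g - l1) / 2) ((r2 - g) / 2), 0,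
    tr l3 r3⟩

/-- family `l2`, third run ending on an even cell -/
def L2bS : Prop := ∀ (P : Finset ℤ) (g l1 r2 l3 r3 : ℤ), Base P g l1 r2 l3 r3 → g % 2 = 0 →
  l1 % 2 = 1 → r2 % 2 = 0 → r3 % 2 = 0 → (l1 = g - 3 → r2 = g + 4 → G12 P r2 l3 r3) →
  Step Good P ⟨fz ((g - l1) / 2) ((r2 - g) / 2) + zr l3 r3, fk ((g - l1) / 2) ((r2 - g) / 2), 0,
    tr l3 r3⟩

def L2wS : Prop := ∀ (P : Finset ℤ) (g l3 r3 : ℤ), Base P g (g - 3) (g + 4) l3 r3 → g % 2 = 0 →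
  r3 % 2 = 0 → Step Good P ⟨0, 0, 0, tr l3 r3⟩

def L2pS : Prop := ∀ (P : Finset ℤ) (g l1 r2 l3 r3 : ℤ), Base P g l1 r2 l3 r3 → g % 2 = 0 →
  l1 % 2 = 0 → r2 % 2 = 1 → O3 P l3 r3 →
  Step Good P ⟨fz ((r2 - g) / 2) ((g - l1) / 2) + zr l3 r3, fk ((r2 - g) / 2) ((g - l1) / 2), 0,
    tr l3 r3⟩

def L3S : Prop := ∀ (P : Finset ℤ) (g l1 r2 l3 r3 : ℤ), Base P g l1 r2 l3 r3 → g % 2 = 0 →
  l1 % 2 = 0 → r2 % 2 = 0 → r2 + 2 ∉ P →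
  (g - l1 = r2 - g → (g - l1) % 4 = 2 → r3 % 2 = 0 → l3 < r3 → r2 + 3 ∉ P) →
  Step Good P ⟨-gz ((g - l1) / 2) ((r2 - g) / 2) + zr l3 r3, 0, 0,
    gt ((g - l1) / 2) ((r2 - g) / 2) + tr l3 r3⟩

def W3S : Prop := ∀ (P : Finset ℤ) (g l1 r2 l3 r3 : ℤ), Base P g l1 r2 l3 r3 → g % 2 = 0 →
  g - l1 = r2 - g → (g - l1) % 4 = 2 → r3 % 2 = 0 → Step Good P ⟨-((g - l1) / 2), 2, 0, tr l3 r3⟩

def L3cS : Prop := ∀ (P : Finset ℤ) (g l1 r2 l3 r3 z k : ℤ), Base P g l1 r2 l3 r3 → g % 2 = 0 →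
  l1 % 2 = 0 → r2 % 2 = 0 → r3 % 2 = 0 → nlt z k (-min ((g - l1) / 2) ((r2 - g) / 2)) 0 →
  Step Good P ⟨z, k, 0, 0⟩

def L4S : Prop := ∀ (P : Finset ℤ) (g l1 r2 l3 r3 : ℤ), Base P g l1 r2 l3 r3 → g % 2 = 1 →
  l1 % 2 = 0 → r2 % 2 = 0 → Step Good P ⟨-((g - l1) / 2) - (r2 - g) / 2 + zr l3 r3, 0, 0, tr l3 r3⟩

def L5S : Prop := ∀ (P : Finset ℤ) (g l1 r2 l3 r3 : ℤ), Base P g l1 r2 l3 r3 → g % 2 = 1 →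
  l1 % 2 = 0 → r2 % 2 = 1 → O3 P l3 r3 →
  Step Good P ⟨-fz ((g - l1) / 2) ((r2 - g) / 2) + zr l3 r3, -fk ((g - l1) / 2) ((r2 - g) / 2), 0,
    tr l3 r3⟩

def N0S : Prop := ∀ (P : Finset ℤ) (g r3 : ℤ), Base P g (g - 3) (g + 4) (g + 7) r3 → g % 2 = 1 →
  r3 % 2 = 1 → g + 10 ≤ r3 → Step Good P ⟨0, -2, 0, 0⟩

def N1S : Prop := ∀ (P : Finset ℤ) (g r3 : ℤ), Base P g (g - 3) (g + 4) (g + 9) r3 → g % 2 = 1 →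
  r3 % 2 = 1 → g + 7 ∉ P → g + 6 ∈ P → g + 10 ≤ r3 → Step Good P ⟨0, -3, 0, 0⟩

def N2S : Prop := ∀ (P : Finset ℤ) (g l3 r3 : ℤ), Base P g (g - 3) (g + 4) l3 r3 → g % 2 = 1 →
  r3 % 2 = 1 → O3 P l3 r3 → g + 6 ∈ P → g + 8 ∈ P → g + 11 ≤ l3 → Step Good P ⟨0, 0, 0, tr l3 r3⟩

def L5pS : Prop := ∀ (P : Finset ℤ) (g l1 r2 l3 r3 : ℤ), Base P g l1 r2 l3 r3 → g % 2 = 1 →
  l1 % 2 = 1 → r2 % 2 = 0 →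
  Step Good P ⟨-fz ((r2 - g) / 2) ((g - l1) / 2) + zr l3 r3, -fk ((r2 - g) / 2) ((g - l1) / 2), 0,
    tr l3 r3⟩

def L6S : Prop := ∀ (P : Finset ℤ) (g l1 r2 l3 r3 : ℤ), Base P g l1 r2 l3 r3 → g % 2 = 1 →
  l1 % 2 = 1 → r2 % 2 = 1 → O3 P l3 r3 →
  Step Good P ⟨gz ((g - l1) / 2) ((r2 - g) / 2) + zr l3 r3, 0, 0,
    gt ((g - l1) / 2) ((r2 - g) / 2) + tr l3 r3⟩

def E6S : Prop := ∀ (P : Finset ℤ) (g l1 r2 l3 r3 : ℤ), Base P g l1 r2 l3 r3 → g % 2 = 1 →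
  g - l1 = r2 - g → (g - l1) % 4 = 2 → O3 P l3 r3 → (r3 - l3) % 4 = 1 →
  l3 = r2 + 3 ∨ r2 + 2 ∈ P → Step Good P ⟨(g - l1) / 2 - 1, 0, 0, 0⟩

theorem step_all (d : DS) (dc : DcS) (up : UpS) (e1 : E1S) (ua : UaS) (ub : UbS) (b : BS) (z : ZS)
    (l1 : L1S) (l2a : L2aS) (l2b : L2bS) (l2w : L2wS) (l2p : L2pS) (l3 : L3S) (w3 : W3S)
    (l3c : L3cS) (l4 : L4S) (l5 : L5S) (n0 : N0S) (n1 : N1S) (n2 : N2S) (l5p : L5pS) (l6 : L6S)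
    (e6 : E6S) (P : Finset ℤ) (v : Val) (h : Good P v) : Step Good P v := by
  cases h
  · apply d; assumption
  · apply dc <;> assumption
  · apply up <;> assumption
  · apply e1 <;> assumption
  · apply ua <;> assumption
  · apply ub <;> assumption
  · apply b <;> assumption
  · apply z <;> assumption
  · apply l1 <;> assumption
  · rename_i g a r2 l3 r3 h1 h2 h3 h4 h5 h6
    rcases Int.emod_two_eq_zero_or_one r3 with c | c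
    exacts [l2b _ _ _ _ _ _ h1 h2 h3 h4 c (h6 c), l2a _ _ _ _ _ _ h1 h2 h3 h4 c (h5 c)]
  · apply l2w <;> assumption
  · apply l2p <;> assumption
  · apply l3 <;> assumption
  · apply w3 <;> assumption
  · apply l3c <;> assumption
  · apply l4 <;> assumption
  · apply l5 <;> assumption
  · apply n0 <;> assumption
  · apply n1 <;> assumption
  · apply n2 <;> assumption
  · apply l5p <;> assumption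
  · apply l6 <;> assumption
  · apply e6 <;> assumption

end Pool.Agent.MP_914aa3_co.Cl
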