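import Pool.Agent.MP_914aa3_co.Cl.Val

/-! The list of runs of a position and how moves change it. -/

set_option autoImplicit false

namespace Pool.Agent.MP_914aa3_co.Cl

def Sep (R T : ℤ × ℤ) : Prop := R.2 ≤ R.1 ∨ T.2 ≤ T.1 ∨ R.2 + 1 < T.1 ∨ T.2 + 1 < R.1

/-- `L` lists all runs `(l, r)` with `l < r` of `P`; entries with `r ≤ l` are idle slots -/
structure Str (P : Finset ℤ) (L : List (ℤ × ℤ)) : Prop where
  adj : ∀ x, (x ∈ P ∧ x + 1 ∈ P) ↔ ∃ R ∈ L, R.1 ≤ x ∧ x < R.2
  wf : ∀ R ∈ L, R.1 ≤ R.2 + 1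
  sep : L.Pairwise Sep

section
variable {P Q : Finset ℤ} {L L' L1 L2 : List (ℤ × ℤ)} {l r e q x : ℤ}

theorem Sep.symm {R T : ℤ × ℤ} (h : Sep R T) : Sep T R := by unfold Sep at *; omega

theorem Str.sep' (h : Str P L) {R T : ℤ × ℤ} (hR : R ∈ L) (hT : T ∈ L) : R = T ∨ Sep R T := by
  by_cases c : R = T
  · exact Or.inl c
  · have : Std.Symm Sep := ⟨fun _ _ => Sep.symm⟩
    exact Or.inr (List.Pairwise.forall h.sep hR hT c)

theorem Str.mem_run (h : Str P L) (hm : (l, r) ∈ L) (hl : l < r) (h1 : l ≤ x) (h2 : x ≤ r) :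
    x ∈ P := by
  rcases eq_or_lt_of_le h2 with rfl | c
  · simpa using ((h.adj (x - 1)).2 ⟨_, hm, by simp only; omega, by simp only; omega⟩).2
  · exact ((h.adj x).2 ⟨_, hm, h1, c⟩).1

theorem Str.out_l (h : Str P L) (hm : (l, r) ∈ L) (hl : l < r) : l - 1 ∉ P := fun c => by
  obtain ⟨R, hR, h1, h2⟩ := (h.adj (l - 1)).1 ⟨c, h.mem_run hm hl (by omega) (by omega)⟩
  rcases h.sep' hm hR with rfl | s
  · simp only at h1; omega
  · simp only [Sep] at s; omega

theorem Str.out_r (h : Str P L) (hm : (l, r) ∈ L) (hl : l < r) : r + 1 ∉ P := fun c => by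
  obtain ⟨R, hR, h1, h2⟩ := (h.adj r).1 ⟨h.mem_run hm hl (by omega) (by omega), c⟩
  rcases h.sep' hm hR with rfl | s
  · simp only at h2; omega
  · simp only [Sep] at s; omega

theorem Str.perm (h : Str P L) (p : L.Perm L') : Str P L' :=
  ⟨fun x => by rw [h.adj]; simp only [p.mem_iff], fun R hR => h.wf R (p.mem_iff.2 hR),
    (p.pairwise_iff Sep.symm).1 h.sep⟩

theorem Str.drop (h : Str P ((l, r) :: L)) (hi : r ≤ l) : Str P L :=
  ⟨fun x => by
    rw [h.adj]
    simp only [List.mem_cons, exists_eq_or_imp]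
    exact ⟨fun c => c.resolve_left (by omega), Or.inr⟩,
   fun R hR => h.wf R (List.mem_cons_of_mem _ hR), (List.pairwise_cons.1 h.sep).2⟩

theorem Str.add (h : Str P L) (h1 : r ≤ l) (h2 : l ≤ r + 1) : Str P ((l, r) :: L) :=
  ⟨fun x => by
    rw [h.adj]
    simp only [List.mem_cons, exists_eq_or_imp]
    exact ⟨Or.inr, fun c => c.resolve_left (by omega)⟩,
   fun R hR => by
    rcases List.mem_cons.1 hR with rfl | c
    exacts [h2, h.wf R c],
   List.pairwise_cons.2 ⟨fun _ _ => Or.inl h1, h.sep⟩⟩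

theorem Str.dropM (h : Str P (L1 ++ (l, r) :: L2)) (hi : r ≤ l) : Str P (L1 ++ L2) :=
  (h.perm List.perm_middle).drop hi

theorem Str.addM (h : Str P (L1 ++ L2)) (h1 : r ≤ l) (h2 : l ≤ r + 1) :
    Str P (L1 ++ (l, r) :: L2) := (h.add h1 h2).perm List.perm_middle.symm

/-- a move to the right starts at the right end of a listed run -/
theorem Str.endR (h : Str P L) (m : MR P Q e q) : ∃ l, (l, e) ∈ L ∧ l < e := by
  obtain ⟨⟨a, b⟩, hR, h1, h2⟩ := (h.adj (e - 1)).1 ⟨m.a, by simpa using m.b⟩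
  simp only at h1 h2
  have := m.lt
  have c : b = e := by
    by_contra c
    have := (m.path (e + 1) (by omega) (by omega)).1 (h.mem_run hR (by omega) (by omega) (by omega))
    omega
  exact ⟨a, c ▸ hR, by omega⟩

theorem Str.endL (h : Str P L) (m : ML P Q e q) : ∃ r, (e, r) ∈ L ∧ e < r := by
  obtain ⟨⟨a, b⟩, hR, h1, h2⟩ := (h.adj e).1 ⟨m.b, m.a⟩
  simp only at h1 h2
  have := m.lt
  have c : a = e := by
    by_contra c
    have := (m.path (e - 1) (by omega) (by omega)).1 (h.mem_run hR (by omega) (by omega) (by omega))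
    omega
  exact ⟨b, c ▸ hR, by omega⟩

/-- a jump to the right stops before any run that starts to the right of `e` -/
theorem MR.before (m : MR P Q e q) (h1 : e < x) (h2 : x ∈ P) (h3 : x + 1 ∈ P) : q < x := by
  by_contra c
  have := m.par
  have := (m.path x h1 (by omega)).1 h2
  have := (m.path (x + 1) (by omega) (by omega)).1 h3
  omega

theorem ML.before (m : ML P Q e q) (h1 : x < e) (h2 : x ∈ P) (h3 : x - 1 ∈ P) : x < q := by
  by_contra c
  have := m.par
  have := (m.path x (by omega) h1).1 h2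
  have := (m.path (x - 1) (by omega) (by omega)).1 h3
  omega

theorem Str.farR (h : Str P ((l, e) :: L)) (hl : l < e) (m : MR P Q e q) {R : ℤ × ℤ} (hR : R ∈ L)
    (ha : R.1 < R.2) : R.2 + 1 < l ∨ q < R.1 := by
  have s := (List.pairwise_cons.1 h.sep).1 R hR
  simp only [Sep] at s
  have hR' : (R.1, R.2) ∈ (l, e) :: L := List.mem_cons_of_mem _ hR
  by_cases c : R.2 + 1 < l
  · exact Or.inl c
  · exact Or.inr (m.before (by omega) (h.mem_run hR' ha le_rfl ha.le)
      (h.mem_run hR' ha (by omega) (by omega)))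

theorem Str.farL (h : Str P ((e, r) :: L)) (hl : e < r) (m : ML P Q e q) {R : ℤ × ℤ} (hR : R ∈ L)
    (ha : R.1 < R.2) : r + 1 < R.1 ∨ R.2 < q := by
  have s := (List.pairwise_cons.1 h.sep).1 R hR
  simp only [Sep] at s
  have hR' : (R.1, R.2) ∈ (e, r) :: L := List.mem_cons_of_mem _ hR
  by_cases c : r + 1 < R.1
  · exact Or.inl c
  · exact Or.inr (m.before (by omega) (h.mem_run hR' ha ha.le le_rfl)
      (h.mem_run hR' ha (by omega) (by omega)))

theorem Str.adjR (h : Str P ((l, e) :: L)) (hl : l < e) (m : MR P Q e q) (x : ℤ) :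
    (x ∈ Q ∧ x + 1 ∈ Q) ↔
      (x = q ∧ q + 1 ∈ P) ∨ (l ≤ x ∧ x < e - 2) ∨ ∃ R ∈ L, R.1 ≤ x ∧ x < R.2 := by
  have h1 := m.lt
  constructor
  · rintro ⟨c1, c2⟩
    by_cases d1 : x = q
    · exact Or.inl ⟨d1, d1 ▸ (m.same (by omega)).1 c2⟩
    have d2 : x < e - 1 ∨ q < x := by by_contra d; exact m.out (by omega) (by omega) c1
    have d3 : x + 1 < e - 1 ∨ q < x + 1 := by by_contra d; exact m.out (by omega) (by omega) c2
    obtain ⟨R, hR, c⟩ := (h.adj x).1 ⟨(m.same d2).1 c1, (m.same d3).1 c2⟩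
    rcases List.mem_cons.1 hR with rfl | hR
    · simp only at c; exact Or.inr (Or.inl (by omega))
    · exact Or.inr (Or.inr ⟨R, hR, c⟩)
  · rintro (⟨rfl, c⟩ | c | ⟨R, hR, c⟩)
    · exact ⟨m.land, (m.same (by omega)).2 c⟩
    · have := (h.adj x).2 ⟨(l, e), List.mem_cons_self, c.1, by simp only; omega⟩
      exact ⟨(m.same (by omega)).2 this.1, (m.same (by omega)).2 this.2⟩
    · have := (h.adj x).2 ⟨R, List.mem_cons_of_mem _ hR, c⟩
      have f := h.farR hl m hR (by omega)
      exact ⟨(m.same (by omega)).2 this.1, (m.same (by omega)).2 this.2⟩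

theorem Str.adjL (h : Str P ((e, r) :: L)) (hl : e < r) (m : ML P Q e q) (x : ℤ) :
    (x ∈ Q ∧ x + 1 ∈ Q) ↔
      (x = q - 1 ∧ q - 1 ∈ P) ∨ (e + 2 ≤ x ∧ x < r) ∨ ∃ R ∈ L, R.1 ≤ x ∧ x < R.2 := by
  have h1 := m.lt
  constructor
  · rintro ⟨c1, c2⟩
    by_cases d1 : x = q - 1
    · exact Or.inl ⟨d1, d1 ▸ (m.same (by omega)).1 c1⟩
    have d3 : x + 1 < q ∨ e + 1 < x + 1 := by by_contra d; exact m.out (by omega) (by omega) c2
    have d2 : x < q ∨ e + 1 < x := by by_contra d; exact m.out (by omega) (by omega) c1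
    obtain ⟨R, hR, c⟩ := (h.adj x).1 ⟨(m.same d2).1 c1, (m.same d3).1 c2⟩
    rcases List.mem_cons.1 hR with rfl | hR
    · simp only at c; exact Or.inr (Or.inl (by omega))
    · exact Or.inr (Or.inr ⟨R, hR, c⟩)
  · rintro (⟨rfl, c⟩ | c | ⟨R, hR, c⟩)
    · exact ⟨(m.same (by omega)).2 c, by simpa using m.land⟩
    · have := (h.adj x).2 ⟨(e, r), List.mem_cons_self, by simp only; omega, c.2⟩
      exact ⟨(m.same (by omega)).2 this.1, (m.same (by omega)).2 this.2⟩
    · have := (h.adj x).2 ⟨R, List.mem_cons_of_mem _ hR, c⟩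
      have f := h.farL hl m hR (by omega)
      exact ⟨(m.same (by omega)).2 this.1, (m.same (by omega)).2 this.2⟩

theorem Str.plainR0 (h : Str P ((l, e) :: L)) (hl : l < e) (m : MR P Q e q) (hq : q + 1 ∉ P) :
    Str Q ((l, e - 2) :: L) := by
  refine ⟨fun x => ?_, fun R hR => ?_, List.pairwise_cons.2 ⟨fun R hR => ?_,
    (List.pairwise_cons.1 h.sep).2⟩⟩
  · rw [h.adjR hl m]; simp [hq]
  · rcases List.mem_cons.1 hR with rfl | c
    exacts [by simp only; omega, h.wf R (List.mem_cons_of_mem _ c)]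
  · have := (List.pairwise_cons.1 h.sep).1 R hR
    simp only [Sep] at this ⊢; omega

theorem Str.plainL0 (h : Str P ((e, r) :: L)) (hl : e < r) (m : ML P Q e q) (hq : q - 1 ∉ P) :
    Str Q ((e + 2, r) :: L) := by
  refine ⟨fun x => ?_, fun R hR => ?_, List.pairwise_cons.2 ⟨fun R hR => ?_,
    (List.pairwise_cons.1 h.sep).2⟩⟩
  · rw [h.adjL hl m]; simp [hq]
  · rcases List.mem_cons.1 hR with rfl | c
    exacts [by simp only; omega, h.wf R (List.mem_cons_of_mem _ c)]
  · have := (List.pairwise_cons.1 h.sep).1 R hR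
    simp only [Sep] at this ⊢; omega

theorem Str.pairR0 (h : Str P ((l, e) :: L)) (hl : l < e) (m : MR P Q e q) (h1 : q + 1 ∈ P)
    (h2 : q + 2 ∉ P) : Str Q ((q, q + 1) :: (l, e - 2) :: L) := by
  have := m.lt
  refine ⟨fun x => ?_, fun R hR => ?_, List.pairwise_cons.2 ⟨fun R hR => ?_,
    List.pairwise_cons.2 ⟨fun R hR => ?_, (List.pairwise_cons.1 h.sep).2⟩⟩⟩
  · rw [h.adjR hl m]
    simp only [h1, and_true, List.mem_cons, exists_eq_or_imp]
    exact or_congr (by omega) Iff.rfl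
  · rcases List.mem_cons.1 hR with rfl | c
    · simp only; omega
    rcases List.mem_cons.1 c with rfl | c
    exacts [by simp only; omega, h.wf R (List.mem_cons_of_mem _ c)]
  · rcases List.mem_cons.1 hR with rfl | c
    · simp only [Sep]; omega
    by_cases a : R.1 < R.2
    · have f := h.farR hl m c a
      have c' : (R.1, R.2) ∈ (l, e) :: L := List.mem_cons_of_mem _ c
      have : R.1 ≠ q + 1 := fun d => h2 (h.mem_run c' a (by omega) (by omega))
      have : R.1 ≠ q + 2 := fun d => h2 (h.mem_run c' a (by omega) (by omega))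
      simp only [Sep]; omega
    · simp only [Sep]; omega
  · have := (List.pairwise_cons.1 h.sep).1 R hR
    simp only [Sep] at this ⊢; omega

theorem Str.pairL0 (h : Str P ((e, r) :: L)) (hl : e < r) (m : ML P Q e q) (h1 : q - 1 ∈ P)
    (h2 : q - 2 ∉ P) : Str Q ((q - 1, q) :: (e + 2, r) :: L) := by
  have := m.lt
  refine ⟨fun x => ?_, fun R hR => ?_, List.pairwise_cons.2 ⟨fun R hR => ?_,
    List.pairwise_cons.2 ⟨fun R hR => ?_, (List.pairwise_cons.1 h.sep).2⟩⟩⟩
  · rw [h.adjL hl m]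
    simp only [h1, and_true, List.mem_cons, exists_eq_or_imp]
    exact or_congr (by omega) Iff.rfl
  · rcases List.mem_cons.1 hR with rfl | c
    · simp only; omega
    rcases List.mem_cons.1 c with rfl | c
    exacts [by simp only; omega, h.wf R (List.mem_cons_of_mem _ c)]
  · rcases List.mem_cons.1 hR with rfl | c
    · simp only [Sep]; omega
    by_cases a : R.1 < R.2
    · have f := h.farL hl m c a
      have c' : (R.1, R.2) ∈ (e, r) :: L := List.mem_cons_of_mem _ c
      have : R.2 ≠ q - 1 := fun d => h2 (h.mem_run c' a (by omega) (by omega))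
      have : R.2 ≠ q - 2 := fun d => h2 (h.mem_run c' a (by omega) (by omega))
      simp only [Sep]; omega
    · simp only [Sep]; omega
  · have := (List.pairwise_cons.1 h.sep).1 R hR
    simp only [Sep] at this ⊢; omega

theorem Str.plainR (h : Str P (L1 ++ (l, e) :: L2)) (hl : l < e) (m : MR P Q e q)
    (hq : q + 1 ∉ P) : Str Q (L1 ++ (l, e - 2) :: L2) :=
  ((h.perm List.perm_middle).plainR0 hl m hq).perm List.perm_middle.symm

theorem Str.plainL (h : Str P (L1 ++ (e, r) :: L2)) (hl : e < r) (m : ML P Q e q)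
    (hq : q - 1 ∉ P) : Str Q (L1 ++ (e + 2, r) :: L2) :=
  ((h.perm List.perm_middle).plainL0 hl m hq).perm List.perm_middle.symm

theorem Str.pairR (h : Str P (L1 ++ (l, e) :: L2)) (hl : l < e) (m : MR P Q e q) (h1 : q + 1 ∈ P)
    (h2 : q + 2 ∉ P) : Str Q ((q, q + 1) :: (L1 ++ (l, e - 2) :: L2)) :=
  ((h.perm List.perm_middle).pairR0 hl m h1 h2).perm (List.perm_middle.symm.cons _)

theorem Str.pairL (h : Str P (L1 ++ (e, r) :: L2)) (hl : e < r) (m : ML P Q e q) (h1 : q - 1 ∈ P)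
    (h2 : q - 2 ∉ P) : Str Q ((q - 1, q) :: (L1 ++ (e + 2, r) :: L2)) :=
  ((h.perm List.perm_middle).pairL0 hl m h1 h2).perm (List.perm_middle.symm.cons _)

/-- jump into the one cell gap `g` from the left run -/
theorem Str.mergeR {g : ℤ} (h : Str P ((l, g - 1) :: (g + 1, r) :: L)) (hl : l < g - 1)
    (hr : g + 1 < r) (m : MR P Q (g - 1) q) : q = g ∧ Str Q ((l, g - 3) :: (g, r) :: L) := by
  have hm : (g + 1, r) ∈ (l, g - 1) :: (g + 1, r) :: L := by simp
  have h1 : g + 1 ∈ P := h.mem_run hm hr le_rfl hr.le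
  have h0 := m.lt
  have hq := m.before (x := g + 1) (by omega) h1 (h.mem_run hm hr (by omega) (by omega))
  obtain rfl : q = g := by omega
  have s1 := List.pairwise_cons.1 h.sep
  have s2 := List.pairwise_cons.1 s1.2
  refine ⟨rfl, fun x => ?_, fun R hR => ?_, List.pairwise_cons.2 ⟨fun R hR => ?_,
    List.pairwise_cons.2 ⟨fun R hR => ?_, s2.2⟩⟩⟩
  · rw [h.adjR hl m]
    simp only [h1, and_true, List.mem_cons, exists_eq_or_imp]
    generalize (∃ a ∈ L, a.1 ≤ x ∧ x < a.2) = T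
    by_cases c : T <;> simp only [c, or_true, or_false]
    omega
  · rcases List.mem_cons.1 hR with rfl | c
    · simp only; omega
    rcases List.mem_cons.1 c with rfl | c
    exacts [by simp only; omega, h.wf R (by simp [c])]
  · rcases List.mem_cons.1 hR with rfl | c
    · simp only [Sep]; omega
    have := s1.1 R (by simp [c])
    simp only [Sep] at this ⊢; omega
  · have a1 := s1.1 R (by simp [hR])
    have a2 := s2.1 R hR
    simp only [Sep] at a1 a2 ⊢; omega

/-- jump into the one cell gap `g` from the right run -/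
theorem Str.mergeL {g : ℤ} (h : Str P ((l, g - 1) :: (g + 1, r) :: L)) (hl : l < g - 1)
    (hr : g + 1 < r) (m : ML P Q (g + 1) q) : q = g ∧ Str Q ((l, g) :: (g + 3, r) :: L) := by
  have hm : (l, g - 1) ∈ (l, g - 1) :: (g + 1, r) :: L := by simp
  have h1 : g - 1 ∈ P := h.mem_run hm hl hl.le le_rfl
  have h0 := m.lt
  have hq := m.before (x := g - 1) (by omega) h1 (h.mem_run hm hl (by omega) (by omega))
  obtain rfl : q = g := by omega
  have s1 := List.pairwise_cons.1 h.sep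
  have s2 := List.pairwise_cons.1 s1.2
  refine ⟨rfl, fun x => ?_, fun R hR => ?_, List.pairwise_cons.2 ⟨fun R hR => ?_,
    List.pairwise_cons.2 ⟨fun R hR => ?_, s2.2⟩⟩⟩
  · rw [(h.perm (List.Perm.swap _ _ _)).adjL hr m]
    simp only [h1, and_true, List.mem_cons, exists_eq_or_imp]
    generalize (∃ a ∈ L, a.1 ≤ x ∧ x < a.2) = T
    by_cases c : T <;> simp only [c, or_true, or_false]
    omega
  · rcases List.mem_cons.1 hR with rfl | c
    · simp only; omega
    rcases List.mem_cons.1 c with rfl | c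
    exacts [by simp only; omega, h.wf R (by simp [c])]
  · rcases List.mem_cons.1 hR with rfl | c
    · simp only [Sep]; omega
    have a1 := s1.1 R (by simp [c])
    have a2 := s2.1 R c
    simp only [Sep] at a1 a2 ⊢; omega
  · have a2 := s2.1 R hR
    simp only [Sep] at a2 ⊢; omega

end

/-! ### Sums over the runs -/

/-- integer value of a run: odd ends give moves to the even player -/
def zr (l r : ℤ) : ℤ :=
  if l % 2 = 1 ∧ r % 2 = 1 then (r - l) / 2 else if l % 2 = 0 ∧ r % 2 = 0 then -((r - l) / 2) else 0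

/-- number of stars of a run with ends of both parities -/
def tr (l r : ℤ) : ℤ := if l % 2 = r % 2 then 0 else (r - l + 1) / 2

def zs (L : List (ℤ × ℤ)) : ℤ := (L.map fun R => zr R.1 R.2).sum

def ts (L : List (ℤ × ℤ)) : ℤ := (L.map fun R => tr R.1 R.2).sum

theorem zs_nil : zs [] = 0 := rfl
theorem ts_nil : ts [] = 0 := rfl
theorem zs_cons (l r : ℤ) (L : List (ℤ × ℤ)) : zs ((l, r) :: L) = zr l r + zs L := by simp [zs]
theorem ts_cons (l r : ℤ) (L : List (ℤ × ℤ)) : ts ((l, r) :: L) = tr l r + ts L := by simp [ts]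
theorem zs_app (L M : List (ℤ × ℤ)) : zs (L ++ M) = zs L + zs M := by simp [zs]
theorem ts_app (L M : List (ℤ × ℤ)) : ts (L ++ M) = ts L + ts M := by simp [ts]

theorem ex_mixed {P : Finset ℤ} {L : List (ℤ × ℤ)} (h : Str P L) (ht : ts L ≠ 0) :
    ∃ l r, (l, r) ∈ L ∧ l < r ∧ l % 2 ≠ r % 2 := by
  have hw := h.wf
  clear h
  induction L with
  | nil => exact (ht rfl).elim
  | cons R L ih =>
    obtain ⟨l, r⟩ := R
    rw [ts_cons] at ht
    by_cases c : ts L = 0
    · have := hw (l, r) List.mem_cons_self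
      simp only [tr] at ht this
      exact ⟨l, r, List.mem_cons_self, by omega, by omega⟩
    · obtain ⟨a, b, hm, d⟩ := ih c fun R hR => hw R (List.mem_cons_of_mem _ hR)
      exact ⟨a, b, List.mem_cons_of_mem _ hm, d⟩

theorem ex_pos {L : List (ℤ × ℤ)} (hw : ∀ R ∈ L, R.1 ≤ R.2 + 1) (hz : 0 < zs L) :
    ∃ l r, (l, r) ∈ L ∧ l < r ∧ l % 2 = 1 ∧ r % 2 = 1 := by
  induction L with
  | nil => exact (lt_irrefl _ hz).elim
  | cons R L ih =>
    obtain ⟨l, r⟩ := R
    rw [zs_cons] at hz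
    by_cases c : 0 < zs L
    · obtain ⟨a, b, hm, d⟩ := ih (fun R hR => hw R (List.mem_cons_of_mem _ hR)) c
      exact ⟨a, b, List.mem_cons_of_mem _ hm, d⟩
    · have := hw (l, r) List.mem_cons_self
      simp only [zr] at hz this
      exact ⟨l, r, List.mem_cons_self, by omega, by omega, by omega⟩

end Pool.Agent.MP_914aa3_co.Cl
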