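import Pool.Agent.MP_914aa3_co.Cl.Geo

/-! Symbolic values `number + n (up star) + t star`, and one game order on positions and values. -/

set_option autoImplicit false

namespace Pool.Agent.MP_914aa3_co.Cl

/-- number part: `z` if `k = 0`, `z + 2^(-k)` if `k > 0`, `z - 2^k` if `k < 0`;
then `n` copies of up-star and `t` copies of star -/
structure Val where
  z : ℤ
  k : ℤ
  n : ℤ
  t : ℤ

def nlt (z k y m : ℤ) : Prop :=
  (z < y ∧ ¬ (y = z + 1 ∧ k = 1 ∧ m = -1)) ∨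
    (z = y ∧ ((k < 0 ∧ (m < k ∨ 0 ≤ m)) ∨ (k = 0 ∧ 0 < m) ∨ (0 < k ∧ 0 < m ∧ m < k)))

def neq (z k y m : ℤ) : Prop :=
  (z = y ∧ k = m) ∨ (y = z + 1 ∧ k = 1 ∧ m = -1) ∨ (z = y + 1 ∧ m = 1 ∧ k = -1)

/-- `v ≤ w` -/
def vle (v w : Val) : Prop :=
  nlt v.z v.k w.z w.k ∨ (neq v.z v.k w.z w.k ∧
    (v.n + 2 ≤ w.n ∨ (w.n = v.n + 1 ∧ (v.t + w.t) % 2 = 1) ∨ (w.n = v.n ∧ (v.t + w.t) % 2 = 0)))

/-- `v` is less than or confused with `w` -/
def vlf (v w : Val) : Prop :=
  nlt v.z v.k w.z w.k ∨ (neq v.z v.k w.z w.k ∧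
    (v.n + 1 ≤ w.n ∨ (w.n = v.n ∧ (v.t + w.t) % 2 = 1) ∨ (w.n + 1 = v.n ∧ (v.t + w.t) % 2 = 0)))

/-- left options of a value -/
def VL (v w : Val) : Prop :=
  (v.n = 0 ∧ v.t % 2 = 0 ∧ w.n = 0 ∧ w.t = 0 ∧
    ((v.k = 0 ∧ 0 < v.z ∧ w.z = v.z - 1 ∧ w.k = 0) ∨ (0 < v.k ∧ w.z = v.z ∧ w.k = 0) ∨
      (v.k = -1 ∧ w.z = v.z - 1 ∧ w.k = 0) ∨ (v.k < -1 ∧ w.z = v.z ∧ w.k = v.k + 1))) ∨
  (((v.n = 0 ∧ v.t % 2 = 1) ∨ 0 < v.n) ∧ w.z = v.z ∧ w.k = v.k ∧ w.n = 0 ∧ w.t = 0) ∨
  (v.n = 1 ∧ v.t % 2 = 0 ∧ w.z = v.z ∧ w.k = v.k ∧ w.n = 0 ∧ w.t = 1) ∨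
  (v.n < 0 ∧ w.z = v.z ∧ w.k = v.k ∧ w.n = v.n + 1 ∧ w.t = v.t)

def Val.neg (v : Val) : Val := ⟨-v.z, -v.k, -v.n, v.t⟩

/-- right options of a value -/
def VR (v w : Val) : Prop := VL v.neg w.neg

def Val.rank (v : Val) : ℕ :=
  v.z.natAbs + (if v.k = 0 then 0 else v.k.natAbs + 1) + 2 * v.n.natAbs + (v.t % 2).toNat

theorem VL.rank_lt {v w : Val} (h : VL v w) : w.rank < v.rank := by
  simp only [VL] at h
  simp only [Val.rank]
  split_ifs <;> omega

theorem VR.rank_lt {v w : Val} (h : VR v w) : w.rank < v.rank := by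
  simp only [VR, VL, Val.neg] at h
  simp only [Val.rank]
  split_ifs <;> omega

/-- positions (two boards) and values in one type -/
abbrev S := (Finset ℤ × Finset ℤ) ⊕ Val

def oL : S → S → Prop
  | .inl G, .inl H => SumMove 0 G H
  | .inr v, .inr w => VL v w
  | _, _ => False

def oR : S → S → Prop
  | .inl G, .inl H => SumMove 1 G H
  | .inr v, .inr w => VR v w
  | _, _ => False

def rk : S → ℕ
  | .inl G => G.1.card + G.2.card
  | .inr v => v.rank

theorem oL.rk_lt {x y : S} (h : oL x y) : rk y < rk x := by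
  rcases x with G | v <;> rcases y with H | w
  exacts [SumMove.card_lt h, h.elim, h.elim, VL.rank_lt h]

theorem oR.rk_lt {x y : S} (h : oR x y) : rk y < rk x := by
  rcases x with G | v <;> rcases y with H | w
  exacts [SumMove.card_lt h, h.elim, h.elim, VR.rank_lt h]

def le (x y : S) : Prop := (∀ x', oL x x' → ¬ le y x') ∧ (∀ y', oR y y' → ¬ le y' x)
termination_by rk x + rk y
decreasing_by
  · have := oL.rk_lt ‹oL x x'›; omega
  · have := oR.rk_lt ‹oR y y'›; omega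

theorem le_iff (x y : S) :
    le x y ↔ (∀ x', oL x x' → ¬ le y x') ∧ (∀ y', oR y y' → ¬ le y' x) := by rw [le]

theorem le.rfl' (x : S) : le x x := by
  induction h : rk x using Nat.strong_induction_on generalizing x with
  | _ N ih =>
    subst h
    rw [le_iff]
    exact ⟨fun x' hx c => ((le_iff _ _).1 c).1 x' hx (ih _ hx.rk_lt x' rfl),
      fun x' hx c => ((le_iff _ _).1 c).2 x' hx (ih _ hx.rk_lt x' rfl)⟩

theorem le.trans {x y z : S} (h1 : le x y) (h2 : le y z) : le x z := by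
  induction h : rk x + rk y + rk z using Nat.strong_induction_on generalizing x y z with
  | _ N ih =>
    subst h
    rw [le_iff]
    refine ⟨fun x' hx c => ((le_iff _ _).1 h1).1 x' hx (ih _ ?_ h2 c rfl),
      fun z' hz c => ((le_iff _ _).1 h2).2 z' hz (ih _ ?_ c h1 rfl)⟩
    · have := hx.rk_lt; omega
    · have := hz.rk_lt; omega

/-- nothing is below one of its left options -/
theorem not_le_oL {x x' : S} (h : oL x x') : ¬ le x x' := ((le_iff _ _).1 (le.rfl' x)).1 x' h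

theorem not_le_oR {x x' : S} (h : oR x x') : ¬ le x' x := ((le_iff _ _).1 (le.rfl' x)).2 x' h

/-- simulation -/
theorem le_of_sim (R : S → S → Prop)
    (hL : ∀ x y x', R x y → oL x x' → ∃ y', oL y y' ∧ R x' y')
    (hR : ∀ x y y', R x y → oR y y' → ∃ x', oR x x' ∧ R x' y') {x y : S} (h : R x y) : le x y := by
  induction hN : rk x + rk y using Nat.strong_induction_on generalizing x y with
  | _ N ih =>
    subst hN
    rw [le_iff]
    refine ⟨fun x' hx c => ?_, fun y' hy c => ?_⟩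
    · obtain ⟨y', hy, h'⟩ := hL x y x' h hx
      have := hx.rk_lt
      have := hy.rk_lt
      exact not_le_oL hy (c.trans (ih _ (by omega) h' rfl))
    · obtain ⟨x', hx, h'⟩ := hR x y y' h hy
      have := hx.rk_lt
      have := hy.rk_lt
      exact not_le_oR hx ((ih _ (by omega) h' rfl).trans c)

theorem Le_iff_le (G H : Finset ℤ × Finset ℤ) : Le G H ↔ le (.inl G) (.inl H) := by
  induction hN : G.1.card + G.2.card + (H.1.card + H.2.card) using Nat.strong_induction_on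
    generalizing G H with
  | _ N ih =>
    subst hN
    rw [le_iff, Le]
    refine and_congr ⟨fun h x' hx => ?_, fun h G' hG => ?_⟩ ⟨fun h x' hx => ?_, fun h G' hG => ?_⟩
    · rcases x' with G' | v
      · have := SumMove.card_lt hx
        rw [← ih _ (by omega) H G' rfl]; exact h G' hx
      · exact hx.elim
    · have := SumMove.card_lt hG
      rw [ih _ (by omega) H G' rfl]; exact h (.inl G') hG
    · rcases x' with G' | v
      · have := SumMove.card_lt hx
        rw [← ih _ (by omega) G' G rfl]; exact h G' hx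
      · exact hx.elim
    · have := SumMove.card_lt hG
      rw [ih _ (by omega) G' G rfl]; exact h (.inl G') hG

/-- the value `v` is a lower bound of the position `P` -/
def Lo (P : Finset ℤ) (v : Val) : Prop := le (.inr v) (.inl (P, ∅))

/-- the value `v` is an upper bound of the position `P` -/
def Hi (P : Finset ℤ) (v : Val) : Prop := le (.inl (P, ∅)) (.inr v)

/-- translate a position -/
def sh (d : ℤ) (P : Finset ℤ) : Finset ℤ := P.image (· + d)

theorem mem_sh {d x : ℤ} {P : Finset ℤ} : x ∈ sh d P ↔ x - d ∈ P := by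
  simp only [sh, Finset.mem_image]
  exact ⟨fun ⟨y, h, e⟩ => by rwa [← e, add_sub_cancel_right], fun h => ⟨_, h, by ring⟩⟩

/-- one round of the closure argument for a family `G` of lower bounds -/
def Step (G : Finset ℤ → Val → Prop) (P : Finset ℤ) (v : Val) : Prop :=
  (∀ Q, Move 1 P Q → (∃ w, G Q w ∧ vlf v w) ∨ ∃ Q' w, Move 0 Q Q' ∧ G Q' w ∧ vle v w) ∧
    ∀ u, VL v u → ∃ Q w, Move 0 P Q ∧ G Q w ∧ vle u w

/-- statements of the game layer -/
def SoundS : Prop :=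
  ∀ v w : Val, (vle v w → le (.inr v) (.inr w)) ∧ (vlf v w → ¬ le (.inr w) (.inr v))

def NegS : Prop := ∀ (P : Finset ℤ) (v : Val), Lo (sh 1 P) v.neg → Hi P v

def FarS : Prop := ∀ (A C : Finset ℤ) (h d : ℤ), (∀ x ∈ A, x ≤ h) →
  (∀ x ∈ C, h + 2 * (A.card + C.card) + 4 ≤ x + d) → d % 2 = 0 →
  le (.inl (A, C)) (.inl (A ∪ sh d C, ∅)) ∧ le (.inl (A ∪ sh d C, ∅)) (.inl (A, C))

theorem not_move_empty {par : ℤ} {Q : Finset ℤ} : ¬ Move par ∅ Q := fun ⟨_, h, _⟩ => by simp at h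

theorem oL_one {P : Finset ℤ} {x : S} (h : oL (.inl (P, ∅)) x) : ∃ Q, x = .inl (Q, ∅) ∧ Move 0 P Q := by
  rcases x with ⟨Q, E⟩ | v
  · rcases h with ⟨h, e⟩ | ⟨-, h⟩
    · exact ⟨Q, by rw [show E = ∅ from e], h⟩
    · exact (not_move_empty h).elim
  · exact h.elim

theorem oR_one {P : Finset ℤ} {x : S} (h : oR (.inl (P, ∅)) x) : ∃ Q, x = .inl (Q, ∅) ∧ Move 1 P Q := by
  rcases x with ⟨Q, E⟩ | v
  · rcases h with ⟨h, e⟩ | ⟨-, h⟩
    · exact ⟨Q, by rw [show E = ∅ from e], h⟩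
    · exact (not_move_empty h).elim
  · exact h.elim

theorem oL_of_move {P Q : Finset ℤ} (h : Move 0 P Q) : oL (.inl (P, ∅)) (.inl (Q, ∅)) :=
  Or.inl ⟨h, rfl⟩

theorem oR_of_move {P Q : Finset ℤ} (h : Move 1 P Q) : oR (.inl (P, ∅)) (.inl (Q, ∅)) :=
  Or.inl ⟨h, rfl⟩

theorem lo_of_step (hs : SoundS) {G : Finset ℤ → Val → Prop} (hG : ∀ P v, G P v → Step G P v)
    {P : Finset ℤ} {v : Val} (h : G P v) : Lo P v := by
  induction hN : P.card using Nat.strong_induction_on generalizing P v with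
  | _ N ih =>
    subst hN
    obtain ⟨h1, h2⟩ := hG P v h
    rw [Lo, le_iff]
    refine ⟨fun x hx c => ?_, fun x hx c => ?_⟩
    · rcases x with H | u
      · exact hx.elim
      · obtain ⟨Q, w, m, g, l⟩ := h2 u hx
        exact not_le_oL (oL_of_move m) ((c.trans ((hs _ _).1 l)).trans (ih _ m.card_lt g rfl))
    · obtain ⟨Q, rfl, m⟩ := oR_one hx
      rcases h1 Q m with ⟨w, g, l⟩ | ⟨Q', w, m', g, l⟩
      · exact (hs _ _).2 l (le.trans (ih _ m.card_lt g rfl) c)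
      · exact not_le_oL (oL_of_move m')
          ((c.trans ((hs _ _).1 l)).trans (ih _ (m'.card_lt.trans m.card_lt) g rfl))

end Pool.Agent.MP_914aa3_co.Cl
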